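import Pool.Agent.helper38.Neg.Crit

/-!
The CNF/DNF criterion with closure systems: monomials and clauses are described by states with a
rank; test inputs are compatible with the closures.
-/

namespace Pool.Agent.helper38.Neg

/-- A system of states: each state has a set of indices, states are extended by indices. -/
structure Sys (ι σ : Type*) where
  /-- the indices of a state -/
  E : σ → Finset ι
  /-- extension of a state by an index -/
  add : σ → ι → σ
  /-- the rank -/
  rk : σ → ℕ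
  /-- the initial state -/
  init : σ
  E_init : E init = ∅
  rk_add : ∀ s e, e ∉ E s → rk s + 1 ≤ rk (add s e)
  mem_add : ∀ e, e ∈ E (add init e)

/-- Inputs compatible with a system. -/
def Sys.Compat {ι σ : Type*} (S : Sys ι σ) (x : ι → Bool) : Prop :=
  ∀ s e, AllOn (S.E s) x → x e = true → AllOn (S.E (S.add s e)) x

lemma Sys.Compat.single {ι σ : Type*} {S : Sys ι σ} {x : ι → Bool} (h : S.Compat x) {e : ι}
    (he : x e = true) : AllOn (S.E (S.add S.init e)) x := by
  apply h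
  · rw [S.E_init]; intro i hi; simp at hi
  · exact he

section

variable {ι σ τ : Type*} [DecidableEq ι] [DecidableEq σ] [DecidableEq τ]

lemma sys_tree (S : Sys ι σ) {a : ℕ} (ha : 1 ≤ a) (Cl : Finset (Finset ι))
    (hCl : ∀ c ∈ Cl, c.card ≤ a) (r fuel : ℕ) :
    ∀ s0 : σ, r ≤ S.rk s0 + fuel → ∃ Dn R : Finset σ,
      (∀ M ∈ Dn, (∀ c ∈ Cl, ∃ i ∈ c, i ∈ S.E M) ∧ S.rk M < r) ∧
      (∀ M ∈ R, r ≤ S.rk M) ∧ R.card ≤ a ^ fuel ∧
      ∀ x : ι → Bool, S.Compat x → AllOn (S.E s0) x → (∀ c ∈ Cl, SomeOn c x) →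
        (∃ M ∈ Dn, AllOn (S.E M) x) ∨ (∃ M ∈ R, AllOn (S.E M) x) := by
  induction fuel with
  | zero =>
    intro s0 hs0
    refine ⟨∅, {s0}, by simp, by simpa using hs0, by simp, ?_⟩
    intro x _ hx _
    exact Or.inr ⟨s0, by simp, hx⟩
  | succ fuel ih =>
    intro s0 hs0
    by_cases hr : r ≤ S.rk s0
    · refine ⟨∅, {s0}, by simp, by simpa using hr, ?_, ?_⟩
      · rw [Finset.card_singleton]; exact Nat.one_le_pow _ _ ha
      · intro x _ hx _
        exact Or.inr ⟨s0, by simp, hx⟩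
    by_cases hall : ∀ c ∈ Cl, ∃ i ∈ c, i ∈ S.E s0
    · refine ⟨{s0}, ∅, ?_, by simp, by simp, ?_⟩
      · intro M hM
        rw [Finset.mem_singleton] at hM
        subst hM
        exact ⟨hall, by omega⟩
      · intro x _ hx _
        exact Or.inl ⟨s0, by simp, hx⟩
    · push Not at hall
      obtain ⟨c, hc, hcM⟩ := hall
      have hstep : ∀ i : ι, ∃ Dn R : Finset σ, i ∈ c →
        (∀ M ∈ Dn, (∀ c ∈ Cl, ∃ i ∈ c, i ∈ S.E M) ∧ S.rk M < r) ∧
        (∀ M ∈ R, r ≤ S.rk M) ∧ R.card ≤ a ^ fuel ∧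
        ∀ x : ι → Bool, S.Compat x → AllOn (S.E (S.add s0 i)) x → (∀ c ∈ Cl, SomeOn c x) →
          (∃ M ∈ Dn, AllOn (S.E M) x) ∨ (∃ M ∈ R, AllOn (S.E M) x) := by
        intro i
        by_cases hi : i ∈ c
        · have h1 := S.rk_add s0 i (hcM i hi)
          obtain ⟨Dn, R, h⟩ := ih (S.add s0 i) (by omega)
          exact ⟨Dn, R, fun _ => h⟩
        · exact ⟨∅, ∅, fun h => absurd h hi⟩
      choose Dn R hDR using hstep
      refine ⟨c.biUnion Dn, c.biUnion R, ?_, ?_, ?_, ?_⟩
      · intro M hM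
        obtain ⟨i, hi, hM'⟩ := Finset.mem_biUnion.1 hM
        exact (hDR i hi).1 M hM'
      · intro M hM
        obtain ⟨i, hi, hM'⟩ := Finset.mem_biUnion.1 hM
        exact (hDR i hi).2.1 M hM'
      · calc (c.biUnion R).card ≤ ∑ i ∈ c, (R i).card := Finset.card_biUnion_le
          _ ≤ ∑ i ∈ c, a ^ fuel := Finset.sum_le_sum (fun i hi => (hDR i hi).2.2.1)
          _ = c.card * a ^ fuel := by simp
          _ ≤ a * a ^ fuel := Nat.mul_le_mul_right _ (hCl c hc)
          _ = a ^ (fuel + 1) := by ring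
      · intro x hcomp hx hsat
        obtain ⟨i, hi, hxi⟩ := hsat c hc
        rcases (hDR i hi).2.2.2 x hcomp (hcomp s0 i hx hxi) hsat with ⟨M, hM, hMx⟩ | ⟨M, hM, hMx⟩
        · exact Or.inl ⟨M, Finset.mem_biUnion.2 ⟨i, hi, hM⟩, hMx⟩
        · exact Or.inr ⟨M, Finset.mem_biUnion.2 ⟨i, hi, hM⟩, hMx⟩

/-- Approximation of `f` on the test inputs. -/
def SGood (P : Sys ι σ) (N : Sys ι τ) (r s : ℕ) (D : Finset σ) (E : Finset τ)
    (f : (ι → Bool) → Bool) : Prop :=
  ∃ (Cl : Finset τ) (Dn : Finset σ), (∀ c ∈ Cl, N.rk c < s) ∧ (∀ M ∈ Dn, P.rk M < r) ∧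
    (∀ M ∈ Dn, ∀ c ∈ Cl, ∃ i ∈ N.E c, i ∈ P.E M) ∧
    (∀ x, P.Compat x → f x = true →
      (∃ M ∈ Dn, AllOn (P.E M) x) ∨ ∃ M ∈ D, AllOn (P.E M) x) ∧
    (∀ x, N.Compat (fun i => !(x i)) → (∀ c ∈ E, SomeOn (N.E c) x) →
      (∀ c ∈ Cl, SomeOn (N.E c) x) → f x = true)

omit [DecidableEq ι] [DecidableEq σ] [DecidableEq τ] in
lemma SGood.mono {P : Sys ι σ} {N : Sys ι τ} {r s : ℕ} {D D' : Finset σ} {E E' : Finset τ}
    (hD : D ⊆ D') (hE : E ⊆ E') {f : (ι → Bool) → Bool} (h : SGood P N r s D E f) :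
    SGood P N r s D' E' f := by
  obtain ⟨Cl, Dn, h1, h2, h3, h4, h5⟩ := h
  refine ⟨Cl, Dn, h1, h2, h3, ?_, ?_⟩
  · intro x hx hf
    rcases h4 x hx hf with h | ⟨M, hM, hMx⟩
    · exact Or.inl h
    · exact Or.inr ⟨M, hD hM, hMx⟩
  · intro x hx hx1 hx2
    exact h5 x hx (fun c hc => hx1 c (hE hc)) hx2

omit [DecidableEq ι] [DecidableEq σ] [DecidableEq τ] in
lemma sgood_free {P : Sys ι σ} {N : Sys ι τ} {r s : ℕ}
    (hP : ∀ e, P.rk (P.add P.init e) < r) (hN : ∀ e, N.rk (N.add N.init e) < s)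
    (hP0 : P.rk P.init < r) (hN0 : N.rk N.init < s)
    {D : Finset σ} {E : Finset τ} {f : (ι → Bool) → Bool} (hf : Avail [] f) :
    SGood P N r s D E f := by
  rcases hf with hf | ⟨v, rfl⟩ | ⟨i, rfl⟩
  · simp at hf
  · cases v
    · refine ⟨{N.init}, ∅, by simpa using hN0, by simp, by simp, ?_, ?_⟩
      · intro x _ hx; simp at hx
      · intro x _ _ hx
        obtain ⟨i, hi, _⟩ := hx N.init (by simp)
        rw [N.E_init] at hi
        simp at hi
    · refine ⟨∅, {P.init}, by simp, by simpa using hP0, by simp, ?_, ?_⟩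
      · intro x _ _
        refine Or.inl ⟨P.init, by simp, ?_⟩
        rw [P.E_init]
        intro i hi; simp at hi
      · intro x _ _ _; rfl
  · refine ⟨{N.add N.init i}, {P.add P.init i}, by simpa using hN i, by simpa using hP i,
      ?_, ?_, ?_⟩
    · intro M hM c hc
      rw [Finset.mem_singleton] at hM hc
      subst hM; subst hc
      exact ⟨i, N.mem_add i, P.mem_add i⟩
    · intro x hx hxi
      exact Or.inl ⟨_, by simp, hx.single hxi⟩
    · intro x hx _ hsat
      by_contra hxi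
      have hxi' : (fun i => !(x i)) i = true := by simpa using hxi
      have h1 := hx.single hxi'
      obtain ⟨j, hj, hxj⟩ := hsat (N.add N.init i) (by simp)
      have := h1 j hj
      simp [hxj] at this

/-- The criterion for closure systems. -/
theorem scrit (P : Sys ι σ) (N : Sys ι τ) {r s a b : ℕ} (ha : 1 ≤ a) (hb : 1 ≤ b)
    (hP : ∀ e, P.rk (P.add P.init e) < r) (hN : ∀ e, N.rk (N.add N.init e) < s)
    (hP0 : P.rk P.init < r) (hN0 : N.rk N.init < s)
    (hPb : ∀ M, P.rk M < r → (P.E M).card ≤ b) (hNa : ∀ c, N.rk c < s → (N.E c).card ≤ a)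
    {L : List ((ι → Bool) → Bool)} (hL : MonoChain L) :
    ∃ (D : Finset σ) (E : Finset τ), (∀ M ∈ D, r ≤ P.rk M) ∧ D.card ≤ L.length * a ^ r ∧
      (∀ c ∈ E, s ≤ N.rk c) ∧ E.card ≤ L.length * b ^ s ∧
      ∀ f, Avail L f → SGood P N r s D E f := by
  induction hL with
  | nil =>
    exact ⟨∅, ∅, by simp, by simp, by simp, by simp,
      fun f hf => sgood_free hP hN hP0 hN0 hf⟩
  | @and L u v hL hu hv ih =>
    obtain ⟨D, E, h1, h2, h3, h4, h5⟩ := ih
    obtain ⟨Cu, Du, u1, u2, u3, u4, u5⟩ := h5 u hu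
    obtain ⟨Cv, Dv, v1, v2, v3, v4, v5⟩ := h5 v hv
    have hCl : ∀ c ∈ Cu ∪ Cv, N.rk c < s := by
      intro c hc
      rcases Finset.mem_union.1 hc with hc | hc
      · exact u1 c hc
      · exact v1 c hc
    obtain ⟨Dn, R, w1, w2, w3, w4⟩ := sys_tree P ha ((Cu ∪ Cv).image N.E) (by
      intro c hc
      obtain ⟨c', hc', rfl⟩ := Finset.mem_image.1 hc
      exact hNa c' (hCl c' hc')) r r P.init (by omega)
    have hgood : SGood P N r s (D ∪ R) E (fun y => u y && v y) := by
      refine ⟨Cu ∪ Cv, Dn, hCl, fun M hM => (w1 M hM).2, ?_, ?_, ?_⟩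
      · intro M hM c hc
        exact (w1 M hM).1 (N.E c) (Finset.mem_image_of_mem _ hc)
      · intro x hcomp hx
        rw [Bool.and_eq_true] at hx
        rcases u4 x hcomp hx.1 with ⟨M1, hM1, hM1x⟩ | ⟨M, hM, hMx⟩
        · rcases v4 x hcomp hx.2 with ⟨M2, hM2, hM2x⟩ | ⟨M, hM, hMx⟩
          · rcases w4 x hcomp (by rw [P.E_init]; intro i hi; simp at hi) (by
              intro c hc
              obtain ⟨c', hc', rfl⟩ := Finset.mem_image.1 hc
              rcases Finset.mem_union.1 hc' with hc' | hc'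
              · obtain ⟨i, hi1, hi2⟩ := u3 M1 hM1 c' hc'
                exact ⟨i, hi1, hM1x i hi2⟩
              · obtain ⟨i, hi1, hi2⟩ := v3 M2 hM2 c' hc'
                exact ⟨i, hi1, hM2x i hi2⟩) with hh | ⟨M, hM, hMx⟩
            · exact Or.inl hh
            · exact Or.inr ⟨M, Finset.mem_union_right _ hM, hMx⟩
          · exact Or.inr ⟨M, Finset.mem_union_left _ hM, hMx⟩
        · exact Or.inr ⟨M, Finset.mem_union_left _ hM, hMx⟩
      · intro x hcomp hx1 hx2
        rw [Bool.and_eq_true]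
        exact ⟨u5 x hcomp hx1 (fun c hc => hx2 c (Finset.mem_union_left _ hc)),
          v5 x hcomp hx1 (fun c hc => hx2 c (Finset.mem_union_right _ hc))⟩
    refine ⟨D ∪ R, E, ?_, ?_, h3, ?_, ?_⟩
    · intro M hM
      rcases Finset.mem_union.1 hM with hM | hM
      · exact h1 M hM
      · exact w2 M hM
    · calc (D ∪ R).card ≤ D.card + R.card := Finset.card_union_le _ _
        _ ≤ L.length * a ^ r + a ^ r := Nat.add_le_add h2 w3
        _ = _ := by rw [List.length_cons]; ring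
    · calc E.card ≤ L.length * b ^ s := h4
        _ ≤ (L.length + 1) * b ^ s := Nat.mul_le_mul_right _ (Nat.le_succ _)
        _ = _ := by rw [List.length_cons]
    · intro f hf
      rcases hf with hf | hf | hf
      · rcases List.mem_cons.1 hf with rfl | hf
        · exact hgood
        · exact (h5 f (Or.inl hf)).mono Finset.subset_union_left (Finset.Subset.refl _)
      · exact sgood_free hP hN hP0 hN0 (Or.inr (Or.inl hf))
      · exact sgood_free hP hN hP0 hN0 (Or.inr (Or.inr hf))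
  | @or L u v hL hu hv ih =>
    obtain ⟨D, E, h1, h2, h3, h4, h5⟩ := ih
    obtain ⟨Cu, Du, u1, u2, u3, u4, u5⟩ := h5 u hu
    obtain ⟨Cv, Dv, v1, v2, v3, v4, v5⟩ := h5 v hv
    have hDn : ∀ M ∈ Du ∪ Dv, P.rk M < r := by
      intro c hc
      rcases Finset.mem_union.1 hc with hc | hc
      · exact u2 c hc
      · exact v2 c hc
    obtain ⟨Cl, R, w1, w2, w3, w4⟩ := sys_tree N hb ((Du ∪ Dv).image P.E) (by
      intro c hc
      obtain ⟨c', hc', rfl⟩ := Finset.mem_image.1 hc
      exact hPb c' (hDn c' hc')) s s N.init (by omega)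
    have hgood : SGood P N r s D (E ∪ R) (fun y => u y || v y) := by
      refine ⟨Cl, Du ∪ Dv, fun c hc => (w1 c hc).2, hDn, ?_, ?_, ?_⟩
      · intro M hM c hc
        obtain ⟨i, hi1, hi2⟩ := (w1 c hc).1 (P.E M) (Finset.mem_image_of_mem _ hM)
        exact ⟨i, hi2, hi1⟩
      · intro x hcomp hx
        rw [Bool.or_eq_true] at hx
        rcases hx with hx | hx
        · rcases u4 x hcomp hx with ⟨M, hM, hMx⟩ | hh
          · exact Or.inl ⟨M, Finset.mem_union_left _ hM, hMx⟩
          · exact Or.inr hh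
        · rcases v4 x hcomp hx with ⟨M, hM, hMx⟩ | hh
          · exact Or.inl ⟨M, Finset.mem_union_right _ hM, hMx⟩
          · exact Or.inr hh
      · intro x hcomp hx1 hx2
        by_contra hcon
        have hcon' : u x = false ∧ v x = false := by
          simpa [Bool.or_eq_true, not_or] using hcon
        have hE : ∀ c ∈ E, SomeOn (N.E c) x := fun c hc => hx1 c (Finset.mem_union_left _ hc)
        -- the DNF of u or v vanishes on x, so the complement hits all monomials
        have hhit : ∀ c ∈ (Du ∪ Dv).image P.E, SomeOn c (fun i => !(x i)) := by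
          intro c hc
          obtain ⟨M, hM, rfl⟩ := Finset.mem_image.1 hc
          by_contra hno
          have hall : AllOn (P.E M) x := by
            intro i hi
            by_contra hxi
            exact hno ⟨i, hi, by simpa using hxi⟩
          rcases Finset.mem_union.1 hM with hM | hM
          · have := u5 x hcomp hE (fun c hc => by
              obtain ⟨i, hi1, hi2⟩ := u3 M hM c hc
              exact ⟨i, hi1, hall i hi2⟩)
            rw [hcon'.1] at this
            exact absurd this (by simp)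
          · have := v5 x hcomp hE (fun c hc => by
              obtain ⟨i, hi1, hi2⟩ := v3 M hM c hc
              exact ⟨i, hi1, hall i hi2⟩)
            rw [hcon'.2] at this
            exact absurd this (by simp)
        rcases w4 (fun i => !(x i)) hcomp (by rw [N.E_init]; intro i hi; simp at hi) hhit with
          ⟨c, hc, hcx⟩ | ⟨c, hc, hcx⟩
        · obtain ⟨i, hi, hxi⟩ := hx2 c hc
          have := hcx i hi
          simp [hxi] at this
        · obtain ⟨i, hi, hxi⟩ := hx1 c (Finset.mem_union_right _ hc)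
          have := hcx i hi
          simp [hxi] at this
    refine ⟨D, E ∪ R, h1, ?_, ?_, ?_, ?_⟩
    · calc D.card ≤ L.length * a ^ r := h2
        _ ≤ (L.length + 1) * a ^ r := Nat.mul_le_mul_right _ (Nat.le_succ _)
        _ = _ := by rw [List.length_cons]
    · intro c hc
      rcases Finset.mem_union.1 hc with hc | hc
      · exact h3 c hc
      · exact w2 c hc
    · calc (E ∪ R).card ≤ E.card + R.card := Finset.card_union_le _ _
        _ ≤ L.length * b ^ s + b ^ s := Nat.add_le_add h4 w3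
        _ = _ := by rw [List.length_cons]; ring
    · intro f hf
      rcases hf with hf | hf | hf
      · rcases List.mem_cons.1 hf with rfl | hf
        · exact hgood
        · exact (h5 f (Or.inl hf)).mono (Finset.Subset.refl _) Finset.subset_union_left
      · exact sgood_free hP hN hP0 hN0 (Or.inr (Or.inl hf))
      · exact sgood_free hP hN hP0 hN0 (Or.inr (Or.inr hf))

/-- Final form. -/
theorem scrit' (P : Sys ι σ) (N : Sys ι τ) {r s a b : ℕ} (ha : 1 ≤ a) (hb : 1 ≤ b)
    (hP : ∀ e, P.rk (P.add P.init e) < r) (hN : ∀ e, N.rk (N.add N.init e) < s)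
    (hP0 : P.rk P.init < r) (hN0 : N.rk N.init < s)
    (hPb : ∀ M, P.rk M < r → (P.E M).card ≤ b) (hNa : ∀ c, N.rk c < s → (N.E c).card ≤ a)
    {L : List ((ι → Bool) → Bool)} (hL : MonoChain L) {f : (ι → Bool) → Bool} (hf : f ∈ L) :
    ∃ (D : Finset σ) (E : Finset τ), (∀ M ∈ D, r ≤ P.rk M) ∧ D.card ≤ L.length * a ^ r ∧
      (∀ c ∈ E, s ≤ N.rk c) ∧ E.card ≤ L.length * b ^ s ∧
      ((∀ x, N.Compat (fun i => !(x i)) → (∀ c ∈ E, SomeOn (N.E c) x) → f x = true) ∨
        ∃ I : Finset ι, I.card ≤ a ∧ ∀ x, P.Compat x → f x = true →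
          SomeOn I x ∨ ∃ M ∈ D, AllOn (P.E M) x) := by
  obtain ⟨D, E, h1, h2, h3, h4, h5⟩ := scrit P N ha hb hP hN hP0 hN0 hPb hNa hL
  refine ⟨D, E, h1, h2, h3, h4, ?_⟩
  obtain ⟨Cl, Dn, g1, g2, g3, g4, g5⟩ := h5 f (Or.inl hf)
  rcases Cl.eq_empty_or_nonempty with he | ⟨c, hc⟩
  · left
    intro x hcomp hx
    exact g5 x hcomp hx (by intro c hc; rw [he] at hc; simp at hc)
  · right
    refine ⟨N.E c, hNa c (g1 c hc), ?_⟩
    intro x hcomp hx
    rcases g4 x hcomp hx with ⟨M, hM, hMx⟩ | h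
    · left
      obtain ⟨i, hi1, hi2⟩ := g3 M hM c hc
      exact ⟨i, hi1, hMx i hi2⟩
    · exact Or.inr h

end

end Pool.Agent.helper38.Neg
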