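import Pool.Agent.helper38.Neg.CCrit

/-!
Monotone lower bound for the clique function.
-/

namespace Pool.Agent.helper38.Neg

open Finset

/-- Edges of the complete graph on `Fin m`. -/
abbrev Edge (m : ℕ) : Type := {p : Fin m × Fin m // p.1 < p.2}

/-- The graph `y` has a clique with `k` vertices. -/
def ClqFn (m k : ℕ) (y : Edge m → Bool) : Prop :=
  ∃ S : Finset (Fin m), S.card = k ∧ ∀ e : Edge m, e.1.1 ∈ S → e.1.2 ∈ S → y e = true

/-- States of the positive system: vertex sets that are not singletons. -/
abbrev PState (m : ℕ) : Type := {X : Finset (Fin m) // X.card ≠ 1}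

/-- Edges inside a vertex set. -/
def inside {m : ℕ} (X : Finset (Fin m)) : Finset (Edge m) :=
  univ.filter fun e : Edge m => e.1.1 ∈ X ∧ e.1.2 ∈ X

lemma mem_inside {m : ℕ} {X : Finset (Fin m)} {e : Edge m} :
    e ∈ inside X ↔ e.1.1 ∈ X ∧ e.1.2 ∈ X := by
  simp [inside]

/-- Positive system. -/
def PSys (m : ℕ) : Sys (Edge m) (PState m) where
  E X := inside X.1
  add X e := ⟨insert e.1.1 (insert e.1.2 X.1), by
    have h : ({e.1.1, e.1.2} : Finset (Fin m)) ⊆ insert e.1.1 (insert e.1.2 X.1) := by
      intro v hv
      simp only [mem_insert, mem_singleton] at hv ⊢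
      rcases hv with h | h
      · exact Or.inl h
      · exact Or.inr (Or.inl h)
    have h1 := Finset.card_le_card h
    rw [Finset.card_pair (ne_of_lt e.2)] at h1
    omega⟩
  rk X := X.1.card
  init := ⟨∅, by simp⟩
  E_init := by ext e; simp [inside]
  rk_add := by
    intro X e he
    simp only [mem_inside, not_and_or] at he
    have hss : X.1 ⊂ insert e.1.1 (insert e.1.2 X.1) := by
      rw [Finset.ssubset_iff_of_subset (fun v hv => mem_insert_of_mem (mem_insert_of_mem hv))]
      rcases he with he | he
      · exact ⟨e.1.1, mem_insert_self _ _, he⟩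
      · exact ⟨e.1.2, mem_insert_of_mem (mem_insert_self _ _), he⟩
    exact Finset.card_lt_card hss
  mem_add := by intro e; simp [mem_inside]

/-- The clique on `S`. -/
def clq {m : ℕ} (S : Finset (Fin m)) : Edge m → Bool := fun e => decide (e.1.1 ∈ S ∧ e.1.2 ∈ S)

lemma subset_of_allOn {m : ℕ} {S X : Finset (Fin m)} (hX : X.card ≠ 1)
    (h : AllOn (inside X) (clq S)) : X ⊆ S := by
  intro v hv
  have h1 : ∃ u ∈ X, u ≠ v := by
    by_contra hcon
    push Not at hcon
    apply hX
    rw [Finset.card_eq_one]
    exact ⟨v, by ext u; simp only [mem_singleton]; exact ⟨hcon u, fun h => h ▸ hv⟩⟩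
  obtain ⟨u, hu, huv⟩ := h1
  rcases lt_or_gt_of_ne huv with hlt | hgt
  · have := h ⟨(u, v), hlt⟩ (mem_inside.2 ⟨hu, hv⟩)
    simp [clq] at this
    exact this.2
  · have := h ⟨(v, u), hgt⟩ (mem_inside.2 ⟨hv, hu⟩)
    simp [clq] at this
    exact this.1

/-- The clique on `S` is compatible with the positive system. -/
lemma psys_compat {m : ℕ} (S : Finset (Fin m)) : (PSys m).Compat (clq S) := by
  intro X e hX he
  have he' : e.1.1 ∈ S ∧ e.1.2 ∈ S := by simpa [clq] using he
  have hXS : X.1 ⊆ S := subset_of_allOn X.2 hX
  have hins : insert e.1.1 (insert e.1.2 X.1) ⊆ S := by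
    intro v hv
    rcases mem_insert.1 hv with rfl | hv
    · exact he'.1
    · rcases mem_insert.1 hv with rfl | hv
      · exact he'.2
      · exact hXS hv
  intro i hi
  have hi' : i ∈ inside (insert e.1.1 (insert e.1.2 X.1)) := hi
  rw [mem_inside] at hi'
  simp [clq, hins hi'.1, hins hi'.2]

/-- States of the negative system: partitions, given by idempotent maps. -/
abbrev NState (m : ℕ) : Type := {L : Fin m → Fin m // ∀ v, L (L v) = L v}

/-- Edges inside the classes. -/
def classes {m : ℕ} (L : Fin m → Fin m) : Finset (Edge m) :=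
  univ.filter fun e : Edge m => L e.1.1 = L e.1.2

lemma mem_classes {m : ℕ} {L : Fin m → Fin m} {e : Edge m} :
    e ∈ classes L ↔ L e.1.1 = L e.1.2 := by
  simp [classes]

/-- Negative system. -/
def NSys (m : ℕ) : Sys (Edge m) (NState m) where
  E L := classes L.1
  add L e := ⟨fun v => if L.1 v = L.1 e.1.1 then L.1 e.1.2 else L.1 v, by
    intro v
    by_cases h : L.1 v = L.1 e.1.1
    · simp only [h, if_true, L.2]
      split_ifs with h2 <;> rfl
    · simp only [h, if_false, L.2]⟩
  rk L := m - (univ.image L.1).card
  init := ⟨id, fun _ => rfl⟩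
  E_init := by
    ext e
    simp only [mem_classes, id_eq, notMem_empty, iff_false]
    exact ne_of_lt e.2
  rk_add := by
    intro L e he
    rw [mem_classes] at he
    have hsub : univ.image (fun v => if L.1 v = L.1 e.1.1 then L.1 e.1.2 else L.1 v) ⊆
        (univ.image L.1).erase (L.1 e.1.1) := by
      intro u hu
      obtain ⟨v, _, rfl⟩ := mem_image.1 hu
      rw [mem_erase]
      split_ifs with h
      · exact ⟨fun h2 => he h2.symm, mem_image_of_mem _ (mem_univ _)⟩
      · exact ⟨h, mem_image_of_mem _ (mem_univ _)⟩
    have h1 := Finset.card_le_card hsub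
    rw [Finset.card_erase_of_mem (mem_image_of_mem _ (mem_univ _))] at h1
    have h2 : (univ.image L.1).card ≤ m := by
      have := Finset.card_image_le (s := (univ : Finset (Fin m))) (f := L.1)
      simpa using this
    have h3 : 0 < (univ.image L.1).card :=
      Finset.card_pos.2 ⟨_, mem_image_of_mem _ (mem_univ e.1.1)⟩
    change m - (univ.image L.1).card + 1 ≤
      m - (univ.image (fun v => if L.1 v = L.1 e.1.1 then L.1 e.1.2 else L.1 v)).card
    omega
  mem_add := by
    intro e
    rw [mem_classes]
    simp

/-- The complete multipartite graph of a colouring. -/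
def mult {m : ℕ} {γ : Type*} [DecidableEq γ] (χ : Fin m → γ) : Edge m → Bool :=
  fun e => decide (χ e.1.1 ≠ χ e.1.2)

lemma const_of_allOn {m : ℕ} {γ : Type*} [DecidableEq γ] {χ : Fin m → γ} {L : Fin m → Fin m}
    (hL : ∀ v, L (L v) = L v) (h : AllOn (classes L) (fun e => !(mult χ e))) (v : Fin m) :
    χ (L v) = χ v := by
  by_cases hv : L v = v
  · rw [hv]
  · rcases lt_or_gt_of_ne hv with hlt | hgt
    · have := h ⟨(L v, v), hlt⟩ (mem_classes.2 (hL v))
      simpa [mult] using this
    · have := h ⟨(v, L v), hgt⟩ (mem_classes.2 (hL v).symm)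
      have h2 : χ v = χ (L v) := by simpa [mult] using this
      exact h2.symm

lemma nsys_compat {m : ℕ} {γ : Type*} [DecidableEq γ] (χ : Fin m → γ) :
    (NSys m).Compat (fun e => !(mult χ e)) := by
  intro L e hL he
  have hc := const_of_allOn L.2 hL
  have he' : χ e.1.1 = χ e.1.2 := by simpa [mult] using he
  intro i hi
  have hi' : (if L.1 i.1.1 = L.1 e.1.1 then L.1 e.1.2 else L.1 i.1.1) =
      if L.1 i.1.2 = L.1 e.1.1 then L.1 e.1.2 else L.1 i.1.2 := mem_classes.1 hi
  have h2 : ∀ v, χ (if L.1 v = L.1 e.1.1 then L.1 e.1.2 else L.1 v) = χ v := by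
    intro v
    split_ifs with h
    · rw [hc, ← he', ← hc e.1.1, ← h, hc]
    · exact hc v
  have h3 : χ i.1.1 = χ i.1.2 := by rw [← h2 i.1.1, hi', h2]
  simp [mult, h3]

lemma card_inside {m : ℕ} (X : Finset (Fin m)) : (inside X).card ≤ X.card ^ 2 := by
  have : (inside X).card ≤ (X ×ˢ X).card := by
    apply Finset.card_le_card_of_injOn (fun e => e.1)
    · intro e he
      have := mem_inside.1 (Finset.mem_coe.1 he)
      exact Finset.mem_coe.2 (mem_product.2 this)
    · intro e _ e' _ h
      exact Subtype.ext h
  rw [card_product] at this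
  rw [sq]; exact this

lemma card_classes {m : ℕ} (L : NState m) :
    (classes L.1).card ≤ 4 * (m - (univ.image L.1).card) ^ 2 := by
  classical
  set T1 : Finset (Fin m) := univ.filter fun v => L.1 v ≠ v with hT1
  have hfix : univ.image L.1 = univ.filter fun v => L.1 v = v := by
    ext v
    simp only [mem_image, mem_univ, true_and, mem_filter]
    constructor
    · rintro ⟨u, rfl⟩; exact L.2 u
    · intro h; exact ⟨v, h⟩
  have hcard : T1.card = m - (univ.image L.1).card := by
    rw [hfix]
    have := Finset.card_filter_add_card_filter_not (s := (univ : Finset (Fin m)))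
      (fun v => L.1 v = v)
    rw [card_univ, Fintype.card_fin] at this
    have h2 : T1.card = (univ.filter fun v => ¬ L.1 v = v).card := rfl
    omega
  have hT : (classes L.1).card ≤ ((T1 ∪ T1.image L.1) ×ˢ (T1 ∪ T1.image L.1)).card := by
    apply Finset.card_le_card_of_injOn (fun e => e.1)
    · intro e he
      have h1 := mem_classes.1 (Finset.mem_coe.1 he)
      have hne : e.1.1 ≠ e.1.2 := ne_of_lt e.2
      have key : ∀ u v : Fin m, L.1 u = L.1 v → u ≠ v → u ∈ T1 ∪ T1.image L.1 := by
        intro u v h huv
        by_cases hu : L.1 u = u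
        · apply mem_union_right
          apply mem_image.2
          refine ⟨v, ?_, by rw [← h, hu]⟩
          rw [hT1, mem_filter]
          refine ⟨mem_univ _, ?_⟩
          rw [← h, hu]; exact huv
        · apply mem_union_left
          rw [hT1, mem_filter]
          exact ⟨mem_univ _, hu⟩
      exact Finset.mem_coe.2 (mem_product.2 ⟨key _ _ h1 hne, key _ _ h1.symm hne.symm⟩)
    · intro e _ e' _ h
      exact Subtype.ext h
  rw [card_product] at hT
  have hT2 : (T1 ∪ T1.image L.1).card ≤ 2 * T1.card := by
    have h1 := Finset.card_union_le T1 (T1.image L.1)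
    have h2 := Finset.card_image_le (s := T1) (f := L.1)
    omega
  rw [← hcard]
  calc (classes L.1).card ≤ (T1 ∪ T1.image L.1).card * (T1 ∪ T1.image L.1).card := hT
    _ ≤ (2 * T1.card) * (2 * T1.card) := Nat.mul_le_mul hT2 hT2
    _ = 4 * T1.card ^ 2 := by ring

open Classical in
/-- Number of colourings that are constant on the classes. -/
lemma card_colourings {m q : ℕ} (L : NState m) :
    (univ.filter fun χ : Fin m → Fin q => AllOn (classes L.1) (fun e => !(mult χ e))).card *
      q ^ (m - (univ.image L.1).card) ≤ q ^ m := by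
  classical
  have h1 : (univ.filter fun χ : Fin m → Fin q =>
      AllOn (classes L.1) (fun e => !(mult χ e))).card ≤ q ^ (univ.image L.1).card := by
    have h2 : (univ.filter fun χ : Fin m → Fin q =>
        AllOn (classes L.1) (fun e => !(mult χ e))).card ≤
        (univ : Finset ({v // v ∈ univ.image L.1} → Fin q)).card := by
      apply Finset.card_le_card_of_injOn (fun χ v => χ v.1) (fun _ _ => by simp)
      intro χ hχ χ' hχ' h
      have hχ1 := const_of_allOn L.2 (mem_filter.1 (Finset.mem_coe.1 hχ)).2
      have hχ2 := const_of_allOn L.2 (mem_filter.1 (Finset.mem_coe.1 hχ')).2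
      funext v
      rw [← hχ1 v, ← hχ2 v]
      exact congrFun h ⟨L.1 v, mem_image_of_mem _ (mem_univ _)⟩
    refine h2.trans ?_
    rw [card_univ, Fintype.card_fun, Fintype.card_fin, Fintype.card_coe]
  have h3 : (univ.image L.1).card ≤ m := by
    have := Finset.card_image_le (s := (univ : Finset (Fin m))) (f := L.1)
    simpa using this
  calc _ ≤ q ^ (univ.image L.1).card * q ^ (m - (univ.image L.1).card) :=
        Nat.mul_le_mul_right _ h1
    _ = q ^ m := by rw [← pow_add]; congr 1; omega

/-- The transversal vertex set of a choice function. -/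
def trans {k w : ℕ} (g : Fin k → Fin w) : Finset (Fin (k * w)) :=
  univ.image fun i => finProdFinEquiv (i, g i)

lemma mem_trans {k w : ℕ} {g : Fin k → Fin w} {v : Fin (k * w)} :
    v ∈ trans g ↔ g (finProdFinEquiv.symm v).1 = (finProdFinEquiv.symm v).2 := by
  unfold trans
  rw [mem_image]
  constructor
  · rintro ⟨i, _, rfl⟩
    simp
  · intro h
    refine ⟨(finProdFinEquiv.symm v).1, mem_univ _, ?_⟩
    rw [h]
    exact finProdFinEquiv.apply_symm_apply v

lemma card_trans {k w : ℕ} (g : Fin k → Fin w) : (trans g).card = k := by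
  unfold trans
  rw [card_image_of_injective]
  · simp
  · intro i j h
    have := finProdFinEquiv.injective h
    exact (Prod.ext_iff.1 this).1

/-- Number of choice functions whose transversal contains `X`. -/
lemma card_choice {k w : ℕ} (X : Finset (Fin (k * w))) :
    (univ.filter fun g : Fin k → Fin w => X ⊆ trans g).card * w ^ X.card ≤ w ^ k := by
  classical
  by_cases hne : ∃ g0 : Fin k → Fin w, X ⊆ trans g0
  · obtain ⟨g0, hg0⟩ := hne
    set I : Finset (Fin k) := X.image fun v => (finProdFinEquiv.symm v).1 with hI
    have hIc : I.card = X.card := by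
      rw [hI, card_image_of_injOn]
      intro u hu v hv huv
      have h1 := mem_trans.1 (hg0 hu)
      have h2 := mem_trans.1 (hg0 hv)
      have huv' : (finProdFinEquiv.symm u).1 = (finProdFinEquiv.symm v).1 := huv
      apply finProdFinEquiv.symm.injective
      exact Prod.ext huv' (by rw [← h1, ← h2, huv'])
    have hsub : (univ.filter fun g : Fin k → Fin w => X ⊆ trans g) ⊆
        Fintype.piFinset fun i => if i ∈ I then {g0 i} else univ := by
      intro g hg
      rw [mem_filter] at hg
      rw [Fintype.mem_piFinset]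
      intro i
      split_ifs with hi
      · obtain ⟨v, hv, rfl⟩ := mem_image.1 hi
        have h1 := mem_trans.1 (hg0 hv)
        have h2 := mem_trans.1 (hg.2 hv)
        rw [mem_singleton, h1, h2]
      · exact mem_univ _
    have hc : (Fintype.piFinset fun i : Fin k => if i ∈ I then ({g0 i} : Finset (Fin w))
        else univ).card * w ^ I.card = w ^ k := by
      rw [Fintype.card_piFinset]
      have h1 : ∀ i : Fin k, (if i ∈ I then ({g0 i} : Finset (Fin w)) else univ).card =
          if i ∈ I then 1 else w := by
        intro i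
        split_ifs <;> simp
      simp_rw [h1]
      rw [Finset.prod_ite]
      simp only [Finset.prod_const, one_pow, one_mul]
      have h3 : (univ.filter fun i => i ∉ I).card + I.card = k := by
        have h2 : (univ.filter fun i => i ∈ I).card = I.card := by congr 1; ext; simp
        rw [← h2, add_comm]
        have := Finset.card_filter_add_card_filter_not (s := (univ : Finset (Fin k)))
          (fun i => i ∈ I)
        simpa using this
      rw [← pow_add, h3]
    rw [hIc] at hc
    rw [← hc]
    exact Nat.mul_le_mul_right _ (card_le_card hsub)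
  · push Not at hne
    have : (univ.filter fun g : Fin k → Fin w => X ⊆ trans g) = ∅ := by
      rw [filter_eq_empty_iff]
      intro g _
      exact hne g
    rw [this]
    simp

/-- Monotone lower bound for the clique function. -/
theorem clq_lower {k w t : ℕ} (ht : 3 ≤ t) (hk : 2 * t ^ 2 + 1 ≤ k) (hw : 8 * t ^ 2 ≤ w)
    {L : List ((Edge (k * w) → Bool) → Bool)} (hL : MonoChain L)
    {f : (Edge (k * w) → Bool) → Bool} (hf : f ∈ L)
    (hff : ∀ y, f y = true ↔ ClqFn (k * w) k y) : 2 ^ t ≤ 2 * L.length := by
  classical
  have ht2 : 1 ≤ t ^ 2 := Nat.one_le_pow _ _ (by omega)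
  obtain ⟨D, E, hD1, hD2, hE1, hE2, hor⟩ := scrit' (PSys (k * w)) (NSys (k * w))
    (r := t) (s := t) (a := 4 * t ^ 2) (b := t ^ 2) (by omega) ht2
    (by
      intro e
      change (insert e.1.1 (insert e.1.2 (∅ : Finset (Fin (k * w))))).card < t
      have h1 := Finset.card_insert_le e.1.1 (insert e.1.2 (∅ : Finset (Fin (k * w))))
      have h2 := Finset.card_insert_le e.1.2 (∅ : Finset (Fin (k * w)))
      rw [card_empty] at h2
      omega)
    (by
      intro e
      change k * w - (univ.image (fun v => if id v = id e.1.1 then id e.1.2 else id v)).card < t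
      have h1 : (univ : Finset (Fin (k * w))).erase e.1.1 ⊆
          univ.image (fun v => if id v = id e.1.1 then id e.1.2 else id v) := by
        intro v hv
        rw [mem_erase] at hv
        rw [mem_image]
        refine ⟨v, mem_univ _, ?_⟩
        simp [hv.1]
      have h2 := card_le_card h1
      rw [card_erase_of_mem (mem_univ _), card_univ, Fintype.card_fin] at h2
      omega)
    (by change (∅ : Finset (Fin (k * w))).card < t; rw [card_empty]; omega)
    (by
      change k * w - (univ.image (id : Fin (k * w) → Fin (k * w))).card < t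
      rw [image_id, card_univ, Fintype.card_fin]; omega)
    (by
      intro X hX
      have h1 : (inside X.1).card ≤ X.1.card ^ 2 := card_inside X.1
      have h2 : X.1.card < t := hX
      exact h1.trans (Nat.pow_le_pow_left h2.le 2))
    (by
      intro c hc
      have h1 := card_classes c
      have h2 : k * w - (univ.image c.1).card < t := hc
      exact h1.trans (Nat.mul_le_mul_left _ (Nat.pow_le_pow_left h2.le 2)))
    hL hf
  rcases hor with hE | ⟨I, hI, hor⟩
  · -- negative case
    set q := k - 1 with hq
    have hq0 : 0 < q := by omega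
    have hcov : (univ : Finset (Fin (k * w) → Fin q)) ⊆ E.biUnion (fun c =>
        univ.filter fun χ : Fin (k * w) → Fin q =>
          AllOn (classes c.1) (fun e => !(mult χ e))) := by
      intro χ _
      by_contra hno
      have h1 : ∀ c ∈ E, SomeOn ((NSys (k * w)).E c) (mult χ) := by
        intro c hc
        by_contra hns
        apply hno
        refine mem_biUnion.2 ⟨c, hc, ?_⟩
        rw [mem_filter]
        refine ⟨mem_univ _, ?_⟩
        intro e he
        by_contra hx
        exact hns ⟨e, he, by simpa using hx⟩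
      have h2 := (hff _).1 (hE (mult χ) (nsys_compat χ) h1)
      obtain ⟨S, hS, hSc⟩ := h2
      have hinj : Set.InjOn χ S := by
        intro u hu v hv huv
        by_contra hne
        rcases lt_or_gt_of_ne hne with hlt | hgt
        · have := hSc ⟨(u, v), hlt⟩ hu hv
          simp [mult] at this
          exact this huv
        · have := hSc ⟨(v, u), hgt⟩ hv hu
          simp [mult] at this
          exact this huv.symm
      have h3 := Finset.card_le_card_of_injOn χ (fun _ _ => mem_coe.2 (mem_univ _)) hinj
      rw [hS, card_univ, Fintype.card_fin] at h3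
      omega
    have h1 := card_le_card hcov
    rw [card_univ, Fintype.card_fun, Fintype.card_fin, Fintype.card_fin] at h1
    have h2 : q ^ (k * w) * q ^ t ≤ E.card * q ^ (k * w) := by
      calc q ^ (k * w) * q ^ t
          ≤ (∑ c ∈ E, (univ.filter fun χ : Fin (k * w) → Fin q =>
              AllOn (classes c.1) (fun e => !(mult χ e))).card) * q ^ t :=
            Nat.mul_le_mul_right _ (h1.trans card_biUnion_le)
        _ = ∑ c ∈ E, (univ.filter fun χ : Fin (k * w) → Fin q =>
              AllOn (classes c.1) (fun e => !(mult χ e))).card * q ^ t := by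
            rw [Finset.sum_mul]
        _ ≤ ∑ c ∈ E, q ^ (k * w) := by
            apply Finset.sum_le_sum
            intro c hc
            refine le_trans ?_ (card_colourings (q := q) c)
            apply Nat.mul_le_mul_left
            exact Nat.pow_le_pow_right hq0 (hE1 c hc)
        _ = E.card * q ^ (k * w) := by simp
    have h3 : q ^ t ≤ E.card := by
      have h4 : q ^ (k * w) * q ^ t ≤ q ^ (k * w) * E.card := by
        rw [mul_comm (q ^ (k * w)) E.card]; exact h2
      exact Nat.le_of_mul_le_mul_left h4 (Nat.pow_pos hq0)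
    have h4 : 2 ^ t * (t ^ 2) ^ t ≤ L.length * (t ^ 2) ^ t := by
      calc 2 ^ t * (t ^ 2) ^ t = (2 * t ^ 2) ^ t := by rw [mul_pow 2 (t ^ 2)]
        _ ≤ q ^ t := Nat.pow_le_pow_left (by omega) _
        _ ≤ E.card := h3
        _ ≤ _ := hE2
    have h5 := Nat.le_of_mul_le_mul_right h4 (Nat.pow_pos (by omega))
    omega
  · -- positive case
    have hw0 : 0 < w := by omega
    have hcov : (univ : Finset (Fin k → Fin w)) ⊆
        D.biUnion (fun M => univ.filter fun g : Fin k → Fin w => M.1 ⊆ trans g) ∪
        I.biUnion (fun e => univ.filter fun g : Fin k → Fin w =>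
          ({e.1.1, e.1.2} : Finset (Fin (k * w))) ⊆ trans g) := by
      intro g _
      have h1 : f (clq (trans g)) = true := by
        rw [hff]
        exact ⟨trans g, card_trans g, fun e h1 h2 => by simp [clq, h1, h2]⟩
      rcases hor _ (psys_compat _) h1 with ⟨e, he, hx⟩ | ⟨M, hM, hMx⟩
      · refine mem_union_right _ (mem_biUnion.2 ⟨e, he, ?_⟩)
        rw [mem_filter]
        refine ⟨mem_univ _, ?_⟩
        have hx' : e.1.1 ∈ trans g ∧ e.1.2 ∈ trans g := by simpa [clq] using hx
        intro v hv
        simp only [mem_insert, mem_singleton] at hv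
        rcases hv with rfl | rfl
        · exact hx'.1
        · exact hx'.2
      · refine mem_union_left _ (mem_biUnion.2 ⟨M, hM, ?_⟩)
        rw [mem_filter]
        exact ⟨mem_univ _, subset_of_allOn M.2 hMx⟩
    have h1 := card_le_card hcov
    rw [card_univ, Fintype.card_fun, Fintype.card_fin, Fintype.card_fin] at h1
    have hD : (∑ M ∈ D, (univ.filter fun g : Fin k → Fin w => M.1 ⊆ trans g).card) * w ^ t ≤
        D.card * w ^ k := by
      rw [Finset.sum_mul]
      calc _ ≤ ∑ M ∈ D, w ^ k := by
            apply Finset.sum_le_sum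
            intro M hM
            refine le_trans ?_ (card_choice M.1)
            apply Nat.mul_le_mul_left
            exact Nat.pow_le_pow_right hw0 (hD1 M hM)
        _ = _ := by simp
    have hI' : (∑ e ∈ I, (univ.filter fun g : Fin k → Fin w =>
          ({e.1.1, e.1.2} : Finset (Fin (k * w))) ⊆ trans g).card) * w ^ 2 ≤
        I.card * w ^ k := by
      rw [Finset.sum_mul]
      calc _ ≤ ∑ e ∈ I, w ^ k := by
            apply Finset.sum_le_sum
            intro e _
            have := card_choice (k := k) (w := w) ({e.1.1, e.1.2} : Finset (Fin (k * w)))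
            rw [Finset.card_pair (ne_of_lt e.2)] at this
            exact this
        _ = _ := by simp
    set A := ∑ M ∈ D, (univ.filter fun g : Fin k → Fin w => M.1 ⊆ trans g).card with hA
    set B := ∑ e ∈ I, (univ.filter fun g : Fin k → Fin w =>
          ({e.1.1, e.1.2} : Finset (Fin (k * w))) ⊆ trans g).card with hB
    have h2 : w ^ k ≤ A + B :=
      h1.trans ((card_union_le _ _).trans (Nat.add_le_add card_biUnion_le card_biUnion_le))
    have h3 : w ^ k * (2 * (w ^ t * w ^ 2)) ≤ w ^ k * (2 * (D.card * w ^ 2) + w ^ t * w ^ 2) := by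
      have h4 : 2 * I.card ≤ w ^ 2 := by
        have h5 : 2 * I.card ≤ w := by omega
        calc 2 * I.card ≤ w := h5
          _ = w * 1 := by ring
          _ ≤ w * w := Nat.mul_le_mul_left _ hw0
          _ = w ^ 2 := by ring
      calc w ^ k * (2 * (w ^ t * w ^ 2)) ≤ (A + B) * (2 * (w ^ t * w ^ 2)) :=
            Nat.mul_le_mul_right _ h2
        _ = 2 * (A * w ^ t) * w ^ 2 + 2 * (B * w ^ 2) * w ^ t := by ring
        _ ≤ 2 * (D.card * w ^ k) * w ^ 2 + 2 * (I.card * w ^ k) * w ^ t := by
            apply Nat.add_le_add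
            · exact Nat.mul_le_mul_right _ (Nat.mul_le_mul_left _ hD)
            · exact Nat.mul_le_mul_right _ (Nat.mul_le_mul_left _ hI')
        _ = w ^ k * (2 * (D.card * w ^ 2) + (2 * I.card) * w ^ t) := by ring
        _ ≤ w ^ k * (2 * (D.card * w ^ 2) + w ^ 2 * w ^ t) := by
            apply Nat.mul_le_mul_left
            apply Nat.add_le_add_left
            exact Nat.mul_le_mul_right _ h4
        _ = _ := by ring
    have h4 := Nat.le_of_mul_le_mul_left h3 (Nat.pow_pos hw0)
    have h5 : w ^ t * w ^ 2 ≤ (2 * D.card) * w ^ 2 := by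
      have : (2 * D.card) * w ^ 2 = 2 * (D.card * w ^ 2) := by ring
      omega
    have h6 : w ^ t ≤ 2 * D.card := Nat.le_of_mul_le_mul_right h5 (Nat.pow_pos hw0)
    have h7 : 2 ^ t * (4 * t ^ 2) ^ t ≤ (2 * L.length) * (4 * t ^ 2) ^ t := by
      calc 2 ^ t * (4 * t ^ 2) ^ t = (2 * (4 * t ^ 2)) ^ t := by rw [mul_pow 2 (4 * t ^ 2)]
        _ ≤ w ^ t := Nat.pow_le_pow_left (by omega) _
        _ ≤ 2 * D.card := h6
        _ ≤ 2 * (L.length * (4 * t ^ 2) ^ t) := Nat.mul_le_mul_left _ hD2
        _ = _ := by ring
    exact Nat.le_of_mul_le_mul_right h7 (Nat.pow_pos (by omega))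

end Pool.Agent.helper38.Neg
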