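import Pool.Agent.helper38.Neg.Design

/-!
The clique function on graphs that are unions of blocks of a triangle-free linear family.
-/

namespace Pool.Agent.helper38.Neg

open Finset

open Classical in
/-- Adjacency matrix of the union of the graphs `c l` placed on the blocks of the family. -/
noncomputable def famMatrix {M m K : ℕ} (Φ : Fam M m K) (c : ℕ → (Edge m → Bool)) :
    Fin (M * M) → Bool := fun i =>
  if h : ∃ l : ℕ, ∃ e : Edge m, l < K ∧ Φ.φ l e.1.1 = (finProdFinEquiv.symm i).1 ∧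
      Φ.φ l e.1.2 = (finProdFinEquiv.symm i).2 then
    c h.choose h.choose_spec.choose
  else false

lemma famMatrix_apply {M m K : ℕ} (Φ : Fam M m K) (c : ℕ → (Edge m → Bool)) {l : ℕ}
    (hl : l < K) (e : Edge m) :
    famMatrix Φ c (finProdFinEquiv (Φ.φ l e.1.1, Φ.φ l e.1.2)) = c l e := by
  classical
  have h : ∃ l' : ℕ, ∃ e' : Edge m, l' < K ∧
      Φ.φ l' e'.1.1 = (finProdFinEquiv.symm (finProdFinEquiv (Φ.φ l e.1.1, Φ.φ l e.1.2))).1 ∧
      Φ.φ l' e'.1.2 = (finProdFinEquiv.symm (finProdFinEquiv (Φ.φ l e.1.1, Φ.φ l e.1.2))).2 := by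
    refine ⟨l, e, hl, ?_, ?_⟩ <;> rw [Equiv.symm_apply_apply]
  unfold famMatrix
  rw [dif_pos h]
  obtain ⟨h1, h2, h3⟩ := h.choose_spec.choose_spec
  have key : ∀ (l' : ℕ) (e' : Edge m), l' < K → Φ.φ l' e'.1.1 = Φ.φ l e.1.1 →
      Φ.φ l' e'.1.2 = Φ.φ l e.1.2 → c l' e' = c l e := by
    intro l' e' h1 h2 h3
    have hll : l' = l := by
      by_contra hne
      have := Φ.lin l' h1 l hl hne _ _ _ _ h2 h3
      exact absurd this (ne_of_lt e'.2)
    subst hll
    have hinj := (Φ.mono l' hl).injective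
    have he : e' = e := Subtype.ext (Prod.ext (hinj h2) (hinj h3))
    rw [he]
  exact key _ _ h1 (h2.trans (by rw [Equiv.symm_apply_apply]))
    (h3.trans (by rw [Equiv.symm_apply_apply]))

lemma famMatrix_true {M m K : ℕ} (Φ : Fam M m K) (c : ℕ → (Edge m → Bool)) {u v : Fin M}
    (h : famMatrix Φ c (finProdFinEquiv (u, v)) = true) :
    ∃ l < K, ∃ e : Edge m, Φ.φ l e.1.1 = u ∧ Φ.φ l e.1.2 = v ∧ c l e = true := by
  classical
  by_cases hex : ∃ l' : ℕ, ∃ e' : Edge m, l' < K ∧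
      Φ.φ l' e'.1.1 = (finProdFinEquiv.symm (finProdFinEquiv (u, v))).1 ∧
      Φ.φ l' e'.1.2 = (finProdFinEquiv.symm (finProdFinEquiv (u, v))).2
  · obtain ⟨l, e, hl, h1, h2⟩ := hex
    rw [Equiv.symm_apply_apply] at h1 h2
    simp only at h1 h2
    refine ⟨l, hl, e, h1, h2, ?_⟩
    rw [← h1, ← h2, famMatrix_apply Φ c hl e] at h
    exact h
  · unfold famMatrix at h
    rw [dif_neg hex] at h
    exact absurd h (by simp)

lemma clique_fam {M m K k : ℕ} (Φ : Fam M m K) (hk : 2 ≤ k) (c : ℕ → (Edge m → Bool)) :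
    Clique M k (famMatrix Φ c) ↔ ∃ l < K, ClqFn m k (c l) := by
  classical
  constructor
  · rintro ⟨S, hS, hc⟩
    -- a pair lies in a common block
    have hpair : ∀ u ∈ S, ∀ v ∈ S, u ≠ v → ∃ l < K, ∃ x y, Φ.φ l x = u ∧ Φ.φ l y = v := by
      intro u hu v hv huv
      rcases lt_or_gt_of_ne huv with hlt | hgt
      · obtain ⟨l, hl, e, h1, h2, _⟩ := famMatrix_true Φ c (hc u hu v hv hlt)
        exact ⟨l, hl, _, _, h1, h2⟩
      · obtain ⟨l, hl, e, h1, h2, _⟩ := famMatrix_true Φ c (hc v hv u hu hgt)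
        exact ⟨l, hl, _, _, h2, h1⟩
    have hone : 1 < S.card := by omega
    obtain ⟨u0, hu0, v0, hv0, huv0⟩ := Finset.one_lt_card.1 hone
    obtain ⟨l, hl, x0, y0, hx0, hy0⟩ := hpair u0 hu0 v0 hv0 huv0
    have hall : ∀ w ∈ S, ∃ z, Φ.φ l z = w := by
      intro w hw
      by_cases hwu : w = u0
      · exact ⟨x0, by rw [hwu]; exact hx0⟩
      by_cases hwv : w = v0
      · exact ⟨y0, by rw [hwv]; exact hy0⟩
      obtain ⟨l1, hl1, x1, z1, hx1, hz1⟩ := hpair u0 hu0 w hw (Ne.symm hwu)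
      by_cases hll1 : l1 = l
      · subst hll1; exact ⟨z1, hz1⟩
      obtain ⟨l2, hl2, y2, z2, hy2, hz2⟩ := hpair v0 hv0 w hw (Ne.symm hwv)
      by_cases hll2 : l2 = l
      · subst hll2; exact ⟨z2, hz2⟩
      by_cases hl12 : l1 = l2
      · subst hl12
        have := Φ.lin l hl l1 hl1 (Ne.symm hll1) x0 y0 x1 y2 (by rw [hx0, hx1])
          (by rw [hy0, hy2])
        rw [this] at hx0
        rw [hx0] at hy0
        exact absurd hy0 huv0
      · exfalso
        refine Φ.tri l hl l1 hl1 l2 hl2 (Ne.symm hll1) hl12 (Ne.symm hll2)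
          x0 x1 z1 z2 y2 y0 (by rw [hx0, hx1]) (by rw [hz1, hz2]) (by rw [hy2, hy0]) ?_ ?_ ?_
        · intro h; rw [h, hy0] at hx0; exact huv0 hx0.symm
        · intro h; rw [h, hz1] at hx1; exact hwu hx1
        · intro h; rw [h, hy2] at hz2; exact hwv hz2.symm
    have : Nonempty (Fin m) := ⟨x0⟩
    choose! ψ hψ using hall
    have hinjψ : Set.InjOn ψ S := by
      intro u hu v hv huv
      rw [← hψ u hu, ← hψ v hv, huv]
    refine ⟨l, hl, S.image ψ, ?_, ?_⟩
    · rw [card_image_of_injOn hinjψ, hS]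
    · intro e he1 he2
      obtain ⟨u, hu, hu'⟩ := mem_image.1 he1
      obtain ⟨v, hv, hv'⟩ := mem_image.1 he2
      have h1 : Φ.φ l e.1.1 = u := by rw [← hu']; exact hψ u hu
      have h2 : Φ.φ l e.1.2 = v := by rw [← hv']; exact hψ v hv
      have huv : u < v := by
        rw [← h1, ← h2]
        exact Φ.mono l hl e.2
      have h3 := hc u hu v hv huv
      rw [← h1, ← h2, famMatrix_apply Φ c hl e] at h3
      exact h3
  · rintro ⟨l, hl, S, hS, hc⟩
    have hmono := Φ.mono l hl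
    refine ⟨S.image (Φ.φ l), ?_, ?_⟩
    · rw [card_image_of_injective _ hmono.injective, hS]
    · intro u hu v hv huv
      obtain ⟨u', hu', rfl⟩ := mem_image.1 hu
      obtain ⟨v', hv', rfl⟩ := mem_image.1 hv
      have huv' : u' < v' := hmono.lt_iff_lt.1 huv
      rw [famMatrix_apply Φ c hl ⟨(u', v'), huv'⟩]
      exact hc ⟨(u', v'), huv'⟩ hu' hv'

/-- Size bound for the clique function, from a family. -/
theorem clique_size_fam {k M K t s : ℕ} (ht : 3 ≤ t) (hk : 2 * t ^ 2 + 1 ≤ k)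
    (Φ : Fam M (k * (8 * t ^ 2)) K) (C : Circuit (M * M) s) (o : Fin (M * M + s))
    (hC : C.Computes o (Clique M k)) (hpat : C.PatternsLE K) :
    2 ^ (t - 1) ≤ s + 1 := by
  classical
  have hk2 : 2 ≤ k := by
    have : 3 * 3 ≤ t ^ 2 := by rw [sq]; exact Nat.mul_le_mul ht ht
    omega
  obtain ⟨L, hL, hlen, D, hD, hDy⟩ := walk C o (Clique M k) (ClqFn (k * (8 * t ^ 2)) k)
    (famMatrix Φ) (by
      intro i
      unfold famMatrix
      by_cases h : ∃ l : ℕ, ∃ e : Edge (k * (8 * t ^ 2)), l < K ∧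
          Φ.φ l e.1.1 = (finProdFinEquiv.symm i).1 ∧
          Φ.φ l e.1.2 = (finProdFinEquiv.symm i).2
      · right
        exact ⟨_, _, fun c => by rw [dif_pos h]⟩
      · left
        intro c
        rw [dif_neg h]) (clique_fam Φ hk2) (by
      rintro ⟨S, hS, hc⟩
      have hone : 1 < S.card := by omega
      obtain ⟨u, hu, v, hv, huv⟩ := Finset.one_lt_card.1 hone
      rcases lt_or_gt_of_ne huv with hlt | hgt
      · exact absurd (hc ⟨(u, v), hlt⟩ hu hv) (by simp)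
      · exact absurd (hc ⟨(v, u), hgt⟩ hv hu) (by simp)) hC hpat
  have h1 := clq_lower ht hk le_rfl hL hD hDy
  have h2 : 2 ^ t = 2 * 2 ^ (t - 1) := by
    rw [← pow_succ']; congr 1; omega
  omega

end Pool.Agent.helper38.Neg
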