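import Pool.Agent.helper38.Neg.ClqFam

/-!
Asymptotic form: the clique function needs superpolynomial size even with `(1 - ε) log n`
NOT gates, where `n = M ^ 2` is the number of input bits.
-/

namespace Pool.Agent.helper38.Neg

open Finset

lemma fam_params {D g k t : ℕ} {M K : ℕ} (hD : 2 ≤ D) (hg2 : 2 ≤ g) (hk : 2 * t ^ 2 + 1 ≤ k)
    (ht : 1 ≤ t) (hkg : 2 * k ≤ g) (hM : g ^ (D ^ 2 + 2 * D + 5) ≤ M)
    (hK : D * K ≤ g ^ (2 * D ^ 2 - 2 * D)) : Nonempty (Fam M (k * (8 * t ^ 2)) K) := by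
  have ht2 : 1 ≤ t ^ 2 := Nat.one_le_pow _ _ ht
  have hm1 : 1 ≤ k * (8 * t ^ 2) := Nat.mul_pos (by omega) (by omega)
  have hmg : k * (8 * t ^ 2) ≤ g ^ 2 := by
    calc k * (8 * t ^ 2) ≤ k * (4 * k) := Nat.mul_le_mul_left _ (by omega)
      _ = (2 * k) ^ 2 := by ring
      _ ≤ g ^ 2 := Nat.pow_le_pow_left hkg 2
  set m := k * (8 * t ^ 2) with hm
  have hg0 : 0 < g := by omega
  apply exists_fam (L := g ^ D) (D := D) hm1 (Nat.one_le_pow _ _ hg0) hD
  · calc 2 * m ^ 2 * (m * g ^ D) ^ D ≤ g * (g ^ 2) ^ 2 * (g ^ 2 * g ^ D) ^ D := by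
          apply Nat.mul_le_mul
          · exact Nat.mul_le_mul hg2 (Nat.pow_le_pow_left hmg 2)
          · exact Nat.pow_le_pow_left (Nat.mul_le_mul_right _ hmg) D
      _ = g ^ (D ^ 2 + 2 * D + 5) := by
          rw [← pow_mul, ← pow_add, ← pow_mul, ← pow_succ', ← pow_add]
          congr 1
          ring
      _ ≤ M := hM
  · refine hK.trans ?_
    have h1 : g ^ (2 * D ^ 2 - 2 * D) = (g ^ D) ^ (D - 2) * (g ^ D) ^ D := by
      rw [← pow_mul, ← pow_mul, ← pow_add]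
      congr 1
      obtain ⟨e, rfl⟩ : ∃ e, D = e + 2 := ⟨D - 2, by omega⟩
      have h2 : 2 * (e + 2) ^ 2 = 2 * (e + 2) + ((e + 2) * e + (e + 2) * (e + 2)) := by ring
      rw [h2]
      simp
    rw [h1]
    apply Nat.mul_le_mul_left
    apply Nat.pow_le_pow_left
    exact Nat.le_mul_of_pos_left _ hm1

/-- The clique function with few NOT gates. -/
theorem clique_final (ε : ℝ) (hε : 0 < ε) : ∃ δ : ℝ, 0 < δ ∧ ∃ M0 : ℕ, ∀ M : ℕ, M0 ≤ M →
    ∀ k : ℕ, (k : ℝ) ≤ (M : ℝ) ^ δ → ∀ (s K : ℕ) (C : Circuit (M * M) s)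
      (o : Fin (M * M + s)), C.Computes o (Clique M k) →
      (2 ^ C.notCount ≤ K ∨ C.PatternsLE K) → (K : ℝ) ≤ ((M : ℝ) ^ 2) ^ (1 - ε) →
      (2 : ℝ) ^ (Real.sqrt ((k : ℝ) / 2) - 3) ≤ s + 1 := by
  set D : ℕ := max 2 ⌈4 / ε⌉₊ with hDdef
  have hD2 : 2 ≤ D := le_max_left _ _
  have hDε : 4 / ε ≤ D := (Nat.le_ceil _).trans (by exact_mod_cast le_max_right _ _)
  have hDpos : (0 : ℝ) < D := by positivity
  have hεD : 4 ≤ ε * D := by
    rw [div_le_iff₀ hε] at hDε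
    linarith
  set E : ℕ := D ^ 2 + 2 * D + 5 with hE
  have hE0 : (0 : ℝ) < E := by positivity
  refine ⟨1 / (2 * E), by positivity, (D * 2 ^ (2 * D ^ 2) + 10) ^ E, ?_⟩
  intro M hM k hk s K C o hC h hKM
  have hpat : C.PatternsLE K := by
    rcases h with h | h
    · exact patterns_of_notCount C h
    · exact h
  have hs : (0 : ℝ) ≤ s := by positivity
  set t := Nat.sqrt ((k - 1) / 2) with ht
  have hsq : Real.sqrt ((k : ℝ) / 2) ≤ t + 1 := by
    have h1 : (k - 1) / 2 < (t + 1) * (t + 1) := Nat.lt_succ_sqrt _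
    have h2 : k ≤ 2 * ((t + 1) * (t + 1)) := by omega
    have h3 : (k : ℝ) ≤ 2 * ((t + 1) * (t + 1)) := by exact_mod_cast h2
    rw [Real.sqrt_le_left (by positivity)]
    nlinarith
  by_cases ht3 : t < 3
  · have h1 : Real.sqrt ((k : ℝ) / 2) - 3 ≤ 0 := by
      have : (t : ℝ) ≤ 2 := by exact_mod_cast (by omega : t ≤ 2)
      linarith
    calc (2 : ℝ) ^ (Real.sqrt ((k : ℝ) / 2) - 3) ≤ (2 : ℝ) ^ (0 : ℝ) :=
          Real.rpow_le_rpow_of_exponent_le (by norm_num) h1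
      _ = 1 := by norm_num
      _ ≤ s + 1 := by linarith
  · have ht3' : 3 ≤ t := by omega
    have hkt : 2 * t ^ 2 + 1 ≤ k := by
      have h1 : t * t ≤ (k - 1) / 2 := Nat.sqrt_le _
      have h2 : 3 * 3 ≤ t * t := Nat.mul_le_mul ht3' ht3'
      rw [sq]
      omega
    -- the root
    set r : ℝ := (M : ℝ) ^ (1 / (E : ℝ)) with hr
    have hMpos : 0 < M := lt_of_lt_of_le (by positivity) hM
    have hMR : (0 : ℝ) < M := by exact_mod_cast hMpos
    have hr0 : 0 ≤ r := by positivity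
    have hrE : r ^ E = M := by
      rw [hr, ← Real.rpow_natCast, ← Real.rpow_mul hMR.le]
      rw [one_div, inv_mul_cancel₀ hE0.ne', Real.rpow_one]
    have hrbig : ((D * 2 ^ (2 * D ^ 2) + 10 : ℕ) : ℝ) ≤ r := by
      by_contra hcon
      push Not at hcon
      have h1 : r ^ E < ((D * 2 ^ (2 * D ^ 2) + 10 : ℕ) : ℝ) ^ E :=
        pow_lt_pow_left₀ hcon hr0 (by omega)
      rw [hrE] at h1
      have h2 : M < (D * 2 ^ (2 * D ^ 2) + 10) ^ E := by exact_mod_cast h1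
      omega
    set g : ℕ := ⌊r⌋₊ with hg
    have hgr : (g : ℝ) ≤ r := Nat.floor_le hr0
    have hrg : r < g + 1 := Nat.lt_floor_add_one r
    have hgbig : D * 2 ^ (2 * D ^ 2) + 10 ≤ g := Nat.le_floor hrbig
    have hgE : g ^ (D ^ 2 + 2 * D + 5) ≤ M := by
      have h1 : (g : ℝ) ^ E ≤ r ^ E := pow_le_pow_left₀ (by positivity) hgr E
      rw [hrE] at h1
      exact_mod_cast h1
    -- k is small
    have hkg : 2 * k ≤ g := by
      have h1 : (M : ℝ) ^ (1 / (2 * (E : ℝ))) = Real.sqrt r := by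
        rw [hr, Real.sqrt_eq_rpow, ← Real.rpow_mul hMR.le]
        congr 1
        field_simp
      rw [h1] at hk
      have h2 : Real.sqrt r * Real.sqrt r = r := Real.mul_self_sqrt hr0
      have h3 : (10 : ℝ) ≤ r := by
        refine le_trans ?_ hrbig
        push_cast
        have : (0 : ℝ) ≤ D * 2 ^ (2 * D ^ 2) := by positivity
        linarith
      have h4 : 3 ≤ Real.sqrt r := by
        rw [Real.le_sqrt (by norm_num) hr0]
        linarith
      have h5 : (2 : ℝ) * k ≤ g := by nlinarith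
      exact_mod_cast h5
    -- K is small
    have hK : D * K ≤ g ^ (2 * D ^ 2 - 2 * D) := by
      obtain ⟨a, ha⟩ : ∃ a, 2 * D ^ 2 - 2 * D = a + 1 := by
        refine ⟨2 * D ^ 2 - 2 * D - 1, ?_⟩
        have : 2 * D < 2 * D ^ 2 := by
          have : D * 2 ≤ D * D := Nat.mul_le_mul_left _ hD2
          rw [sq]; omega
        omega
      have haR : (a : ℝ) = 2 * (D : ℝ) ^ 2 - 2 * D - 1 := by
        have h1 : 2 * D ^ 2 = a + 1 + 2 * D := by omega
        have h2 : (2 : ℝ) * (D : ℝ) ^ 2 = a + 1 + 2 * D := by exact_mod_cast h1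
        linarith
      have h1 : ((M : ℝ) ^ 2) ^ (1 - ε) = r ^ ((2 * E : ℝ) * (1 - ε)) := by
        rw [← hrE, ← pow_mul, ← Real.rpow_natCast r (E * 2), ← Real.rpow_mul hr0]
        congr 1
        push_cast
        ring
      have hr1 : 1 ≤ r := by
        refine le_trans ?_ hrbig
        push_cast
        have : (0 : ℝ) ≤ D * 2 ^ (2 * D ^ 2) := by positivity
        linarith
      have h2 : (2 * E : ℝ) * (1 - ε) ≤ (a : ℝ) := by
        rw [haR, hE]
        push_cast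
        nlinarith [mul_nonneg hε.le (sq_nonneg (D : ℝ)), mul_nonneg hε.le hDpos.le]
      have h3 : (K : ℝ) ≤ r ^ a := by
        calc (K : ℝ) ≤ ((M : ℝ) ^ 2) ^ (1 - ε) := hKM
          _ = r ^ ((2 * E : ℝ) * (1 - ε)) := h1
          _ ≤ r ^ (a : ℝ) := Real.rpow_le_rpow_of_exponent_le hr1 h2
          _ = r ^ a := Real.rpow_natCast _ _
      have h4 : r ≤ 2 * g := by
        have : (1 : ℝ) ≤ g := by exact_mod_cast (by omega : 1 ≤ g)
        linarith
      have h5 : (K : ℝ) ≤ 2 ^ a * g ^ a := by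
        calc (K : ℝ) ≤ r ^ a := h3
          _ ≤ (2 * g) ^ a := pow_le_pow_left₀ hr0 h4 a
          _ = 2 ^ a * g ^ a := by rw [mul_pow]
      have h6 : K ≤ 2 ^ a * g ^ a := by exact_mod_cast h5
      have h7 : 2 ^ a ≤ 2 ^ (2 * D ^ 2) := Nat.pow_le_pow_right (by norm_num) (by omega)
      rw [ha]
      calc D * K ≤ D * (2 ^ a * g ^ a) := Nat.mul_le_mul_left _ h6
        _ ≤ D * (2 ^ (2 * D ^ 2) * g ^ a) :=
            Nat.mul_le_mul_left _ (Nat.mul_le_mul_right _ h7)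
        _ = (D * 2 ^ (2 * D ^ 2)) * g ^ a := by ring
        _ ≤ g * g ^ a := Nat.mul_le_mul_right _ (by omega)
        _ = g ^ (a + 1) := by ring
    obtain ⟨Φ⟩ := fam_params (M := M) (K := K) hD2 (by omega) hkt (by omega) hkg hgE hK
    have h1 := clique_size_fam ht3' hkt Φ C o hC hpat
    have h2 : (2 : ℝ) ^ (t - 1) ≤ s + 1 := by exact_mod_cast h1
    have h3 : Real.sqrt ((k : ℝ) / 2) - 3 ≤ ((t - 1 : ℕ) : ℝ) := by
      rw [Nat.cast_sub (by omega)]
      push_cast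
      linarith
    calc (2 : ℝ) ^ (Real.sqrt ((k : ℝ) / 2) - 3) ≤ (2 : ℝ) ^ (((t - 1 : ℕ) : ℝ)) :=
          Real.rpow_le_rpow_of_exponent_le (by norm_num) h3
      _ = (2 : ℝ) ^ (t - 1) := Real.rpow_natCast _ _
      _ ≤ s + 1 := h2

end Pool.Agent.helper38.Neg
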