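import Pool.Agent.helper38.Neg.ClqBound

/-!
The clique function needs large circuits if only few NOT gates are allowed.
-/

namespace Pool.Agent.helper38.Neg

open Finset

/-- The clique function: `x` is the adjacency matrix of a graph on the vertices `0, ..., M - 1`
(only the entries `(u, v)` with `u < v` are used), and the graph has a clique with `k` vertices. -/
def Clique (M k : ℕ) (x : Fin (M * M) → Bool) : Prop :=
  ∃ S : Finset (Fin M), S.card = k ∧
    ∀ u ∈ S, ∀ v ∈ S, u < v → x (finProdFinEquiv (u, v)) = true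

lemma mod_lt_mod {m u v : ℕ} (h : u / m = v / m) (huv : u < v) : u % m < v % m := by
  have h1 := Nat.div_add_mod u m
  have h2 := Nat.div_add_mod v m
  rw [h] at h1
  omega

/-- Block diagonal adjacency matrices. -/
def blockDiag (M m K : ℕ) (hm : 0 < m) (c : ℕ → (Edge m → Bool)) : Fin (M * M) → Bool :=
  fun i =>
    if h : ((finProdFinEquiv.symm i).1 : ℕ) / m = ((finProdFinEquiv.symm i).2 : ℕ) / m ∧
        ((finProdFinEquiv.symm i).1 : ℕ) / m < K ∧
        ((finProdFinEquiv.symm i).1 : ℕ) < ((finProdFinEquiv.symm i).2 : ℕ) then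
      c (((finProdFinEquiv.symm i).1 : ℕ) / m)
        ⟨(⟨((finProdFinEquiv.symm i).1 : ℕ) % m, Nat.mod_lt _ hm⟩,
          ⟨((finProdFinEquiv.symm i).2 : ℕ) % m, Nat.mod_lt _ hm⟩), mod_lt_mod h.1 h.2.2⟩
    else false

lemma blockDiag_apply {M m K : ℕ} (hm : 0 < m) (c : ℕ → (Edge m → Bool)) (u v : Fin M) :
    blockDiag M m K hm c (finProdFinEquiv (u, v)) = true ↔
      ∃ h : (u : ℕ) / m = (v : ℕ) / m ∧ (u : ℕ) / m < K ∧ (u : ℕ) < (v : ℕ),
        c ((u : ℕ) / m) ⟨(⟨(u : ℕ) % m, Nat.mod_lt _ hm⟩, ⟨(v : ℕ) % m, Nat.mod_lt _ hm⟩),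
          mod_lt_mod h.1 h.2.2⟩ = true := by
  unfold blockDiag
  simp only [Equiv.symm_apply_apply]
  split_ifs with h
  · constructor
    · intro hc; exact ⟨h, hc⟩
    · rintro ⟨_, hc⟩; exact hc
  · constructor
    · intro hc; exact absurd hc (by simp)
    · rintro ⟨h', _⟩; exact absurd h' h

lemma clique_blockDiag {M m K k : ℕ} (hm : 0 < m) (hK : K * m ≤ M) (hk : 2 ≤ k)
    (c : ℕ → (Edge m → Bool)) :
    Clique M k (blockDiag M m K hm c) ↔ ∃ l < K, ClqFn m k (c l) := by
  classical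
  constructor
  · rintro ⟨S, hS, hc⟩
    have hone : 1 < S.card := by omega
    have hex : ∀ u ∈ S, ∀ v ∈ S, u ≠ v → (u : ℕ) / m = (v : ℕ) / m ∧ (u : ℕ) / m < K := by
      intro u hu v hv huv
      rcases lt_or_gt_of_ne huv with hlt | hgt
      · obtain ⟨h, _⟩ := (blockDiag_apply hm c u v).1 (hc u hu v hv hlt)
        exact ⟨h.1, h.2.1⟩
      · obtain ⟨h, _⟩ := (blockDiag_apply hm c v u).1 (hc v hv u hu hgt)
        exact ⟨h.1.symm, by rw [← h.1]; exact h.2.1⟩
    obtain ⟨u0, hu0, v0, hv0, huv0⟩ := Finset.one_lt_card.1 hone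
    set l := (u0 : ℕ) / m with hl
    have hlK : l < K := (hex u0 hu0 v0 hv0 huv0).2
    have hall : ∀ v ∈ S, (v : ℕ) / m = l := by
      intro v hv
      by_cases h : v = u0
      · rw [h]
      · exact (hex v hv u0 hu0 h).1
    have hinj : Set.InjOn (fun v : Fin M => (⟨(v : ℕ) % m, Nat.mod_lt _ hm⟩ : Fin m)) S := by
      intro u hu v hv huv
      have h1 : (u : ℕ) % m = (v : ℕ) % m := congrArg Fin.val huv
      have h2 := Nat.div_add_mod (u : ℕ) m
      have h3 := Nat.div_add_mod (v : ℕ) m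
      rw [hall u hu] at h2
      rw [hall v hv] at h3
      apply Fin.ext
      omega
    refine ⟨l, hlK, S.image (fun v : Fin M => (⟨(v : ℕ) % m, Nat.mod_lt _ hm⟩ : Fin m)), ?_, ?_⟩
    · rw [card_image_of_injOn hinj, hS]
    · intro e he1 he2
      obtain ⟨u, hu, hu'⟩ := mem_image.1 he1
      obtain ⟨v, hv, hv'⟩ := mem_image.1 he2
      have hlt : (u : ℕ) % m < (v : ℕ) % m := by
        have h1 := e.2
        rw [← hu', ← hv'] at h1
        exact h1
      have huv : u < v := by
        have h2 := Nat.div_add_mod (u : ℕ) m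
        have h3 := Nat.div_add_mod (v : ℕ) m
        rw [hall u hu] at h2
        rw [hall v hv] at h3
        rw [Fin.lt_def]
        omega
      obtain ⟨h, hce⟩ := (blockDiag_apply hm c u v).1 (hc u hu v hv huv)
      have he : e = ⟨(⟨(u : ℕ) % m, Nat.mod_lt _ hm⟩, ⟨(v : ℕ) % m, Nat.mod_lt _ hm⟩),
          mod_lt_mod h.1 h.2.2⟩ := Subtype.ext (Prod.ext hu'.symm hv'.symm)
      rw [he, ← hall u hu]
      exact hce
  · rintro ⟨l, hl, S, hS, hc⟩
    have hlt : ∀ v : Fin m, l * m + (v : ℕ) < M := by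
      intro v
      have h1 : (l + 1) * m ≤ K * m := Nat.mul_le_mul_right _ hl
      have h2 : (l + 1) * m = l * m + m := by ring
      have h3 := v.2
      omega
    have hdiv : ∀ v : Fin m, (l * m + (v : ℕ)) / m = l := by
      intro v
      rw [mul_comm, Nat.mul_add_div hm, Nat.div_eq_of_lt v.2, add_zero]
    have hmod : ∀ v : Fin m, (l * m + (v : ℕ)) % m = v := by
      intro v
      rw [mul_comm, Nat.mul_add_mod, Nat.mod_eq_of_lt v.2]
    refine ⟨S.image fun v : Fin m => (⟨l * m + (v : ℕ), hlt v⟩ : Fin M), ?_, ?_⟩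
    · rw [card_image_of_injective, hS]
      intro u v huv
      have h1 : l * m + (u : ℕ) = l * m + (v : ℕ) := congrArg Fin.val huv
      exact Fin.ext (by omega)
    · intro u hu v hv huv
      obtain ⟨u', hu', rfl⟩ := mem_image.1 hu
      obtain ⟨v', hv', rfl⟩ := mem_image.1 hv
      have huv' : u' < v' := by
        rw [Fin.lt_def] at huv ⊢
        simp only at huv
        omega
      rw [blockDiag_apply]
      refine ⟨⟨by simp only [hdiv], by simp only [hdiv]; exact hl, huv⟩, ?_⟩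
      have h1 := hc ⟨(u', v'), huv'⟩ hu' hv'
      simp only [hdiv, hmod]
      exact h1

/-- Size bound for the clique function. -/
theorem clique_size {k M K t s : ℕ} (ht : 3 ≤ t) (hk : 2 * t ^ 2 + 1 ≤ k)
    (hM : 8 * K * k * t ^ 2 ≤ M) (C : Circuit (M * M) s) (o : Fin (M * M + s))
    (hC : C.Computes o (Clique M k)) (h : 2 ^ C.notCount ≤ K ∨ C.PatternsLE K) :
    2 ^ (t - 1) ≤ s + 1 := by
  have hpat : C.PatternsLE K := by
    rcases h with h | h
    · exact patterns_of_notCount C h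
    · exact h
  have ht2 : 1 ≤ t ^ 2 := Nat.one_le_pow _ _ (by omega)
  have hm : 0 < k * (8 * t ^ 2) := Nat.mul_pos (by omega) (by omega)
  have hKm : K * (k * (8 * t ^ 2)) ≤ M := by
    calc K * (k * (8 * t ^ 2)) = 8 * K * k * t ^ 2 := by ring
      _ ≤ M := hM
  obtain ⟨L, hL, hlen, D, hD, hDy⟩ := walk C o (Clique M k) (ClqFn (k * (8 * t ^ 2)) k)
    (blockDiag M (k * (8 * t ^ 2)) K hm) (by
      intro i
      unfold blockDiag
      by_cases h : ((finProdFinEquiv.symm i).1 : ℕ) / (k * (8 * t ^ 2)) =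
          ((finProdFinEquiv.symm i).2 : ℕ) / (k * (8 * t ^ 2)) ∧
        ((finProdFinEquiv.symm i).1 : ℕ) / (k * (8 * t ^ 2)) < K ∧
        ((finProdFinEquiv.symm i).1 : ℕ) < ((finProdFinEquiv.symm i).2 : ℕ)
      · right
        exact ⟨_, _, fun c => by rw [dif_pos h]⟩
      · left
        intro c
        rw [dif_neg h]) (clique_blockDiag hm hKm (by omega)) (by
      rintro ⟨S, hS, hc⟩
      have hone : 1 < S.card := by omega
      obtain ⟨u, hu, v, hv, huv⟩ := Finset.one_lt_card.1 hone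
      rcases lt_or_gt_of_ne huv with hlt | hgt
      · exact absurd (hc ⟨(u, v), hlt⟩ hu hv) (by simp)
      · exact absurd (hc ⟨(v, u), hgt⟩ hv hu) (by simp)) hC hpat
  have h1 := clq_lower ht hk le_rfl hL hD hDy
  have h2 : 2 ^ t = 2 * 2 ^ (t - 1) := by
    rw [← pow_succ']; congr 1; omega
  omega

end Pool.Agent.helper38.Neg
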