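import Pool.Agent.helper38.Neg.Walk

/-!
Approximation of monotone straight line computations by short CNFs and DNFs.
-/

namespace Pool.Agent.helper38.Neg

variable {ι : Type*} [DecidableEq ι]

/-- `x` is true on all of `M`. -/
def AllOn (M : Finset ι) (x : ι → Bool) : Prop := ∀ i ∈ M, x i = true

/-- `x` is true somewhere on `c`. -/
def SomeOn (c : Finset ι) (x : ι → Bool) : Prop := ∃ i ∈ c, x i = true

/-- CNF to DNF: transversal tree. -/
lemma cnf_to_dnf (a : ℕ) (Cl : Finset (Finset ι)) (hCl : ∀ c ∈ Cl, c.card ≤ a) (r : ℕ) :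
    ∀ M0 : Finset ι, ∃ Dn R : Finset (Finset ι),
      (∀ M ∈ Dn, (∀ c ∈ Cl, ∃ i ∈ c, i ∈ M) ∧ M.card < M0.card + r) ∧
      (∀ M ∈ R, M.card = M0.card + r) ∧ R.card ≤ a ^ r ∧
      ∀ x : ι → Bool, AllOn M0 x → (∀ c ∈ Cl, SomeOn c x) →
        (∃ M ∈ Dn, AllOn M x) ∨ (∃ M ∈ R, AllOn M x) := by
  induction r with
  | zero =>
    intro M0
    refine ⟨∅, {M0}, by simp, by simp, by simp, ?_⟩
    intro x hx _
    exact Or.inr ⟨M0, by simp, hx⟩
  | succ r ih =>
    intro M0
    by_cases hall : ∀ c ∈ Cl, ∃ i ∈ c, i ∈ M0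
    · refine ⟨{M0}, ∅, ?_, by simp, by simp, ?_⟩
      · intro M hM
        rw [Finset.mem_singleton] at hM
        subst hM
        exact ⟨hall, by omega⟩
      · intro x hx _
        exact Or.inl ⟨M0, by simp, hx⟩
    · push Not at hall
      obtain ⟨c, hc, hcM⟩ := hall
      choose Dn R h1 h2 h3 h4 using fun i : ι => ih (insert i M0)
      refine ⟨c.biUnion Dn, c.biUnion R, ?_, ?_, ?_, ?_⟩
      · intro M hM
        obtain ⟨i, hi, hM'⟩ := Finset.mem_biUnion.1 hM
        have := h1 i M hM'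
        rw [Finset.card_insert_of_notMem (hcM i hi)] at this
        exact ⟨this.1, by omega⟩
      · intro M hM
        obtain ⟨i, hi, hM'⟩ := Finset.mem_biUnion.1 hM
        have := h2 i M hM'
        rw [Finset.card_insert_of_notMem (hcM i hi)] at this
        omega
      · calc (c.biUnion R).card ≤ ∑ i ∈ c, (R i).card := Finset.card_biUnion_le
          _ ≤ ∑ i ∈ c, a ^ r := Finset.sum_le_sum (fun i _ => h3 i)
          _ = c.card * a ^ r := by simp
          _ ≤ a * a ^ r := Nat.mul_le_mul_right _ (hCl c hc)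
          _ = a ^ (r + 1) := by ring
      · intro x hx hsat
        obtain ⟨i, hi, hxi⟩ := hsat c hc
        have hx' : AllOn (insert i M0) x := by
          intro j hj
          rcases Finset.mem_insert.1 hj with rfl | hj
          · exact hxi
          · exact hx j hj
        rcases h4 i x hx' hsat with ⟨M, hM, hMx⟩ | ⟨M, hM, hMx⟩
        · exact Or.inl ⟨M, Finset.mem_biUnion.2 ⟨i, hi, hM⟩, hMx⟩
        · exact Or.inr ⟨M, Finset.mem_biUnion.2 ⟨i, hi, hM⟩, hMx⟩

/-- DNF to CNF: the dual. -/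
lemma dnf_to_cnf (b : ℕ) (Dn : Finset (Finset ι)) (hDn : ∀ M ∈ Dn, M.card ≤ b) (t : ℕ) :
    ∃ Cl R : Finset (Finset ι),
      (∀ c ∈ Cl, (∀ M ∈ Dn, ∃ i ∈ M, i ∈ c) ∧ c.card < t) ∧
      (∀ c ∈ R, c.card = t) ∧ R.card ≤ b ^ t ∧
      ∀ x : ι → Bool, (∀ c ∈ Cl, SomeOn c x) → (∀ c ∈ R, SomeOn c x) →
        ∃ M ∈ Dn, AllOn M x := by
  obtain ⟨Cl, R, h1, h2, h3, h4⟩ := cnf_to_dnf b Dn hDn t ∅
  refine ⟨Cl, R, ?_, ?_, h3, ?_⟩
  · intro c hc
    have := h1 c hc
    simpa using this
  · intro c hc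
    have := h2 c hc
    simpa using this
  · intro x hx1 hx2
    by_contra hcon
    push Not at hcon
    have hz := h4 (fun i => !(x i)) (by intro i hi; simp at hi) (by
      intro M hM
      have := hcon M hM
      unfold AllOn at this
      push Not at this
      obtain ⟨i, hi, hxi⟩ := this
      exact ⟨i, hi, by simpa using hxi⟩)
    rcases hz with ⟨c, hc, hcx⟩ | ⟨c, hc, hcx⟩
    · obtain ⟨i, hi, hxi⟩ := hx1 c hc
      have := hcx i hi
      simp [hxi] at this
    · obtain ⟨i, hi, hxi⟩ := hx2 c hc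
      have := hcx i hi
      simp [hxi] at this

/-- `f` is approximated by a short CNF and a short DNF up to the errors `D`, `E`. -/
def Good (a b : ℕ) (D E : Finset (Finset ι)) (f : (ι → Bool) → Bool) : Prop :=
  ∃ Cl Dn : Finset (Finset ι), (∀ c ∈ Cl, c.card ≤ a) ∧ (∀ M ∈ Dn, M.card ≤ b) ∧
    (∀ x, (∃ M ∈ Dn, AllOn M x) → ∀ c ∈ Cl, SomeOn c x) ∧
    (∀ x, f x = true → (∃ M ∈ Dn, AllOn M x) ∨ ∃ M ∈ D, AllOn M x) ∧
    (∀ x, (∀ c ∈ E, SomeOn c x) → (∀ c ∈ Cl, SomeOn c x) → f x = true)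

lemma Good.mono {a b : ℕ} {D E D' E' : Finset (Finset ι)} (hD : D ⊆ D') (hE : E ⊆ E')
    {f : (ι → Bool) → Bool} (h : Good a b D E f) : Good a b D' E' f := by
  obtain ⟨Cl, Dn, h1, h2, h3, h4, h5⟩ := h
  refine ⟨Cl, Dn, h1, h2, h3, ?_, ?_⟩
  · intro x hx
    rcases h4 x hx with h | ⟨M, hM, hMx⟩
    · exact Or.inl h
    · exact Or.inr ⟨M, hD hM, hMx⟩
  · intro x hx1 hx2
    exact h5 x (fun c hc => hx1 c (hE hc)) hx2

lemma good_free {a b : ℕ} (ha : 1 ≤ a) (hb : 1 ≤ b) {D E : Finset (Finset ι)}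
    {f : (ι → Bool) → Bool} (hf : Avail [] f) : Good a b D E f := by
  rcases hf with hf | ⟨v, rfl⟩ | ⟨i, rfl⟩
  · simp at hf
  · cases v
    · refine ⟨{∅}, ∅, by simp, by simp, ?_, ?_, ?_⟩
      · rintro x ⟨M, hM, _⟩; simp at hM
      · intro x hx; simp at hx
      · intro x _ hx
        have := hx ∅ (by simp)
        obtain ⟨i, hi, _⟩ := this
        simp at hi
    · refine ⟨∅, {∅}, by simp, by simp, ?_, ?_, ?_⟩
      · intro x _ c hc; simp at hc
      · intro x _
        exact Or.inl ⟨∅, by simp, by intro i hi; simp at hi⟩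
      · intro x _ _; rfl
  · refine ⟨{{i}}, {{i}}, by simpa using ha, by simpa using hb, ?_, ?_, ?_⟩
    · rintro x ⟨M, hM, hMx⟩ c hc
      rw [Finset.mem_singleton] at hM hc
      subst hM; subst hc
      exact ⟨i, by simp, hMx i (by simp)⟩
    · intro x hx
      refine Or.inl ⟨{i}, by simp, ?_⟩
      intro j hj
      rw [Finset.mem_singleton] at hj
      subst hj; exact hx
    · intro x _ hx
      obtain ⟨j, hj, hxj⟩ := hx {i} (by simp)
      rw [Finset.mem_singleton] at hj
      subst hj; exact hxj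

/-- The criterion: all functions of a monotone computation are approximated, with few errors. -/
theorem crit {a b : ℕ} (ha : 1 ≤ a) (hb : 1 ≤ b) {L : List ((ι → Bool) → Bool)}
    (hL : MonoChain L) :
    ∃ D E : Finset (Finset ι), (∀ M ∈ D, M.card = b + 1) ∧ D.card ≤ L.length * a ^ (b + 1) ∧
      (∀ c ∈ E, c.card = a + 1) ∧ E.card ≤ L.length * b ^ (a + 1) ∧
      ∀ f, Avail L f → Good a b D E f := by
  induction hL with
  | nil =>
    exact ⟨∅, ∅, by simp, by simp, by simp, by simp, fun f hf => good_free ha hb hf⟩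
  | @and L u v hL hu hv ih =>
    obtain ⟨D, E, h1, h2, h3, h4, h5⟩ := ih
    obtain ⟨Cu, Du, u1, u2, u3, u4, u5⟩ := h5 u hu
    obtain ⟨Cv, Dv, v1, v2, v3, v4, v5⟩ := h5 v hv
    have hCl : ∀ c ∈ Cu ∪ Cv, c.card ≤ a := by
      intro c hc
      rcases Finset.mem_union.1 hc with hc | hc
      · exact u1 c hc
      · exact v1 c hc
    obtain ⟨Dn, R, w1, w2, w3, w4⟩ := cnf_to_dnf a (Cu ∪ Cv) hCl (b + 1) ∅
    have hgood : Good a b (D ∪ R) E (fun y => u y && v y) := by
      refine ⟨Cu ∪ Cv, Dn, hCl, ?_, ?_, ?_, ?_⟩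
      · intro M hM
        have := (w1 M hM).2
        simp at this
        omega
      · rintro x ⟨M, hM, hMx⟩ c hc
        obtain ⟨i, hi, hiM⟩ := (w1 M hM).1 c hc
        exact ⟨i, hi, hMx i hiM⟩
      · intro x hx
        rw [Bool.and_eq_true] at hx
        rcases u4 x hx.1 with hu' | ⟨M, hM, hMx⟩
        · rcases v4 x hx.2 with hv' | ⟨M, hM, hMx⟩
          · have c1 := u3 x hu'
            have c2 := v3 x hv'
            rcases w4 x (by intro i hi; simp at hi) (by
              intro c hc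
              rcases Finset.mem_union.1 hc with hc | hc
              · exact c1 c hc
              · exact c2 c hc) with hh | ⟨M, hM, hMx⟩
            · exact Or.inl hh
            · exact Or.inr ⟨M, Finset.mem_union_right _ hM, hMx⟩
          · exact Or.inr ⟨M, Finset.mem_union_left _ hM, hMx⟩
        · exact Or.inr ⟨M, Finset.mem_union_left _ hM, hMx⟩
      · intro x hx1 hx2
        rw [Bool.and_eq_true]
        exact ⟨u5 x hx1 (fun c hc => hx2 c (Finset.mem_union_left _ hc)),
          v5 x hx1 (fun c hc => hx2 c (Finset.mem_union_right _ hc))⟩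
    refine ⟨D ∪ R, E, ?_, ?_, h3, ?_, ?_⟩
    · intro M hM
      rcases Finset.mem_union.1 hM with hM | hM
      · exact h1 M hM
      · have := w2 M hM
        simpa using this
    · calc (D ∪ R).card ≤ D.card + R.card := Finset.card_union_le _ _
        _ ≤ L.length * a ^ (b + 1) + a ^ (b + 1) := Nat.add_le_add h2 w3
        _ = _ := by rw [List.length_cons]; ring
    · calc E.card ≤ L.length * b ^ (a + 1) := h4
        _ ≤ (L.length + 1) * b ^ (a + 1) := Nat.mul_le_mul_right _ (Nat.le_succ _)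
        _ = _ := by rw [List.length_cons]
    · intro f hf
      rcases hf with hf | hf | hf
      · rcases List.mem_cons.1 hf with rfl | hf
        · exact hgood
        · exact (h5 f (Or.inl hf)).mono Finset.subset_union_left (Finset.Subset.refl _)
      · exact good_free ha hb (Or.inr (Or.inl hf))
      · exact good_free ha hb (Or.inr (Or.inr hf))
  | @or L u v hL hu hv ih =>
    obtain ⟨D, E, h1, h2, h3, h4, h5⟩ := ih
    obtain ⟨Cu, Du, u1, u2, u3, u4, u5⟩ := h5 u hu
    obtain ⟨Cv, Dv, v1, v2, v3, v4, v5⟩ := h5 v hv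
    have hDn : ∀ M ∈ Du ∪ Dv, M.card ≤ b := by
      intro c hc
      rcases Finset.mem_union.1 hc with hc | hc
      · exact u2 c hc
      · exact v2 c hc
    obtain ⟨Cl, R, w1, w2, w3, w4⟩ := dnf_to_cnf b (Du ∪ Dv) hDn (a + 1)
    have hgood : Good a b D (E ∪ R) (fun y => u y || v y) := by
      refine ⟨Cl, Du ∪ Dv, ?_, hDn, ?_, ?_, ?_⟩
      · intro c hc
        have := (w1 c hc).2
        omega
      · rintro x ⟨M, hM, hMx⟩ c hc
        obtain ⟨i, hi, hiM⟩ := (w1 c hc).1 M hM
        exact ⟨i, hiM, hMx i hi⟩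
      · intro x hx
        rw [Bool.or_eq_true] at hx
        rcases hx with hx | hx
        · rcases u4 x hx with ⟨M, hM, hMx⟩ | hh
          · exact Or.inl ⟨M, Finset.mem_union_left _ hM, hMx⟩
          · exact Or.inr hh
        · rcases v4 x hx with ⟨M, hM, hMx⟩ | hh
          · exact Or.inl ⟨M, Finset.mem_union_right _ hM, hMx⟩
          · exact Or.inr hh
      · intro x hx1 hx2
        by_contra hcon
        have hcon' : u x = false ∧ v x = false := by
          simpa [Bool.or_eq_true, not_or] using hcon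
        obtain ⟨M, hM, hMx⟩ := w4 x hx2 (fun c hc => hx1 c (Finset.mem_union_right _ hc))
        have hE : ∀ c ∈ E, SomeOn c x := fun c hc => hx1 c (Finset.mem_union_left _ hc)
        rcases Finset.mem_union.1 hM with hM | hM
        · have := u5 x hE (u3 x ⟨M, hM, hMx⟩)
          rw [hcon'.1] at this
          exact absurd this (by simp)
        · have := v5 x hE (v3 x ⟨M, hM, hMx⟩)
          rw [hcon'.2] at this
          exact absurd this (by simp)
    refine ⟨D, E ∪ R, h1, ?_, ?_, ?_, ?_⟩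
    · calc D.card ≤ L.length * a ^ (b + 1) := h2
        _ ≤ (L.length + 1) * a ^ (b + 1) := Nat.mul_le_mul_right _ (Nat.le_succ _)
        _ = _ := by rw [List.length_cons]
    · intro c hc
      rcases Finset.mem_union.1 hc with hc | hc
      · exact h3 c hc
      · exact w2 c hc
    · calc (E ∪ R).card ≤ E.card + R.card := Finset.card_union_le _ _
        _ ≤ L.length * b ^ (a + 1) + b ^ (a + 1) := Nat.add_le_add h4 w3
        _ = _ := by rw [List.length_cons]; ring
    · intro f hf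
      rcases hf with hf | hf | hf
      · rcases List.mem_cons.1 hf with rfl | hf
        · exact hgood
        · exact (h5 f (Or.inl hf)).mono (Finset.Subset.refl _) Finset.subset_union_left
      · exact good_free ha hb (Or.inr (Or.inl hf))
      · exact good_free ha hb (Or.inr (Or.inr hf))

/-- Final form of the criterion. -/
theorem crit' {a b : ℕ} (ha : 1 ≤ a) (hb : 1 ≤ b) {L : List ((ι → Bool) → Bool)}
    (hL : MonoChain L) {f : (ι → Bool) → Bool} (hf : f ∈ L) :
    ∃ D E : Finset (Finset ι), (∀ M ∈ D, M.card = b + 1) ∧ D.card ≤ L.length * a ^ (b + 1) ∧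
      (∀ c ∈ E, c.card = a + 1) ∧ E.card ≤ L.length * b ^ (a + 1) ∧
      ((∀ x, (∀ c ∈ E, SomeOn c x) → f x = true) ∨
        ∃ I : Finset ι, I.card ≤ a ∧ ∀ x, f x = true → SomeOn I x ∨ ∃ M ∈ D, AllOn M x) := by
  obtain ⟨D, E, h1, h2, h3, h4, h5⟩ := crit ha hb hL
  refine ⟨D, E, h1, h2, h3, h4, ?_⟩
  obtain ⟨Cl, Dn, g1, g2, g3, g4, g5⟩ := h5 f (Or.inl hf)
  rcases Cl.eq_empty_or_nonempty with he | ⟨c, hc⟩
  · left
    intro x hx
    exact g5 x hx (by intro c hc; rw [he] at hc; simp at hc)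
  · right
    refine ⟨c, g1 c hc, ?_⟩
    intro x hx
    rcases g4 x hx with h | h
    · exact Or.inl (g3 x h c hc)
    · exact Or.inr h

end Pool.Agent.helper38.Neg
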