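import Mathlib

/-!
Boolean circuits with NOT gates, patterns of the NOT gates, and languages with
nondeterministic circuits of polynomial size.
-/

namespace Pool.Agent.helper38.Neg

/-- A gate that reads from `w` available wires. -/
inductive Gate (w : ℕ) : Type
  | const (b : Bool) : Gate w
  | and (i j : Fin w) : Gate w
  | or (i j : Fin w) : Gate w
  | not (i : Fin w) : Gate w

/-- The value of a gate, given the values of the available wires. -/
def Gate.eval {w : ℕ} (v : Fin w → Bool) : Gate w → Bool
  | Gate.const b => b
  | Gate.and i j => v i && v j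
  | Gate.or i j => v i || v j
  | Gate.not i => !(v i)

/-- `Circuit n s`: Boolean circuits with `n` inputs and `s` gates. The wires are the `n` inputs
and then the `s` gates in their order; each gate reads inputs or earlier gates. -/
inductive Circuit (n : ℕ) : ℕ → Type
  | nil : Circuit n 0
  | snoc {s : ℕ} (C : Circuit n s) (g : Gate (n + s)) : Circuit n (s + 1)

/-- The values of all wires of a circuit on the input `x`. -/
def Circuit.val {n : ℕ} : {s : ℕ} → Circuit n s → (Fin n → Bool) → (Fin (n + s) → Bool)
  | _, Circuit.nil, x => x
  | _, Circuit.snoc C g, x => Fin.snoc (α := fun _ => Bool) (C.val x) (g.eval (C.val x))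

/-- The number of NOT gates of a circuit. -/
def Circuit.notCount {n : ℕ} : {s : ℕ} → Circuit n s → ℕ
  | _, Circuit.nil => 0
  | _, Circuit.snoc C (Gate.not _) => C.notCount + 1
  | _, Circuit.snoc C _ => C.notCount

/-- The NOT-vector of a circuit on the input `x`: the list of the values of its NOT gates. -/
def Circuit.notVals {n : ℕ} : {s : ℕ} → Circuit n s → (Fin n → Bool) → List Bool
  | _, Circuit.nil, _ => []
  | _, Circuit.snoc C (Gate.not i), x => C.notVals x ++ [!(C.val x i)]
  | _, Circuit.snoc C _, x => C.notVals x

/-- The circuit `C` takes at most `K` different NOT-vectors along every increasing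
sequence of inputs. -/
def Circuit.PatternsLE {n s : ℕ} (C : Circuit n s) (K : ℕ) : Prop :=
  ∀ x : ℕ → (Fin n → Bool), Monotone x → (Set.range fun i => C.notVals (x i)).encard ≤ K

/-- The circuit `C` with output wire `o` computes the property `f` of the inputs. -/
def Circuit.Computes {n s : ℕ} (C : Circuit n s) (o : Fin (n + s))
    (f : (Fin n → Bool) → Prop) : Prop :=
  ∀ x, C.val x o = true ↔ f x

/-- A language over the alphabet `{0,1}`, given by its slices: `A n x` says that the word `x`
of length `n` lies in the language. -/
abbrev Lang : Type := (n : ℕ) → (Fin n → Bool) → Prop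

/-- Nondeterministic circuits of polynomial size, i.e. `A ∈ NP/Poly`: for some polynomial `p`
and every `n` there is a circuit with `n + w` inputs and `s` gates, `w, s ≤ p(n)`, such that
`x` lies in `A` if and only if the circuit accepts `(x, y)` for some `y : {0,1}^w`. -/
def InNPPoly (A : Lang) : Prop :=
  ∃ p : Polynomial ℕ, ∀ n : ℕ, ∃ w s : ℕ, w ≤ p.eval n ∧ s ≤ p.eval n ∧
    ∃ (C : Circuit (n + w) s) (o : Fin (n + w + s)),
      ∀ x : Fin n → Bool, A n x ↔ ∃ y : Fin w → Bool, C.val (Fin.append x y) o = true

end Pool.Agent.helper38.Neg
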