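import Pool.Agent.helper38.Neg.ClqMain

/-!
Many edge-disjoint vertex blocks without triangles, by a Behrend type construction, and the
clique function on such a family.
-/

namespace Pool.Agent.helper38.Neg

open Finset

lemma map_lt {n B : ℕ} {x : Fin n → ℕ} (hx : ∀ i, x i < B) : Behrend.map B x < B ^ n := by
  induction n with
  | zero => simp [Behrend.map]
  | succ n ih =>
    rw [Behrend.map_succ']
    have h1 := ih (x := x ∘ Fin.succ) (fun i => hx _)
    have h2 := hx 0
    have h3 : Behrend.map B (x ∘ Fin.succ) + 1 ≤ B ^ n := h1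
    calc x 0 + Behrend.map B (x ∘ Fin.succ) * B
        < B + Behrend.map B (x ∘ Fin.succ) * B := by omega
      _ = (Behrend.map B (x ∘ Fin.succ) + 1) * B := by ring
      _ ≤ B ^ n * B := Nat.mul_le_mul_right _ h3
      _ = B ^ (n + 1) := by ring

/-- Behrend type sets for all equations `c1 a1 + c2 a2 = (c1 + c2) a3` with `c1 + c2 ≤ m`. -/
lemma exists_behrend (m L D : ℕ) (hm : 1 ≤ m) (hL : 1 ≤ L) (hD : 2 ≤ D) :
    ∃ A : Finset ℕ, (∀ a ∈ A, a < (m * L) ^ D) ∧ L ^ (D - 2) ≤ D * A.card ∧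
      ∀ a1 ∈ A, ∀ a2 ∈ A, ∀ a3 ∈ A, ∀ c1 c2 : ℕ, 0 < c1 → 0 < c2 → c1 + c2 ≤ m →
        c1 * a1 + c2 * a2 = (c1 + c2) * a3 → a1 = a2 ∧ a2 = a3 := by
  obtain ⟨k, hk⟩ := Behrend.exists_large_sphere D L
  have hLB : ∀ x ∈ Behrend.sphere D L k, ∀ i, x i < L := fun x hx =>
    Behrend.mem_box.1 (Behrend.sphere_subset_box hx)
  have hLm : L ≤ m * L := Nat.le_mul_of_pos_left _ hm
  refine ⟨(Behrend.sphere D L k).image (Behrend.map (m * L)), ?_, ?_, ?_⟩
  · intro a ha
    obtain ⟨x, hx, rfl⟩ := mem_image.1 ha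
    exact map_lt (fun i => (hLB x hx i).trans_le hLm)
  · rw [card_image_of_injOn]
    · have h1 : ((L ^ (D - 2) : ℕ) : ℝ) ≤ ((D * (Behrend.sphere D L k).card : ℕ) : ℝ) := by
        have hD0 : (0 : ℝ) < D := by positivity
        have hL0 : (0 : ℝ) < L := by positivity
        have h2 : ((L ^ D : ℕ) : ℝ) / ((D * L ^ 2 : ℕ) : ℝ) =
            ((L ^ (D - 2) : ℕ) : ℝ) / D := by
          have h3 : L ^ D = L ^ (D - 2) * L ^ 2 := by
            rw [← pow_add]; congr 1; omega
          rw [h3]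
          push_cast
          field_simp
        rw [h2, div_le_iff₀ hD0] at hk
        push_cast at hk ⊢
        linarith
      exact_mod_cast h1
    · intro x hx y hy hxy
      exact Behrend.map_injOn (fun i => (hLB x hx i).trans_le hLm)
        (fun i => (hLB y hy i).trans_le hLm) hxy
  · intro a1 ha1 a2 ha2 a3 ha3 c1 c2 hc1 hc2 hc hEq
    obtain ⟨x, hx, rfl⟩ := mem_image.1 ha1
    obtain ⟨y, hy, rfl⟩ := mem_image.1 ha2
    obtain ⟨z, hz, rfl⟩ := mem_image.1 ha3
    have hvec : c1 • x + c2 • y = (c1 + c2) • z := by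
      apply Behrend.map_injOn (d := m * L)
      · intro i
        have h1 := hLB x hx i
        have h2 := hLB y hy i
        simp only [Pi.add_apply, Pi.smul_apply, smul_eq_mul]
        calc c1 * x i + c2 * y i ≤ c1 * (L - 1) + c2 * (L - 1) :=
              Nat.add_le_add (Nat.mul_le_mul_left _ (by omega)) (Nat.mul_le_mul_left _ (by omega))
          _ = (c1 + c2) * (L - 1) := by ring
          _ ≤ m * (L - 1) := Nat.mul_le_mul_right _ hc
          _ < m * L := Nat.mul_lt_mul_of_pos_left (by omega) hm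
      · intro i
        have h1 := hLB z hz i
        simp only [Pi.smul_apply, smul_eq_mul]
        calc (c1 + c2) * z i ≤ (c1 + c2) * (L - 1) := Nat.mul_le_mul_left _ (by omega)
          _ ≤ m * (L - 1) := Nat.mul_le_mul_right _ hc
          _ < m * L := Nat.mul_lt_mul_of_pos_left (by omega) hm
      · rw [map_add, map_nsmul, map_nsmul, map_nsmul]
        simpa using hEq
    have hx2 : ∑ i, x i ^ 2 = k := (mem_filter.1 hx).2
    have hy2 : ∑ i, y i ^ 2 = k := (mem_filter.1 hy).2
    have hz2 : ∑ i, z i ^ 2 = k := (mem_filter.1 hz).2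
    have hvi : ∀ i, (c1 : ℤ) * x i + c2 * y i = (c1 + c2) * z i := by
      intro i
      have := congrFun hvec i
      simp only [Pi.add_apply, Pi.smul_apply, smul_eq_mul] at this
      exact_mod_cast this
    have hx2' : ∑ i, (x i : ℤ) ^ 2 = k := by exact_mod_cast hx2
    have hy2' : ∑ i, (y i : ℤ) ^ 2 = k := by exact_mod_cast hy2
    have hz2' : ∑ i, (z i : ℤ) ^ 2 = k := by exact_mod_cast hz2
    have h1 : ((c1 : ℤ) + c2) ^ 2 * k =
        (c1 : ℤ) ^ 2 * k + (c2 : ℤ) ^ 2 * k + 2 * c1 * c2 * ∑ i, (x i : ℤ) * y i := by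
      calc ((c1 : ℤ) + c2) ^ 2 * k = ∑ i, (((c1 : ℤ) + c2) * z i) ^ 2 := by
            rw [← hz2', mul_sum]
            apply sum_congr rfl; intro i _; ring
        _ = ∑ i, ((c1 : ℤ) * x i + c2 * y i) ^ 2 := by
            apply sum_congr rfl; intro i _; rw [hvi]
        _ = ∑ i, ((c1 : ℤ) ^ 2 * (x i : ℤ) ^ 2 + (c2 : ℤ) ^ 2 * (y i : ℤ) ^ 2 +
              2 * c1 * c2 * ((x i : ℤ) * y i)) := by
            apply sum_congr rfl; intro i _; ring
        _ = _ := by
            rw [sum_add_distrib, sum_add_distrib, ← mul_sum, ← mul_sum, ← mul_sum, hx2', hy2']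
    have hc12 : (0 : ℤ) < 2 * c1 * c2 := by positivity
    have h2 : ∑ i, (x i : ℤ) * y i = k := by
      have h3 : 2 * (c1 : ℤ) * c2 * (∑ i, (x i : ℤ) * y i) = 2 * c1 * c2 * k := by
        linarith
      exact mul_left_cancel₀ hc12.ne' h3
    have h3 : ∑ i, ((x i : ℤ) - y i) ^ 2 = 0 := by
      calc ∑ i, ((x i : ℤ) - y i) ^ 2 =
          ∑ i, ((x i : ℤ) ^ 2 + (y i : ℤ) ^ 2 - 2 * ((x i : ℤ) * y i)) := by
            apply sum_congr rfl; intro i _; ring
        _ = 0 := by
            rw [sum_sub_distrib, sum_add_distrib, ← mul_sum, hx2', hy2', h2]; ring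
    have h4 : x = y := by
      funext i
      have h5 := (sum_eq_zero_iff_of_nonneg (fun i _ => sq_nonneg _)).1 h3 i (mem_univ _)
      have h6 : (x i : ℤ) - y i = 0 := by simpa using h5
      have h7 : (x i : ℤ) = y i := by linarith
      exact_mod_cast h7
    subst h4
    have h5 : x = z := by
      funext i
      have h6 := hvi i
      have h7 : ((c1 : ℤ) + c2) * x i = (c1 + c2) * z i := by linarith
      have h8 : ((c1 : ℤ) + c2) ≠ 0 := by positivity
      exact_mod_cast mul_left_cancel₀ h8 h7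
    exact ⟨rfl, by rw [h5]⟩

/-- A family of `K` blocks of `m` vertices: two blocks share at most one vertex, and three
different blocks do not form a triangle. -/
structure Fam (M m K : ℕ) where
  /-- the vertices of the blocks -/
  φ : ℕ → Fin m → Fin M
  mono : ∀ l < K, StrictMono (φ l)
  lin : ∀ l < K, ∀ l' < K, l ≠ l' → ∀ x y x' y', φ l x = φ l' x' → φ l y = φ l' y' → x = y
  tri : ∀ l1 < K, ∀ l2 < K, ∀ l3 < K, l1 ≠ l2 → l2 ≠ l3 → l1 ≠ l3 →
    ∀ x1 x2 y2 y3 z3 z1, φ l1 x1 = φ l2 x2 → φ l2 y2 = φ l3 y3 → φ l3 z3 = φ l1 z1 →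
      x1 ≠ z1 → x2 ≠ y2 → y3 ≠ z3 → False

/-- The family of all lines with slopes in a Behrend type set. -/
lemma exists_fam {m L D K M : ℕ} (hm : 1 ≤ m) (hL : 1 ≤ L) (hD : 2 ≤ D)
    (hM : 2 * m ^ 2 * (m * L) ^ D ≤ M) (hK : D * K ≤ L ^ (D - 2) * (m * L) ^ D) :
    Nonempty (Fam M m K) := by
  classical
  obtain ⟨A, hA1, hA2, hA3⟩ := exists_behrend m L D hm hL hD
  set N := (m * L) ^ D with hN
  have hN1 : 1 ≤ N := Nat.one_le_pow _ _ (Nat.mul_pos hm hL)
  set q := 2 * N * m with hq
  -- the index set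
  set I := A ×ˢ range (N * m) with hI
  have hKI : K ≤ I.card := by
    rw [hI, card_product, card_range]
    have h1 : D * K ≤ D * (A.card * (N * m)) := by
      calc D * K ≤ L ^ (D - 2) * N := hK
        _ ≤ (D * A.card) * N := Nat.mul_le_mul_right _ hA2
        _ ≤ (D * A.card) * (N * m) := Nat.mul_le_mul_left _ (Nat.le_mul_of_pos_right _ hm)
        _ = D * (A.card * (N * m)) := by ring
    exact Nat.le_of_mul_le_mul_left h1 (by omega)
  let en : ℕ → ℕ × ℕ := fun l => if h : l < I.card then (I.equivFin.symm ⟨l, h⟩).1 else (0, 0)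
  have hen : ∀ l < K, en l ∈ I := by
    intro l hl
    simp only [en]
    rw [dif_pos (hl.trans_le hKI)]
    exact (I.equivFin.symm ⟨l, hl.trans_le hKI⟩).2
  have hinj : ∀ l < K, ∀ l' < K, en l = en l' → l = l' := by
    intro l hl l' hl' h
    simp only [en] at h
    rw [dif_pos (hl.trans_le hKI), dif_pos (hl'.trans_le hKI)] at h
    have := I.equivFin.symm.injective (Subtype.ext h)
    exact congrArg Fin.val this
  have hbound : ∀ p ∈ I, ∀ x < m, p.1 * x + p.2 < q := by
    intro p hp x hx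
    obtain ⟨h1, h2⟩ := mem_product.1 hp
    have h3 := hA1 p.1 h1
    have h4 := mem_range.1 h2
    have h5 : p.1 * x ≤ N * m := Nat.mul_le_mul h3.le hx.le
    have h6 : q = N * m + N * m := by rw [hq]; ring
    omega
  have hMq : m * q ≤ M := by
    calc m * q = 2 * m ^ 2 * N := by rw [hq]; ring
      _ ≤ M := hM
  have hq0 : 0 < q := by
    rw [hq]; positivity
  have hM0 : 0 < M := lt_of_lt_of_le (Nat.mul_pos hm hq0) hMq
  have hv : ∀ p ∈ I, ∀ x < m, x * q + (p.1 * x + p.2) < M := by
    intro p hp x hx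
    have h1 := hbound p hp x hx
    have h2 : (x + 1) * q ≤ m * q := Nat.mul_le_mul_right _ hx
    have h3 : (x + 1) * q = x * q + q := by ring
    omega
  let φ : ℕ → Fin m → Fin M := fun l x =>
    if h : (x : ℕ) * q + ((en l).1 * x + (en l).2) < M then ⟨_, h⟩ else ⟨0, hM0⟩
  have hφ : ∀ l < K, ∀ x : Fin m, (φ l x : ℕ) = x * q + ((en l).1 * x + (en l).2) := by
    intro l hl x
    simp only [φ]
    rw [dif_pos (hv (en l) (hen l hl) x x.2)]
  -- decoding
  have hdec : ∀ l < K, ∀ l' < K, ∀ x x' : Fin m, φ l x = φ l' x' →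
      (x : ℕ) = x' ∧ (en l).1 * (x : ℕ) + (en l).2 = (en l').1 * (x : ℕ) + (en l').2 := by
    intro l hl l' hl' x x' h
    have h1 := congrArg Fin.val h
    rw [hφ l hl, hφ l' hl'] at h1
    have h2 := hbound (en l) (hen l hl) x x.2
    have h3 := hbound (en l') (hen l' hl') x' x'.2
    have h4 : (x : ℕ) = x' := by
      have e1 : ((x : ℕ) * q + ((en l).1 * x + (en l).2)) / q = x := by
        rw [mul_comm, Nat.mul_add_div hq0, Nat.div_eq_of_lt h2, add_zero]
      have e2 : ((x' : ℕ) * q + ((en l').1 * x' + (en l').2)) / q = x' := by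
        rw [mul_comm, Nat.mul_add_div hq0, Nat.div_eq_of_lt h3, add_zero]
      rw [← e1, ← e2, h1]
    refine ⟨h4, ?_⟩
    rw [← h4] at h1
    omega
  refine ⟨⟨φ, ?_, ?_, ?_⟩⟩
  · intro l hl x y hxy
    rw [Fin.lt_def, hφ l hl, hφ l hl]
    have h1 : (x : ℕ) + 1 ≤ y := hxy
    have h2 : ((x : ℕ) + 1) * q ≤ y * q := Nat.mul_le_mul_right _ h1
    have h3 := hbound (en l) (hen l hl) x x.2
    have h4 : ((x : ℕ) + 1) * q = x * q + q := by ring
    omega
  · intro l hl l' hl' hne x y x' y' hx hy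
    obtain ⟨h1, h2⟩ := hdec l hl l' hl' x x' hx
    obtain ⟨h3, h4⟩ := hdec l hl l' hl' y y' hy
    by_contra hxy
    have hxy' : (x : ℤ) ≠ y := by
      intro h
      exact hxy (Fin.ext (by exact_mod_cast h))
    have h5 : ((en l).1 : ℤ) * x + (en l).2 = (en l').1 * x + (en l').2 := by exact_mod_cast h2
    have h6 : ((en l).1 : ℤ) * y + (en l).2 = (en l').1 * y + (en l').2 := by exact_mod_cast h4
    have h7 : (((en l).1 : ℤ) - (en l').1) * (x - y) = 0 := by linarith
    rcases mul_eq_zero.1 h7 with h8 | h8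
    · have h9 : ((en l).1 : ℤ) = (en l').1 := by linarith
      have h10 : ((en l).2 : ℤ) = (en l').2 := by rw [h9] at h5; linarith
      apply hne
      apply hinj l hl l' hl'
      exact Prod.ext (by exact_mod_cast h9) (by exact_mod_cast h10)
    · exact hxy' (by linarith)
  · intro l1 h1 l2 h2 l3 h3 h12 h23 h13 x1 x2 y2 y3 z3 z1 e1 e2 e3 n1 n2 n3
    obtain ⟨p1, p2⟩ := hdec l1 h1 l2 h2 x1 x2 e1
    obtain ⟨q1, q2⟩ := hdec l2 h2 l3 h3 y2 y3 e2
    obtain ⟨r1, r2⟩ := hdec l3 h3 l1 h1 z3 z1 e3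
    have hx : (x1 : ℕ) ≠ z3 := by
      intro h; apply n1; apply Fin.ext; omega
    have hy : (x1 : ℕ) ≠ y2 := by
      intro h; apply n2; apply Fin.ext; omega
    have hz : (y2 : ℕ) ≠ z3 := by
      intro h; apply n3; apply Fin.ext; omega
    set a1 := (en l1).1
    set a2 := (en l2).1
    set a3 := (en l3).1
    set x : ℕ := (x1 : ℕ)
    set y : ℕ := (y2 : ℕ)
    set z : ℕ := (z3 : ℕ)
    have hxm : x < m := x1.2
    have hym : y < m := y2.2
    have hzm : z < m := z3.2
    have ha1 : a1 ∈ A := (mem_product.1 (hen l1 h1)).1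
    have ha2 : a2 ∈ A := (mem_product.1 (hen l2 h2)).1
    have ha3 : a3 ∈ A := (mem_product.1 (hen l3 h3)).1
    have hkey : (a1 : ℤ) * (x - z) + a2 * (y - x) + a3 * (z - y) = 0 := by
      have f1 : (a1 : ℤ) * x + (en l1).2 = a2 * x + (en l2).2 := by exact_mod_cast p2
      have f2 : (a2 : ℤ) * y + (en l2).2 = a3 * y + (en l3).2 := by exact_mod_cast q2
      have f3 : (a3 : ℤ) * z + (en l3).2 = a1 * z + (en l1).2 := by exact_mod_cast r2
      linarith
    have hall : a1 = a2 := by
      -- order the three columns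
      rcases lt_or_gt_of_ne hx with hxz | hxz
      · rcases lt_or_gt_of_ne hy with hxy | hxy
        · rcases lt_or_gt_of_ne hz with hyz | hyz
          · -- x < y < z : a2 (y-x) + a3 (z-y) = a1 (z-x)
            have := hA3 a2 ha2 a3 ha3 a1 ha1 (y - x) (z - y) (by omega) (by omega) (by omega) (by
              zify [hxy.le, hyz.le]
              linarith)
            omega
          · -- x < z < y : a1 (z-x) + a3 (y-z) = a2 (y-x)
            have := hA3 a1 ha1 a3 ha3 a2 ha2 (z - x) (y - z) (by omega) (by omega) (by omega) (by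
              zify [hxz.le, hyz.le]
              linarith)
            omega
        · -- y < x < z : a1 (z-x) + a2 (x-y) = a3 (z-y)
          have := hA3 a1 ha1 a2 ha2 a3 ha3 (z - x) (x - y) (by omega) (by omega) (by omega) (by
            zify [hxz.le, hxy.le]
            linarith)
          omega
      · rcases lt_or_gt_of_ne hy with hxy | hxy
        · -- z < x < y : a1 (x-z) + a2 (y-x) = a3 (y-z)
          have := hA3 a1 ha1 a2 ha2 a3 ha3 (x - z) (y - x) (by omega) (by omega) (by omega) (by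
            zify [hxz.le, hxy.le]
            linarith)
          omega
        · rcases lt_or_gt_of_ne hz with hyz | hyz
          · -- y < z < x : a1 (x-z) + a3 (z-y) = a2 (x-y)
            have := hA3 a1 ha1 a3 ha3 a2 ha2 (x - z) (z - y) (by omega) (by omega) (by omega) (by
              zify [hxz.le, hyz.le]
              linarith)
            omega
          · -- z < y < x : a2 (x-y) + a3 (y-z) = a1 (x-z)
            have := hA3 a2 ha2 a3 ha3 a1 ha1 (x - y) (y - z) (by omega) (by omega) (by omega) (by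
              zify [hxy.le, hyz.le]
              linarith)
            omega
    apply h12
    apply hinj l1 h1 l2 h2
    have p2' : a1 * x + (en l1).2 = a2 * x + (en l2).2 := p2
    rw [hall] at p2'
    exact Prod.ext hall (by omega)

end Pool.Agent.helper38.Neg
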