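import Pool.Agent.helper38.Neg.Poly

/-!
The language: OR of polynomial functions over disjoint blocks of all scales.
-/

namespace Pool.Agent.helper38.Neg

/-- The field with `4 ^ e` elements. -/
abbrev Fld (e : ℕ) : Type := GaloisField 2 (2 * e)

noncomputable instance (e : ℕ) : Fintype (Fld e) := Fintype.ofFinite _

noncomputable instance (e : ℕ) : DecidableEq (Fld e) := Classical.decEq _

lemma fld_card {e : ℕ} (he : 5 ≤ e) : Fintype.card (Fld e) = 4 ^ e := by
  rw [← Nat.card_eq_fintype_card, GaloisField.card 2 (2 * e) (by omega), pow_mul]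
  norm_num

lemma fld_sq_card {e : ℕ} (he : 5 ≤ e) : Fintype.card (Fld e × Fld e) = 16 ^ e := by
  rw [Fintype.card_prod, fld_card he, ← mul_pow]
  norm_num

/-- Numbering of the pairs. -/
noncomputable def idx (e : ℕ) : Fld e × Fld e ≃ Fin (Fintype.card (Fld e × Fld e)) :=
  Fintype.equivFin _

/-- Number of scales. -/
def scales (n : ℕ) : ℕ := Nat.log 2 n + 1

/-- Width of the region of each scale. -/
def width (n : ℕ) : ℕ := n / scales n

/-- Reading a position of the input. -/
def get {n : ℕ} (x : Fin n → Bool) (i : ℕ) : Bool := if h : i < n then x ⟨i, h⟩ else false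

/-- The content of the `l`-th block of scale `e`. -/
noncomputable def block {n : ℕ} (x : Fin n → Bool) (e l : ℕ) : Fld e × Fld e → Bool :=
  fun k => get x (e * width n + l * 16 ^ e + (idx e k : ℕ))

/-- The language. -/
noncomputable def lang : Lang := fun n x =>
  ∃ e l, 5 ≤ e ∧ e < scales n ∧ (l + 1) * 16 ^ e ≤ width n ∧
    PolyFn (Fld e) (2 ^ e / e) (block x e l)

lemma lang_mono (n : ℕ) : Monotone (lang n) := by
  rintro x y hxy ⟨e, l, h1, h2, h3, h4⟩
  refine ⟨e, l, h1, h2, h3, polyFn_mono _ ?_ h4⟩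
  intro k
  unfold block get
  split_ifs with h
  · exact hxy _
  · exact le_rfl

/-- Placing block contents into an input. -/
noncomputable def place (n e L : ℕ) (c : ℕ → (Fld e × Fld e → Bool)) : Fin n → Bool := fun i =>
  if h : e * width n ≤ (i : ℕ) ∧ ((i : ℕ) - e * width n) / 16 ^ e < L ∧ 5 ≤ e then
    c (((i : ℕ) - e * width n) / 16 ^ e)
      ((idx e).symm ⟨((i : ℕ) - e * width n) % 16 ^ e, by
        rw [fld_sq_card h.2.2]
        exact Nat.mod_lt _ (by positivity)⟩)
  else false

lemma place_block {n e L : ℕ} (he : 5 ≤ e) (he2 : e < scales n) (hL : L * 16 ^ e ≤ width n)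
    (c : ℕ → (Fld e × Fld e → Bool)) :
    lang n (place n e L c) ↔ ∃ l < L, PolyFn (Fld e) (2 ^ e / e) (c l) := by
  have hw : scales n * width n ≤ n := Nat.mul_div_le _ _
  have h16 : ∀ e : ℕ, 0 < 16 ^ e := fun e => by positivity
  -- inside the region
  have hin : ∀ l, (l + 1) * 16 ^ e ≤ width n → ∀ k : Fld e × Fld e,
      block (place n e L c) e l k = if l < L then c l k else false := by
    intro l hl k
    have hk : (idx e k : ℕ) < 16 ^ e := by
      rw [← fld_sq_card he]
      exact (idx e k).2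
    have h1 : e * width n + l * 16 ^ e + (idx e k : ℕ) < n := by
      have h2 : (e + 1) * width n ≤ scales n * width n := Nat.mul_le_mul_right _ he2
      have h3 : (e + 1) * width n = e * width n + width n := by ring
      have h4 : (l + 1) * 16 ^ e = l * 16 ^ e + 16 ^ e := by ring
      omega
    unfold block get
    rw [dif_pos h1]
    unfold place
    have e1 : e * width n + l * 16 ^ e + (idx e k : ℕ) - e * width n =
        16 ^ e * l + (idx e k : ℕ) := by
      rw [mul_comm (16 ^ e) l]
      omega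
    have e2 : (16 ^ e * l + (idx e k : ℕ)) / 16 ^ e = l := by
      rw [Nat.mul_add_div (h16 e), Nat.div_eq_of_lt hk, add_zero]
    have e3 : (16 ^ e * l + (idx e k : ℕ)) % 16 ^ e = (idx e k : ℕ) := by
      rw [Nat.mul_add_mod, Nat.mod_eq_of_lt hk]
    by_cases hlL : l < L
    · rw [dif_pos (by
        refine ⟨by simp only []; omega, ?_, he⟩
        simp only [e1, e2]
        exact hlL), if_pos hlL]
      simp only [e1, e2, e3]
      congr 1
      rw [Equiv.symm_apply_eq]
    · rw [dif_neg (by
        rintro ⟨_, h, _⟩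
        simp only [e1, e2] at h
        exact hlL h), if_neg hlL]
  -- outside
  have hout : ∀ e' l, e' ≠ e → 5 ≤ e' → (l + 1) * 16 ^ e' ≤ width n →
      ∀ k : Fld e' × Fld e', block (place n e L c) e' l k = false := by
    intro e' l hne he' hl k
    have hk : (idx e' k : ℕ) < 16 ^ e' := by
      rw [← fld_sq_card he']
      exact (idx e' k).2
    unfold block get
    split_ifs with h1
    · unfold place
      rw [dif_neg]
      rintro ⟨h2, h3, _⟩
      simp only [] at h2 h3
      have h4 : (l + 1) * 16 ^ e' = l * 16 ^ e' + 16 ^ e' := by ring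
      rcases lt_or_gt_of_ne hne with hlt | hgt
      · have h5 : (e' + 1) * width n ≤ e * width n := Nat.mul_le_mul_right _ hlt
        have h6 : (e' + 1) * width n = e' * width n + width n := by ring
        omega
      · have h5 : (e + 1) * width n ≤ e' * width n := Nat.mul_le_mul_right _ hgt
        have h6 : (e + 1) * width n = e * width n + width n := by ring
        have h7 : L ≤ (e' * width n + l * 16 ^ e' + (idx e' k : ℕ) - e * width n) / 16 ^ e := by
          rw [Nat.le_div_iff_mul_le (h16 e)]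
          omega
        omega
    · rfl
  constructor
  · rintro ⟨e', l, h1, h2, h3, h4⟩
    by_cases hee : e' = e
    · subst hee
      have hb : block (place n e' L c) e' l = fun k => if l < L then c l k else false := by
        funext k
        exact hin l h3 k
      rw [hb] at h4
      by_cases hlL : l < L
      · simp only [if_pos hlL] at h4
        exact ⟨l, hlL, h4⟩
      · simp only [if_neg hlL] at h4
        exact absurd h4 (polyFn_zero _)
    · have hb : block (place n e L c) e' l = fun _ => false := by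
        funext k
        exact hout e' l hee h1 h3 k
      rw [hb] at h4
      exact absurd h4 (polyFn_zero _)
  · rintro ⟨l, hl, h4⟩
    have h3 : (l + 1) * 16 ^ e ≤ width n := (Nat.mul_le_mul_right _ hl).trans hL
    refine ⟨e, l, he, he2, h3, ?_⟩
    have hb : block (place n e L c) e l = c l := by
      funext k
      rw [hin l h3 k, if_pos hl]
    rw [hb]
    exact h4

/-- The size bound at a scale `e` with `K * 16 ^ e ≤ width n`. -/
theorem size_at_scale {n s K e : ℕ} (he : 5 ≤ e) (he2 : e < scales n)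
    (hK : K * 16 ^ e ≤ width n) (C : Circuit n s) (o : Fin (n + s))
    (hC : C.Computes o (lang n)) (hpat : C.PatternsLE K) :
    2 ^ (2 ^ (e - 1)) ≤ s + 1 := by
  obtain ⟨L, hL, hlen, D, hD, hDy⟩ := walk C o (lang n)
    (PolyFn (Fld e) (2 ^ e / e)) (place n e K) (by
      intro i
      unfold place
      by_cases h : e * width n ≤ (i : ℕ) ∧ ((i : ℕ) - e * width n) / 16 ^ e < K ∧ 5 ≤ e
      · right
        exact ⟨_, _, fun c => by rw [dif_pos h]⟩
      · left
        intro c
        rw [dif_neg h]) (place_block he he2 hK) (polyFn_zero _) hC hpat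
  exact (poly_lower_exp he (fld_card he) hL hD hDy).trans hlen

lemma scales_le {n : ℕ} (hn : 2 ≤ n) : (scales n : ℝ) ≤ 16 * Real.log n := by
  have hn0 : (0 : ℝ) < n := by positivity
  have hlog2 := Real.log_two_gt_d9
  have h1 : Real.log 2 ≤ Real.log n := Real.log_le_log (by norm_num) (by exact_mod_cast hn)
  have h2 : (2 : ℝ) ^ (Nat.log 2 n) ≤ n := by
    exact_mod_cast Nat.pow_log_le_self 2 (by omega)
  have h3 : (Nat.log 2 n : ℝ) * Real.log 2 ≤ Real.log n := by
    have := Real.log_le_log (by positivity) h2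
    rwa [Real.log_pow] at this
  have h4 : (scales n : ℝ) = (Nat.log 2 n : ℝ) + 1 := by
    unfold scales; push_cast; ring
  rw [h4]
  have h5 : (0 : ℝ) ≤ (Nat.log 2 n : ℝ) := by positivity
  nlinarith

/-- The size bound. -/
theorem size_bound {n s K : ℕ} (hn : 2 ≤ n) (C : Circuit n s) (o : Fin (n + s))
    (hC : C.Computes o (lang n)) (h : 2 ^ C.notCount ≤ K ∨ C.PatternsLE K) :
    (2 : ℝ) ^ ((1 / 64 : ℝ) * ((n : ℝ) / (K * Real.log n)) ^ ((1 : ℝ) / 4)) ≤ s + 2 := by
  have hpat : C.PatternsLE K := by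
    rcases h with h | h
    · exact patterns_of_notCount C h
    · exact h
  have hn0 : (0 : ℝ) < n := by positivity
  have hlogn : 0 < Real.log n := Real.log_pos (by exact_mod_cast hn)
  rcases Nat.eq_zero_or_pos K with hK0 | hKpos
  · subst hK0
    have : ((n : ℝ) / ((0 : ℕ) * Real.log n)) ^ ((1 : ℝ) / 4) = 0 := by
      simp
    rw [this]
    have hs : (0 : ℝ) ≤ s := by positivity
    simp only [mul_zero, Real.rpow_zero]
    linarith
  set e := Nat.log 16 (width n / K) with he
  have h1 : width n / K < 16 ^ (e + 1) := Nat.lt_pow_succ_log_self (by norm_num) _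
  have h2 : width n < 16 ^ (e + 1) * K := by
    rwa [Nat.div_lt_iff_lt_mul hKpos] at h1
  have h3 : n < (width n + 1) * scales n := by
    have := Nat.lt_mul_div_succ n (show 0 < scales n by unfold scales; omega)
    unfold width
    rw [mul_comm]; exact this
  have h4 : n ≤ 16 ^ (e + 1) * K * scales n :=
    h3.le.trans (Nat.mul_le_mul_right _ h2)
  have hKR : (0 : ℝ) < K := by exact_mod_cast hKpos
  have hT : (n : ℝ) / (K * Real.log n) ≤ 16 ^ (e + 2) := by
    rw [div_le_iff₀ (by positivity)]
    have h5 : (n : ℝ) ≤ 16 ^ (e + 1) * K * scales n := by exact_mod_cast h4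
    calc (n : ℝ) ≤ 16 ^ (e + 1) * K * scales n := h5
      _ ≤ 16 ^ (e + 1) * K * (16 * Real.log n) :=
          mul_le_mul_of_nonneg_left (scales_le hn) (by positivity)
      _ = 16 ^ (e + 2) * (K * Real.log n) := by ring
  have hT0 : 0 ≤ (n : ℝ) / (K * Real.log n) := by positivity
  have hT4 : ((n : ℝ) / (K * Real.log n)) ^ ((1 : ℝ) / 4) ≤ 2 ^ (e + 2) := by
    have h6 : ((16 : ℝ) ^ (e + 2)) ^ ((1 : ℝ) / 4) = 2 ^ (e + 2) := by
      have : (16 : ℝ) ^ (e + 2) = (2 ^ (e + 2)) ^ (4 : ℕ) := by
        rw [show (16 : ℝ) = 2 ^ 4 by norm_num, ← pow_mul, ← pow_mul]; ring_nf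
      rw [this, ← Real.rpow_natCast ((2 : ℝ) ^ (e + 2)) 4, ← Real.rpow_mul (by positivity)]
      norm_num
    rw [← h6]
    exact Real.rpow_le_rpow hT0 hT (by norm_num)
  have hs : (0 : ℝ) ≤ s := by positivity
  by_cases he5 : 5 ≤ e
  · have h7 : 16 ^ e ≤ width n / K := Nat.pow_log_le_self 16 (by
      intro h0
      rw [h0] at he
      simp at he
      omega)
    have h8 : K * 16 ^ e ≤ width n := by
      rw [mul_comm]
      exact (Nat.le_div_iff_mul_le hKpos).1 h7
    have h9 : e < scales n := by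
      have h10 : 2 ^ (4 * e) ≤ n := by
        have h11 : width n ≤ n := Nat.div_le_self _ _
        have h12 : width n / K ≤ width n := Nat.div_le_self _ _
        rw [pow_mul]
        norm_num
        omega
      have h13 : 4 * e ≤ Nat.log 2 n := Nat.le_log_of_pow_le (by norm_num) h10
      unfold scales
      omega
    have h14 := size_at_scale he5 h9 h8 C o hC hpat
    have h15 : (2 : ℝ) ^ (2 ^ (e - 1) : ℕ) ≤ s + 1 := by exact_mod_cast h14
    have h16 : (1 / 64 : ℝ) * ((n : ℝ) / (K * Real.log n)) ^ ((1 : ℝ) / 4) ≤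
        ((2 ^ (e - 1) : ℕ) : ℝ) := by
      have h17 : (2 : ℝ) ^ e = 2 * 2 ^ (e - 1) := by
        rw [← pow_succ']; congr 1; omega
      have h18 : (2 : ℝ) ^ (e + 2) = 8 * 2 ^ (e - 1) := by
        rw [pow_add, h17]; ring
      push_cast
      rw [h18] at hT4
      have : (0 : ℝ) < 2 ^ (e - 1) := by positivity
      linarith
    calc (2 : ℝ) ^ ((1 / 64 : ℝ) * ((n : ℝ) / (K * Real.log n)) ^ ((1 : ℝ) / 4))
        ≤ (2 : ℝ) ^ (((2 ^ (e - 1) : ℕ) : ℝ)) :=
          Real.rpow_le_rpow_of_exponent_le (by norm_num) h16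
      _ = (2 : ℝ) ^ (2 ^ (e - 1) : ℕ) := Real.rpow_natCast _ _
      _ ≤ s + 1 := h15
      _ ≤ s + 2 := by linarith
  · have h7 : (2 : ℝ) ^ (e + 2) ≤ 64 := by
      calc (2 : ℝ) ^ (e + 2) ≤ 2 ^ 6 := pow_le_pow_right₀ (by norm_num) (by omega)
        _ = 64 := by norm_num
    have h8 : (1 / 64 : ℝ) * ((n : ℝ) / (K * Real.log n)) ^ ((1 : ℝ) / 4) ≤ 1 := by
      linarith
    calc (2 : ℝ) ^ ((1 / 64 : ℝ) * ((n : ℝ) / (K * Real.log n)) ^ ((1 : ℝ) / 4))
        ≤ (2 : ℝ) ^ (1 : ℝ) := Real.rpow_le_rpow_of_exponent_le (by norm_num) h8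
      _ = 2 := by norm_num
      _ ≤ s + 2 := by linarith

end Pool.Agent.helper38.Neg
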