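import Pool.Agent.helper38.Neg.Lang

/-!
The language has nondeterministic circuits of polynomial size.
-/

namespace Pool.Agent.helper38.Neg

/-- Operands available after the list `L`: members and variables. -/
def Op {ι : Type*} (L : List ((ι → Bool) → Bool)) (f : (ι → Bool) → Bool) : Prop :=
  f ∈ L ∨ ∃ i, f = fun y => y i

lemma Op.mono {ι : Type*} {L L' : List ((ι → Bool) → Bool)} (h : ∀ f ∈ L, f ∈ L')
    {f : (ι → Bool) → Bool} (hf : Op L f) : Op L' f := by
  rcases hf with hf | hf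
  · exact Or.inl (h f hf)
  · exact Or.inr hf

/-- Straight line computations. -/
inductive Chain {ι : Type*} : List ((ι → Bool) → Bool) → Prop
  | nil : Chain []
  | const {L} (b : Bool) : Chain L → Chain ((fun _ => b) :: L)
  | and {L u v} : Chain L → Op L u → Op L v → Chain ((fun y => u y && v y) :: L)
  | or {L u v} : Chain L → Op L u → Op L v → Chain ((fun y => u y || v y) :: L)
  | not {L u} : Chain L → Op L u → Chain ((fun y => !(u y)) :: L)

lemma Chain.append {ι : Type*} {L1 L2 : List ((ι → Bool) → Bool)} (h1 : Chain L1)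
    (h2 : Chain L2) : Chain (L1 ++ L2) := by
  have hm : ∀ {L : List ((ι → Bool) → Bool)} {f}, Op L f → Op (L ++ L2) f := fun h =>
    h.mono (fun f hf => List.mem_append_left _ hf)
  induction h1 with
  | nil => exact h2
  | const b _ ih => exact Chain.const b ih
  | and _ hu hv ih => exact Chain.and ih (hm hu) (hm hv)
  | or _ hu hv ih => exact Chain.or ih (hm hu) (hm hv)
  | not _ hu ih => exact Chain.not ih (hm hu)

lemma Chain.rename {ι κ : Type*} (φ : ι → κ) {L : List ((ι → Bool) → Bool)} (h : Chain L) :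
    Chain (L.map fun f => fun y : κ → Bool => f (y ∘ φ)) := by
  have hm : ∀ {L : List ((ι → Bool) → Bool)} {f}, Op L f →
      Op (L.map fun f => fun y : κ → Bool => f (y ∘ φ)) (fun y => f (y ∘ φ)) := by
    intro L f hf
    rcases hf with hf | ⟨i, rfl⟩
    · exact Or.inl (List.mem_map.2 ⟨f, hf, rfl⟩)
    · exact Or.inr ⟨φ i, rfl⟩
  induction h with
  | nil => exact Chain.nil
  | const b _ ih => exact Chain.const b ih
  | and _ hu hv ih => exact Chain.and ih (hm hu) (hm hv)
  | or _ hu hv ih => exact Chain.or ih (hm hu) (hm hv)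
  | not _ hu ih => exact Chain.not ih (hm hu)

lemma Chain.toCircuit {m : ℕ} {L : List ((Fin m → Bool) → Bool)} (h : Chain L) :
    ∃ C : Circuit m L.length, ∀ f, Op L f → ∃ k, ∀ x, C.val x k = f x := by
  have key : ∀ (L : List ((Fin m → Bool) → Bool)) (C : Circuit m L.length)
      (hC : ∀ f, Op L f → ∃ k, ∀ x, C.val x k = f x) (g : Gate (m + L.length))
      (F : (Fin m → Bool) → Bool) (_ : ∀ x, g.eval (C.val x) = F x),
      ∃ C : Circuit m (F :: L).length, ∀ f, Op (F :: L) f → ∃ k, ∀ x, C.val x k = f x := by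
    intro L C hC g F hF
    refine ⟨Circuit.snoc C g, ?_⟩
    have hold : ∀ f, Op L f → ∃ k, ∀ x, (Circuit.snoc C g).val x k = f x := by
      intro f hf
      obtain ⟨k, hk⟩ := hC f hf
      refine ⟨Fin.castSucc k, fun x => ?_⟩
      rw [← hk x]
      simp [Circuit.val]
    intro f hf
    rcases hf with hf | hf
    · rcases List.mem_cons.1 hf with rfl | hf
      · refine ⟨Fin.last (m + L.length), fun x => ?_⟩
        rw [← hF x]
        simp [Circuit.val]
      · exact hold f (Or.inl hf)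
    · exact hold f (Or.inr hf)
  induction h with
  | nil =>
    refine ⟨Circuit.nil, ?_⟩
    rintro f (hf | ⟨i, rfl⟩)
    · simp at hf
    · exact ⟨i, fun x => rfl⟩
  | @const L b _ ih =>
    obtain ⟨C, hC⟩ := ih
    exact key L C hC (Gate.const b) _ (fun x => rfl)
  | @and L u v _ hu hv ih =>
    obtain ⟨C, hC⟩ := ih
    obtain ⟨i, hi⟩ := hC u hu
    obtain ⟨j, hj⟩ := hC v hv
    exact key L C hC (Gate.and i j) _ (fun x => by simp [Gate.eval, hi, hj])
  | @or L u v _ hu hv ih =>
    obtain ⟨C, hC⟩ := ih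
    obtain ⟨i, hi⟩ := hC u hu
    obtain ⟨j, hj⟩ := hC v hv
    exact key L C hC (Gate.or i j) _ (fun x => by simp [Gate.eval, hi, hj])
  | @not L u _ hu ih =>
    obtain ⟨C, hC⟩ := ih
    obtain ⟨i, hi⟩ := hC u hu
    exact key L C hC (Gate.not i) _ (fun x => by simp [Gate.eval, hi])

/-- `f` is computed with at most `c` gates. -/
def HasCost {ι : Type*} (f : (ι → Bool) → Bool) (c : ℕ) : Prop :=
  ∃ L, Chain L ∧ L.length ≤ c ∧ Op L f

lemma HasCost.var {ι : Type*} (i : ι) : HasCost (fun y : ι → Bool => y i) 0 :=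
  ⟨[], Chain.nil, le_rfl, Or.inr ⟨i, rfl⟩⟩

lemma HasCost.const {ι : Type*} (b : Bool) : HasCost (fun _ : ι → Bool => b) 1 :=
  ⟨_, Chain.const b Chain.nil, le_rfl, Or.inl List.mem_cons_self⟩

lemma HasCost.mono {ι : Type*} {f : (ι → Bool) → Bool} {c c' : ℕ} (h : HasCost f c)
    (hc : c ≤ c') : HasCost f c' := by
  obtain ⟨L, h1, h2, h3⟩ := h
  exact ⟨L, h1, h2.trans hc, h3⟩

lemma HasCost.not {ι : Type*} {f : (ι → Bool) → Bool} {c : ℕ} (h : HasCost f c) :
    HasCost (fun y => !(f y)) (c + 1) := by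
  obtain ⟨L, h1, h2, h3⟩ := h
  exact ⟨_, Chain.not h1 h3, by simp; omega, Or.inl List.mem_cons_self⟩

lemma HasCost.and {ι : Type*} {f g : (ι → Bool) → Bool} {a b : ℕ} (hf : HasCost f a)
    (hg : HasCost g b) : HasCost (fun y => f y && g y) (a + b + 1) := by
  obtain ⟨L, h1, h2, h3⟩ := hf
  obtain ⟨M, g1, g2, g3⟩ := hg
  exact ⟨_, Chain.and (h1.append g1) (h3.mono fun f hf => List.mem_append_left _ hf)
    (g3.mono fun f hf => List.mem_append_right _ hf), by simp; omega,
    Or.inl List.mem_cons_self⟩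

lemma HasCost.or {ι : Type*} {f g : (ι → Bool) → Bool} {a b : ℕ} (hf : HasCost f a)
    (hg : HasCost g b) : HasCost (fun y => f y || g y) (a + b + 1) := by
  obtain ⟨L, h1, h2, h3⟩ := hf
  obtain ⟨M, g1, g2, g3⟩ := hg
  exact ⟨_, Chain.or (h1.append g1) (h3.mono fun f hf => List.mem_append_left _ hf)
    (g3.mono fun f hf => List.mem_append_right _ hf), by simp; omega,
    Or.inl List.mem_cons_self⟩

lemma HasCost.rename {ι κ : Type*} (φ : ι → κ) {f : (ι → Bool) → Bool} {c : ℕ}
    (h : HasCost f c) : HasCost (fun y : κ → Bool => f (y ∘ φ)) c := by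
  obtain ⟨L, h1, h2, h3⟩ := h
  refine ⟨_, h1.rename φ, by simpa using h2, ?_⟩
  rcases h3 with h3 | ⟨i, rfl⟩
  · exact Or.inl (List.mem_map.2 ⟨f, h3, rfl⟩)
  · exact Or.inr ⟨φ i, rfl⟩

/-- Conjunction over an index type. -/
noncomputable def allB {α : Type*} (p : α → Bool) : Bool :=
  @decide (∀ i, p i = true) (Classical.dec _)

/-- Disjunction over an index type. -/
noncomputable def anyB {α : Type*} (p : α → Bool) : Bool :=
  @decide (∃ i, p i = true) (Classical.dec _)

lemma allB_iff {α : Type*} (p : α → Bool) : allB p = true ↔ ∀ i, p i = true := by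
  unfold allB; exact @decide_eq_true_iff _ (Classical.dec _)

lemma anyB_iff {α : Type*} (p : α → Bool) : anyB p = true ↔ ∃ i, p i = true := by
  unfold anyB; exact @decide_eq_true_iff _ (Classical.dec _)

lemma HasCost.all {ι α : Type*} [Fintype α] (g : α → (ι → Bool) → Bool) (c : ℕ)
    (h : ∀ i, HasCost (g i) c) :
    HasCost (fun y => allB fun i => g i y) (Fintype.card α * (c + 1) + 1) := by
  classical
  have key : ∀ S : Finset α,
      HasCost (fun y => decide (∀ i ∈ S, g i y = true)) (S.card * (c + 1) + 1) := by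
    intro S
    induction S using Finset.induction_on with
    | empty =>
      have : (fun y : ι → Bool => decide (∀ i ∈ (∅ : Finset α), g i y = true)) =
          fun _ => true := by
        funext y; simp
      rw [this]
      exact (HasCost.const true).mono (by simp)
    | @insert a S ha ih =>
      have : (fun y : ι → Bool => decide (∀ i ∈ insert a S, g i y = true)) =
          fun y => g a y && decide (∀ i ∈ S, g i y = true) := by
        funext y
        rw [Bool.eq_iff_iff]
        simp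
      rw [this]
      refine ((h a).and ih).mono ?_
      rw [Finset.card_insert_of_notMem ha]
      ring_nf
      omega
  have h1 := key Finset.univ
  have h2 : (fun y : ι → Bool => allB fun i => g i y) =
      fun y => decide (∀ i ∈ (Finset.univ : Finset α), g i y = true) := by
    funext y
    rw [Bool.eq_iff_iff, allB_iff]
    simp
  rw [h2]
  exact h1

lemma HasCost.any {ι α : Type*} [Fintype α] (g : α → (ι → Bool) → Bool) (c : ℕ)
    (h : ∀ i, HasCost (g i) c) :
    HasCost (fun y => anyB fun i => g i y) (Fintype.card α * (c + 1) + 1) := by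
  classical
  have key : ∀ S : Finset α,
      HasCost (fun y => decide (∃ i ∈ S, g i y = true)) (S.card * (c + 1) + 1) := by
    intro S
    induction S using Finset.induction_on with
    | empty =>
      have : (fun y : ι → Bool => decide (∃ i ∈ (∅ : Finset α), g i y = true)) =
          fun _ => false := by
        funext y; simp
      rw [this]
      exact (HasCost.const false).mono (by simp)
    | @insert a S ha ih =>
      have : (fun y : ι → Bool => decide (∃ i ∈ insert a S, g i y = true)) =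
          fun y => g a y || decide (∃ i ∈ S, g i y = true) := by
        funext y
        rw [Bool.eq_iff_iff]
        simp
      rw [this]
      refine ((h a).or ih).mono ?_
      rw [Finset.card_insert_of_notMem ha]
      ring_nf
      omega
  have h1 := key Finset.univ
  have h2 : (fun y : ι → Bool => anyB fun i => g i y) =
      fun y => decide (∃ i ∈ (Finset.univ : Finset α), g i y = true) := by
    funext y
    rw [Bool.eq_iff_iff, anyB_iff]
    simp
  rw [h2]
  exact h1

/-- Horner recursion. -/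
lemma horner {F : Type*} [Field F] (t : F) : ∀ {d : ℕ} (p : Fin d → F) (r : Fin (d + 1) → F),
    r (Fin.last d) = 0 → (∀ j : Fin d, r j.castSucc = p j + t * r j.succ) →
    r 0 = evalP p t := by
  intro d
  induction d with
  | zero =>
    intro p r h1 _
    simp only [evalP, Finset.univ_eq_empty, Finset.sum_empty]
    exact h1
  | succ d ih =>
    intro p r h1 h2
    have h3 := ih (fun j => p j.succ) (fun j => r j.succ) h1 (by
      intro j
      have := h2 j.succ
      rw [← Fin.succ_castSucc] at this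
      exact this)
    have h4 := h2 0
    unfold evalP at h3 ⊢
    rw [Fin.sum_univ_succ]
    rw [Fin.castSucc_zero] at h4
    rw [h4, h3, Finset.mul_sum]
    congr 1
    · simp
    · apply Finset.sum_congr rfl
      intro j _
      simp only [Fin.val_succ]
      ring

/-- Guess variables for one polynomial: coefficients and Horner values. -/
abbrev Guess (F : Type*) (d : ℕ) : Type _ := (Fin d × F) ⊕ (F × Fin (d + 1) × F)

/-- The checks for one polynomial. -/
noncomputable def check (F : Type*) [Field F] (d : ℕ) (z : (F × F) ⊕ Guess F d → Bool) : Bool :=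
  ((allB fun j : Fin d => anyB fun v : F => z (Sum.inr (Sum.inl (j, v)))) &&
    (allB fun t : F => z (Sum.inr (Sum.inr (t, Fin.last d, 0))))) &&
  ((allB fun a : F × Fin d × F × F =>
      ((!(z (Sum.inr (Sum.inr (a.1, a.2.1.succ, a.2.2.1)))) ||
        !(z (Sum.inr (Sum.inl (a.2.1, a.2.2.2))))) ||
        z (Sum.inr (Sum.inr (a.1, a.2.1.castSucc, a.2.2.2 + a.1 * a.2.2.1))))) &&
    (allB fun a : F × F =>
      (!(z (Sum.inr (Sum.inr (a.1, 0, a.2)))) || z (Sum.inl a))))

lemma check_cost (F : Type*) [Field F] [Fintype F] (d : ℕ) :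
    HasCost (check F d) (d * (Fintype.card F + 2) + Fintype.card F +
      5 * (Fintype.card F * (d * (Fintype.card F * Fintype.card F))) +
      3 * (Fintype.card F * Fintype.card F) + 7) := by
  have h1 : HasCost (fun z : (F × F) ⊕ Guess F d → Bool =>
      (allB fun j : Fin d => anyB fun v : F => z (Sum.inr (Sum.inl (j, v)))))
      (Fintype.card (Fin d) * ((Fintype.card F * (0 + 1) + 1) + 1) + 1) :=
    HasCost.all _ _ fun j => HasCost.any _ _ fun v => HasCost.var _
  have h2 : HasCost (fun z : (F × F) ⊕ Guess F d → Bool =>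
      (allB fun t : F => z (Sum.inr (Sum.inr (t, Fin.last d, 0)))))
      (Fintype.card F * (0 + 1) + 1) := HasCost.all _ _ fun t => HasCost.var _
  have h3 : HasCost (fun z : (F × F) ⊕ Guess F d → Bool =>
      (allB fun a : F × Fin d × F × F =>
      ((!(z (Sum.inr (Sum.inr (a.1, a.2.1.succ, a.2.2.1)))) ||
        !(z (Sum.inr (Sum.inl (a.2.1, a.2.2.2))))) ||
        z (Sum.inr (Sum.inr (a.1, a.2.1.castSucc, a.2.2.2 + a.1 * a.2.2.1))))))
      (Fintype.card (F × Fin d × F × F) * ((((0 + 1) + (0 + 1) + 1) + 0 + 1) + 1) + 1) :=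
    HasCost.all _ _ fun a =>
      (((HasCost.var _).not).or ((HasCost.var _).not)).or (HasCost.var _)
  have h4 : HasCost (fun z : (F × F) ⊕ Guess F d → Bool =>
      (allB fun a : F × F =>
      (!(z (Sum.inr (Sum.inr (a.1, 0, a.2)))) || z (Sum.inl a))))
      (Fintype.card (F × F) * (((0 + 1) + 0 + 1) + 1) + 1) :=
    HasCost.all _ _ fun a => ((HasCost.var _).not).or (HasCost.var _)
  refine HasCost.mono (((h1.and h2).and (h3.and h4))) ?_
  simp only [Fintype.card_prod, Fintype.card_fin]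
  ring_nf
  omega

open Classical in
lemma check_correct {F : Type*} [Field F] (d : ℕ) (x : F × F → Bool) :
    PolyFn F d x ↔ ∃ y : Guess F d → Bool, check F d (Sum.elim x y) = true := by
  constructor
  · rintro ⟨p, hp⟩
    let r : F → Fin (d + 1) → F := fun t =>
      Fin.reverseInduction (motive := fun _ => F) 0 (fun j v => p j + t * v)
    have hr1 : ∀ t, r t (Fin.last d) = 0 := fun t => by simp [r]
    have hr2 : ∀ t (j : Fin d), r t j.castSucc = p j + t * r t j.succ := fun t j => by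
      simp [r]
    have hr3 : ∀ t, r t 0 = evalP p t := fun t => horner t p (r t) (hr1 t) (hr2 t)
    refine ⟨Sum.elim (fun a => decide (a.2 = p a.1)) (fun a => decide (a.2.2 = r a.1 a.2.1)), ?_⟩
    unfold check
    simp only [Bool.and_eq_true, allB_iff, anyB_iff, decide_eq_true_eq, Sum.elim_inr, Sum.elim_inl,
      Bool.or_eq_true, Bool.not_eq_true', decide_eq_false_iff_not]
    refine ⟨⟨fun j => ⟨p j, rfl⟩, fun t => (hr1 t).symm⟩, ?_, ?_⟩
    · intro a
      by_cases h1 : a.2.2.1 = r a.1 a.2.1.succ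
      · by_cases h2 : a.2.2.2 = p a.2.1
        · right
          rw [hr2, ← h1, ← h2]
        · exact Or.inl (Or.inr h2)
      · exact Or.inl (Or.inl h1)
    · intro a
      by_cases h1 : a.2 = r a.1 0
      · right
        have := hp a.1
        rw [← hr3, ← h1] at this
        exact this
      · exact Or.inl h1
  · rintro ⟨y, hy⟩
    unfold check at hy
    simp only [Bool.and_eq_true, allB_iff, anyB_iff, Sum.elim_inr, Sum.elim_inl,
      Bool.or_eq_true, Bool.not_eq_true'] at hy
    obtain ⟨⟨h1, h2⟩, h3, h4⟩ := hy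
    choose p hp using h1
    let r : F → Fin (d + 1) → F := fun t =>
      Fin.reverseInduction (motive := fun _ => F) 0 (fun j v => p j + t * v)
    have hr1 : ∀ t, r t (Fin.last d) = 0 := fun t => by simp [r]
    have hr2 : ∀ t (j : Fin d), r t j.castSucc = p j + t * r t j.succ := fun t j => by
      simp [r]
    have hr3 : ∀ t, r t 0 = evalP p t := fun t => horner t p (r t) (hr1 t) (hr2 t)
    have hH : ∀ t (k : Fin (d + 1)), y (Sum.inr (t, k, r t k)) = true := by
      intro t k
      induction k using Fin.reverseInduction with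
      | last => rw [hr1]; exact h2 t
      | cast j ih =>
        rw [hr2]
        rcases h3 (t, j, r t j.succ, p j) with (h | h) | h
        · rw [ih] at h
          exact absurd h (by simp)
        · have := hp j
          rw [this] at h
          exact absurd h (by simp)
        · exact h
    refine ⟨p, fun t => ?_⟩
    rcases h4 (t, evalP p t) with h | h
    · have := hH t 0
      rw [hr3] at this
      rw [this] at h
      exact absurd h (by simp)
    · exact h

/-- The index set of the blocks of inputs of length `n`. -/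
abbrev Blk (n : ℕ) : Type :=
  {β : Fin (scales n) × Fin (n + 1) //
    5 ≤ (β.1 : ℕ) ∧ ((β.2 : ℕ) + 1) * 16 ^ (β.1 : ℕ) ≤ width n}

lemma blk_pos {n : ℕ} (β : Blk n) (k : Fld (β.1.1 : ℕ) × Fld (β.1.1 : ℕ)) :
    (β.1.1 : ℕ) * width n + (β.1.2 : ℕ) * 16 ^ (β.1.1 : ℕ) + (idx (β.1.1 : ℕ) k : ℕ) < n := by
  obtain ⟨⟨e, l⟩, h1, h2⟩ := β
  simp only at h1 h2 k ⊢
  have hw : scales n * width n ≤ n := Nat.mul_div_le _ _
  have hk : (idx (e : ℕ) k : ℕ) < 16 ^ (e : ℕ) := by
    rw [← fld_sq_card h1]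
    exact (idx (e : ℕ) k).2
  have h3 : ((e : ℕ) + 1) * width n ≤ scales n * width n := Nat.mul_le_mul_right _ e.2
  have h4 : ((e : ℕ) + 1) * width n = (e : ℕ) * width n + width n := by ring
  have h5 : ((l : ℕ) + 1) * 16 ^ (e : ℕ) = (l : ℕ) * 16 ^ (e : ℕ) + 16 ^ (e : ℕ) := by ring
  omega

/-- All guesses. -/
abbrev AllGuess (n : ℕ) : Type :=
  Σ β : Blk n, Guess (Fld (β.1.1 : ℕ)) (2 ^ (β.1.1 : ℕ) / (β.1.1 : ℕ))

/-- The variables of one block. -/
noncomputable def varMap {n : ℕ} (β : Blk n) :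
    (Fld (β.1.1 : ℕ) × Fld (β.1.1 : ℕ)) ⊕
      Guess (Fld (β.1.1 : ℕ)) (2 ^ (β.1.1 : ℕ) / (β.1.1 : ℕ)) → Fin n ⊕ AllGuess n
  | Sum.inl k => Sum.inl ⟨_, blk_pos β k⟩
  | Sum.inr w => Sum.inr ⟨β, w⟩

/-- The verifier. -/
noncomputable def verify (n : ℕ) (z : Fin n ⊕ AllGuess n → Bool) : Bool :=
  anyB fun β : Blk n => check (Fld (β.1.1 : ℕ)) (2 ^ (β.1.1 : ℕ) / (β.1.1 : ℕ)) (z ∘ varMap β)

lemma blk_small {n : ℕ} (β : Blk n) : Fintype.card (Fld (β.1.1 : ℕ)) ≤ n ∧
    2 ^ (β.1.1 : ℕ) / (β.1.1 : ℕ) ≤ n := by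
  obtain ⟨⟨e, l⟩, h1, h2⟩ := β
  simp only at h1 h2 ⊢
  rw [fld_card h1]
  have h3 : width n ≤ n := Nat.div_le_self _ _
  have h4 : 16 ^ (e : ℕ) ≤ ((l : ℕ) + 1) * 16 ^ (e : ℕ) := Nat.le_mul_of_pos_left _ (by omega)
  have h5 : 4 ^ (e : ℕ) ≤ 16 ^ (e : ℕ) := Nat.pow_le_pow_left (by norm_num) _
  have h6 : 2 ^ (e : ℕ) ≤ 16 ^ (e : ℕ) := Nat.pow_le_pow_left (by norm_num) _
  have h7 : 2 ^ (e : ℕ) / (e : ℕ) ≤ 2 ^ (e : ℕ) := Nat.div_le_self _ _
  constructor <;> omega

lemma card_blk (n : ℕ) : Fintype.card (Blk n) ≤ (n + 1) ^ 2 := by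
  calc Fintype.card (Blk n) ≤ Fintype.card (Fin (scales n) × Fin (n + 1)) :=
        Fintype.card_subtype_le _
    _ = scales n * (n + 1) := by simp
    _ ≤ (n + 1) * (n + 1) := by
        apply Nat.mul_le_mul_right
        unfold scales
        have := Nat.log_le_self 2 n
        omega
    _ = (n + 1) ^ 2 := by ring

lemma card_allGuess (n : ℕ) : Fintype.card (AllGuess n) ≤ 2 * (n + 1) ^ 5 := by
  rw [Fintype.card_sigma]
  calc ∑ β : Blk n, Fintype.card (Guess (Fld (β.1.1 : ℕ)) (2 ^ (β.1.1 : ℕ) / (β.1.1 : ℕ)))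
      ≤ ∑ β : Blk n, 2 * (n + 1) ^ 3 := by
        apply Finset.sum_le_sum
        intro β _
        obtain ⟨h1, h2⟩ := blk_small β
        simp only [Fintype.card_sum, Fintype.card_prod, Fintype.card_fin]
        set q := Fintype.card (Fld (β.1.1 : ℕ))
        set d := 2 ^ (β.1.1 : ℕ) / (β.1.1 : ℕ)
        have h3 : d * q ≤ (n + 1) * (n + 1) := Nat.mul_le_mul (by omega) (by omega)
        have h4 : q * ((d + 1) * q) ≤ (n + 1) * ((n + 1) * (n + 1)) :=
          Nat.mul_le_mul (by omega) (Nat.mul_le_mul (by omega) (by omega))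
        have h5 : (n + 1) * (n + 1) ≤ (n + 1) ^ 3 := by
          calc (n + 1) * (n + 1) = (n + 1) ^ 2 := by ring
            _ ≤ (n + 1) ^ 3 := Nat.pow_le_pow_right (by omega) (by norm_num)
        have h6 : (n + 1) * ((n + 1) * (n + 1)) = (n + 1) ^ 3 := by ring
        omega
    _ = Fintype.card (Blk n) * (2 * (n + 1) ^ 3) := by simp
    _ ≤ (n + 1) ^ 2 * (2 * (n + 1) ^ 3) := Nat.mul_le_mul_right _ (card_blk n)
    _ = 2 * (n + 1) ^ 5 := by ring

lemma verify_cost (n : ℕ) : HasCost (verify n) (30 * (n + 1) ^ 6) := by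
  have h1 : ∀ β : Blk n, HasCost (fun z : Fin n ⊕ AllGuess n → Bool =>
      check (Fld (β.1.1 : ℕ)) (2 ^ (β.1.1 : ℕ) / (β.1.1 : ℕ)) (z ∘ varMap β))
      (20 * (n + 1) ^ 4) := by
    intro β
    refine ((check_cost (Fld (β.1.1 : ℕ)) (2 ^ (β.1.1 : ℕ) / (β.1.1 : ℕ))).rename
      (varMap β)).mono ?_
    obtain ⟨h1, h2⟩ := blk_small β
    set q := Fintype.card (Fld (β.1.1 : ℕ))
    set d := 2 ^ (β.1.1 : ℕ) / (β.1.1 : ℕ)
    have g1 : d * (q + 2) ≤ (n + 1) * (2 * (n + 1)) := Nat.mul_le_mul (by omega) (by omega)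
    have g2 : q * (d * (q * q)) ≤ (n + 1) * ((n + 1) * ((n + 1) * (n + 1))) :=
      Nat.mul_le_mul (by omega) (Nat.mul_le_mul (by omega)
        (Nat.mul_le_mul (by omega) (by omega)))
    have g3 : q * q ≤ (n + 1) * (n + 1) := Nat.mul_le_mul (by omega) (by omega)
    have g4 : (n + 1) * ((n + 1) * ((n + 1) * (n + 1))) = (n + 1) ^ 4 := by ring
    have g5 : (n + 1) * (2 * (n + 1)) = 2 * (n + 1) ^ 2 := by ring
    have g6 : (n + 1) * (n + 1) = (n + 1) ^ 2 := by ring
    have g7 : (n + 1) ^ 2 ≤ (n + 1) ^ 4 := Nat.pow_le_pow_right (by omega) (by norm_num)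
    have g8 : (n + 1) ^ 1 ≤ (n + 1) ^ 4 := Nat.pow_le_pow_right (by omega) (by norm_num)
    have g9 : 1 ≤ (n + 1) ^ 4 := Nat.one_le_pow _ _ (by omega)
    rw [pow_one] at g8
    omega
  refine (HasCost.any _ _ h1).mono ?_
  have h2 := card_blk n
  calc Fintype.card (Blk n) * (20 * (n + 1) ^ 4 + 1) + 1
      ≤ (n + 1) ^ 2 * (20 * (n + 1) ^ 4 + 1) + 1 :=
        Nat.add_le_add_right (Nat.mul_le_mul_right _ h2) _
    _ ≤ (n + 1) ^ 2 * (20 * (n + 1) ^ 4 + (n + 1) ^ 4) + (n + 1) ^ 6 := by
        have h3 : 1 ≤ (n + 1) ^ 4 := Nat.one_le_pow _ _ (by omega)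
        have h4 : 1 ≤ (n + 1) ^ 6 := Nat.one_le_pow _ _ (by omega)
        exact Nat.add_le_add (Nat.mul_le_mul_left _ (by omega)) h4
    _ = 22 * (n + 1) ^ 6 := by ring
    _ ≤ _ := Nat.mul_le_mul_right _ (by norm_num)

lemma verify_correct (n : ℕ) (x : Fin n → Bool) :
    lang n x ↔ ∃ y : AllGuess n → Bool, verify n (Sum.elim x y) = true := by
  have hblk : ∀ β : Blk n, ∀ y : AllGuess n → Bool,
      (Sum.elim x y) ∘ varMap β =
        Sum.elim (block x (β.1.1 : ℕ) (β.1.2 : ℕ)) (fun w => y ⟨β, w⟩) := by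
    intro β y
    funext a
    rcases a with k | w
    · simp only [Function.comp, varMap, Sum.elim_inl]
      unfold block get
      rw [dif_pos (blk_pos β k)]
    · rfl
  unfold verify
  constructor
  · rintro ⟨e, l, h1, h2, h3, h4⟩
    have hl : l < n + 1 := by
      have h5 : width n ≤ n := Nat.div_le_self _ _
      have h6 : l + 1 ≤ (l + 1) * 16 ^ e := Nat.le_mul_of_pos_right _ (by positivity)
      omega
    let β : Blk n := ⟨(⟨e, h2⟩, ⟨l, hl⟩), h1, h3⟩
    obtain ⟨y0, hy0⟩ := (check_correct _ _).1 h4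
    classical
    let y : AllGuess n → Bool := fun a => decide (∃ w, a = ⟨β, w⟩ ∧ y0 w = true)
    refine ⟨y, (anyB_iff _).2 ⟨β, ?_⟩⟩
    rw [hblk β y]
    have hy : (fun w => y ⟨β, w⟩) = y0 := by
      funext w
      simp only [y]
      rw [Bool.eq_iff_iff, decide_eq_true_iff]
      constructor
      · rintro ⟨w', h5, h6⟩
        have h7 : w = w' := eq_of_heq (Sigma.mk.inj h5).2
        rw [h7]; exact h6
      · intro h5
        exact ⟨w, rfl, h5⟩
    rw [hy]
    exact hy0
  · rintro ⟨y, hy⟩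
    obtain ⟨β, hβ⟩ := (anyB_iff _).1 hy
    rw [hblk β y] at hβ
    exact ⟨_, _, β.2.1, β.1.1.2, β.2.2, (check_correct _ _).2 ⟨_, hβ⟩⟩

/-- The language lies in `NP/Poly`. -/
theorem lang_inNPPoly : InNPPoly lang := by
  refine ⟨30 * (Polynomial.X + 1) ^ 6, fun n => ?_⟩
  have hev : (30 * (Polynomial.X + 1) ^ 6 : Polynomial ℕ).eval n = 30 * (n + 1) ^ 6 := by
    simp
  rw [hev]
  let W := AllGuess n
  let eqv : W ≃ Fin (Fintype.card W) := Fintype.equivFin W
  have hW : Fintype.card W ≤ 30 * (n + 1) ^ 6 := by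
    have h1 := card_allGuess n
    have h2 : (n + 1) ^ 5 ≤ (n + 1) ^ 6 := Nat.pow_le_pow_right (by omega) (by norm_num)
    change Fintype.card (AllGuess n) ≤ _
    omega
  let φ : Fin n ⊕ W → Fin (n + Fintype.card W) :=
    Sum.elim (Fin.castAdd _) (fun w => Fin.natAdd n (eqv w))
  obtain ⟨L, h1, h2, h3⟩ := (verify_cost n).rename φ
  obtain ⟨C, hC⟩ := h1.toCircuit
  obtain ⟨o, ho⟩ := hC _ h3
  refine ⟨Fintype.card W, L.length, hW, h2, C, o, fun x => ?_⟩
  rw [verify_correct]
  have hφ : ∀ y : Fin (Fintype.card W) → Bool,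
      (Fin.append x y) ∘ φ = Sum.elim x (y ∘ eqv) := by
    intro y
    funext a
    rcases a with i | w
    · simp [φ]
    · simp [φ]
  constructor
  · rintro ⟨y, hy⟩
    refine ⟨y ∘ eqv.symm, ?_⟩
    rw [ho, hφ]
    have : (y ∘ eqv.symm) ∘ eqv = y := by funext w; simp
    rw [this]
    exact hy
  · rintro ⟨y, hy⟩
    rw [ho, hφ] at hy
    exact ⟨_, hy⟩

end Pool.Agent.helper38.Neg
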