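import Pool.Agent.helper38.Neg.Crit

/-!
The polynomial function (Andreev) and its monotone complexity.
-/

namespace Pool.Agent.helper38.Neg

open Finset

variable {F : Type*} [Field F] [Fintype F] [DecidableEq F]

/-- The value at `t` of the polynomial with coefficients `p`. -/
def evalP {d : ℕ} (p : Fin d → F) (t : F) : F := ∑ j, p j * t ^ (j : ℕ)

/-- The relation `x` contains the graph of a polynomial of degree less than `d`. -/
def PolyFn (F : Type*) [Field F] (d : ℕ) (x : F × F → Bool) : Prop :=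
  ∃ p : Fin d → F, ∀ t, x (t, evalP p t) = true

lemma polyFn_mono (d : ℕ) {x y : F × F → Bool} (h : x ≤ y) (hx : PolyFn F d x) :
    PolyFn F d y := by
  obtain ⟨p, hp⟩ := hx
  refine ⟨p, fun t => ?_⟩
  have := h (t, evalP p t)
  rw [hp t] at this
  exact le_antisymm (by cases y (t, evalP p t) <;> simp) this

lemma polyFn_zero (d : ℕ) : ¬ PolyFn F d (fun _ => false) := by
  rintro ⟨p, hp⟩
  exact absurd (hp 0) (by simp)

lemma card_agree_one {b : ℕ} (t v : F) :
    (univ.filter fun p : Fin (b + 1) → F => evalP p t = v).card ≤ Fintype.card F ^ b := by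
  have h1 : (univ.filter fun p : Fin (b + 1) → F => evalP p t = v).card ≤
      (univ : Finset (Fin b → F)).card := by
    apply Finset.card_le_card_of_injOn (fun p => Fin.tail p) (fun _ _ => by simp)
    intro p hp p' hp' htail
    simp only [coe_filter, mem_univ, true_and, Set.mem_ofPred_eq] at hp hp'
    have htail' : ∀ j : Fin b, p j.succ = p' j.succ := fun j => congrFun htail j
    have e1 : p 0 = p' 0 := by
      have e2 : evalP p t = evalP p' t := by rw [hp, hp']
      unfold evalP at e2
      rw [Fin.sum_univ_succ, Fin.sum_univ_succ] at e2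
      simp only [htail'] at e2
      have e3 := add_right_cancel e2
      simpa using e3
    funext j
    refine Fin.cases e1 (fun j => htail' j) j
  refine h1.trans ?_
  simp

lemma evalP_inj {d : ℕ} {p p' : Fin d → F} (S : Finset F) (hS : S.card = d)
    (h : ∀ t ∈ S, evalP p t = evalP p' t) : p = p' := by
  classical
  let P : (Fin d → F) → Polynomial F := fun p => ∑ j : Fin d, Polynomial.C (p j) * Polynomial.X ^ (j : ℕ)
  have hev : ∀ (p : Fin d → F) t, (P p).eval t = evalP p t := by
    intro p t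
    simp [P, evalP, Polynomial.eval_finsetSum]
  have hdeg : ∀ p : Fin d → F, (P p).degree < S.card := by
    intro p
    rw [hS]
    exact Polynomial.degree_sum_fin_lt p
  have heq : P p = P p' := by
    apply Polynomial.eq_of_degrees_lt_of_eval_finset_eq S (hdeg p) (hdeg p')
    intro t ht
    rw [hev, hev]
    exact h t ht
  have hcoef : ∀ (p : Fin d → F) (j : Fin d), (P p).coeff j = p j := by
    intro p j
    simp only [P, Polynomial.finsetSum_coeff, Polynomial.coeff_C_mul, Polynomial.coeff_X_pow]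
    rw [Finset.sum_eq_single j]
    · simp
    · intro i _ hij
      have : (j : ℕ) ≠ (i : ℕ) := fun h => hij (Fin.ext h.symm)
      simp [this]
    · simp
  funext j
  rw [← hcoef p j, ← hcoef p' j, heq]

lemma card_agree_many {d : ℕ} (M : Finset (F × F)) (hM : M.card = d) :
    (univ.filter fun p : Fin d → F => ∀ i ∈ M, i.2 = evalP p i.1).card ≤ 1 := by
  classical
  rw [Finset.card_le_one]
  intro p hp p' hp'
  simp only [mem_filter, mem_univ, true_and] at hp hp'
  apply evalP_inj (M.image Prod.fst)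
  · rw [Finset.card_image_of_injOn, hM]
    intro i hi j hj hij
    have h1 := hp i hi
    have h2 := hp j hj
    have hij' : i.1 = j.1 := hij
    exact Prod.ext hij' (by rw [h1, h2, hij'])
  · intro t ht
    obtain ⟨i, hi, rfl⟩ := Finset.mem_image.1 ht
    rw [← hp i hi, ← hp' i hi]

lemma card_labels {ι : Type*} [Fintype ι] [DecidableEq ι] {N : ℕ} (S : Finset ι)
    (T : Finset (Fin N)) :
    (Fintype.piFinset fun i : ι => if i ∈ S then T else univ).card * N ^ S.card =
      T.card ^ S.card * N ^ Fintype.card ι := by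
  rw [Fintype.card_piFinset]
  have h1 : ∀ i : ι, (if i ∈ S then T else univ : Finset (Fin N)).card =
      if i ∈ S then T.card else N := by
    intro i
    split_ifs <;> simp
  simp_rw [h1]
  rw [Finset.prod_ite]
  simp only [Finset.prod_const]
  have h2 : (univ.filter fun i => i ∈ S).card = S.card := by
    congr 1
    ext; simp
  have h3 : (univ.filter fun i => i ∉ S).card + S.card = Fintype.card ι := by
    rw [← h2, add_comm]
    exact Finset.card_filter_add_card_filter_not (s := (univ : Finset ι)) (fun i => i ∈ S)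
  rw [h2, mul_assoc, ← pow_add, h3]

/-- Monotone lower bound for the polynomial function, in terms of free parameters. -/
theorem poly_lower {a b N q : ℕ} (ha : 1 ≤ a) (hb : 1 ≤ b) (hq : Fintype.card F = q)
    (hN : 1 ≤ N) (hneg : 2 * (q ^ (b + 1) * (N - 1) ^ q) ≤ N ^ q)
    {L : List ((F × F → Bool) → Bool)} (hL : MonoChain L) {f : (F × F → Bool) → Bool}
    (hf : f ∈ L) (hff : ∀ y, f y = true ↔ PolyFn F (b + 1) y) :
    N ^ (a + 1) ≤ 2 * (L.length * b ^ (a + 1)) ∨
      q ^ (b + 1) ≤ L.length * a ^ (b + 1) + a * q ^ b := by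
  classical
  obtain ⟨D, E, hD1, hD2, hE1, hE2, hor⟩ := crit' ha hb hL hf
  rcases hor with hE | ⟨I, hI, hor⟩
  · left
    have : NeZero N := ⟨by omega⟩
    set Q := Fintype.card (F × F) with hQ
    let A : Finset (F × F) → Finset (F × F → Fin N) := fun c =>
      Fintype.piFinset fun i => if i ∈ c then {0} else univ
    let B : (Fin (b + 1) → F) → Finset (F × F → Fin N) := fun p =>
      Fintype.piFinset fun i =>
        if i ∈ (univ.image fun t : F => (t, evalP p t)) then (univ.erase 0) else univ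
    have hcov : (univ : Finset (F × F → Fin N)) ⊆ E.biUnion A ∪ univ.biUnion B := by
      intro w _
      by_cases hw : ∀ c ∈ E, SomeOn c (fun i => decide (w i ≠ 0))
      · obtain ⟨p, hp⟩ := (hff _).1 (hE _ hw)
        refine Finset.mem_union_right _ (Finset.mem_biUnion.2 ⟨p, mem_univ _, ?_⟩)
        rw [Fintype.mem_piFinset]
        intro i
        split_ifs with hi
        · obtain ⟨t, _, rfl⟩ := Finset.mem_image.1 hi
          have := hp t
          simpa using this
        · exact mem_univ _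
      · push Not at hw
        obtain ⟨c, hc, hcw⟩ := hw
        refine Finset.mem_union_left _ (Finset.mem_biUnion.2 ⟨c, hc, ?_⟩)
        rw [Fintype.mem_piFinset]
        intro i
        split_ifs with hi
        · by_contra hne
          apply hcw
          refine ⟨i, hi, ?_⟩
          simpa using hne
        · exact mem_univ _
    have hcardU : (univ : Finset (F × F → Fin N)).card = N ^ Q := by
      rw [Finset.card_univ, Fintype.card_fun, Fintype.card_fin]
    have hA : ∀ c ∈ E, (A c).card * N ^ (a + 1) = N ^ Q := by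
      intro c hc
      have := card_labels (N := N) c {0}
      rw [hE1 c hc, Finset.card_singleton, one_pow, one_mul] at this
      exact this
    have hB : ∀ p, (B p).card * N ^ q = (N - 1) ^ q * N ^ Q := by
      intro p
      have h1 := card_labels (N := N) (univ.image fun t : F => (t, evalP p t)) (univ.erase 0)
      have h2 : (univ.image fun t : F => (t, evalP p t)).card = q := by
        rw [Finset.card_image_of_injective _ (fun t t' h => (Prod.ext_iff.1 h).1),
          Finset.card_univ, hq]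
      rw [h2] at h1
      rw [h1]
      congr 2
      simp
    have hsum : N ^ Q ≤ ∑ c ∈ E, (A c).card + ∑ p, (B p).card := by
      rw [← hcardU]
      refine (Finset.card_le_card hcov).trans ((Finset.card_union_le _ _).trans ?_)
      exact Nat.add_le_add Finset.card_biUnion_le Finset.card_biUnion_le
    have hmul : N ^ Q * (N ^ (a + 1) * N ^ q) ≤
        N ^ Q * (E.card * N ^ q + q ^ (b + 1) * (N - 1) ^ q * N ^ (a + 1)) := by
      calc N ^ Q * (N ^ (a + 1) * N ^ q)
          ≤ (∑ c ∈ E, (A c).card + ∑ p, (B p).card) * (N ^ (a + 1) * N ^ q) :=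
            Nat.mul_le_mul_right _ hsum
        _ = (∑ c ∈ E, (A c).card * N ^ (a + 1)) * N ^ q +
            (∑ p, (B p).card * N ^ q) * N ^ (a + 1) := by
            rw [← Finset.sum_mul, ← Finset.sum_mul]; ring
        _ = (∑ c ∈ E, N ^ Q) * N ^ q +
            (∑ p : Fin (b + 1) → F, (N - 1) ^ q * N ^ Q) * N ^ (a + 1) := by
            rw [Finset.sum_congr rfl hA, Finset.sum_congr rfl (fun p _ => hB p)]
        _ = N ^ Q * (E.card * N ^ q + q ^ (b + 1) * (N - 1) ^ q * N ^ (a + 1)) := by
            rw [Finset.sum_const, Finset.sum_const, Finset.card_univ, Fintype.card_fun,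
              Fintype.card_fin, hq, smul_eq_mul, smul_eq_mul]
            ring
    have hpos : 0 < N ^ Q := Nat.pow_pos (by omega)
    have h1 := Nat.le_of_mul_le_mul_left hmul hpos
    have h2 : 2 * (N ^ (a + 1) * N ^ q) ≤ 2 * (E.card * N ^ q) + N ^ q * N ^ (a + 1) := by
      calc 2 * (N ^ (a + 1) * N ^ q)
          ≤ 2 * (E.card * N ^ q + q ^ (b + 1) * (N - 1) ^ q * N ^ (a + 1)) :=
            Nat.mul_le_mul_left _ h1
        _ = 2 * (E.card * N ^ q) + 2 * (q ^ (b + 1) * (N - 1) ^ q) * N ^ (a + 1) := by ring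
        _ ≤ _ := Nat.add_le_add_left (Nat.mul_le_mul_right _ hneg) _
    have h3 : N ^ (a + 1) * N ^ q ≤ (2 * E.card) * N ^ q := by
      have : N ^ q * N ^ (a + 1) = N ^ (a + 1) * N ^ q := mul_comm _ _
      have h4 : 2 * (E.card * N ^ q) = (2 * E.card) * N ^ q := by ring
      omega
    have h4 : N ^ (a + 1) ≤ 2 * E.card :=
      Nat.le_of_mul_le_mul_right h3 (Nat.pow_pos (by omega))
    exact h4.trans (Nat.mul_le_mul_left _ hE2)
  · right
    have hcov : (univ : Finset (Fin (b + 1) → F)) ⊆
        I.biUnion (fun i => univ.filter fun p : Fin (b + 1) → F => evalP p i.1 = i.2) ∪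
        D.biUnion (fun M => univ.filter fun p : Fin (b + 1) → F =>
          ∀ i ∈ M, i.2 = evalP p i.1) := by
      intro p _
      have hp : f (fun i => decide (i.2 = evalP p i.1)) = true := by
        rw [hff]
        exact ⟨p, fun t => by simp⟩
      rcases hor _ hp with ⟨i, hi, hx⟩ | ⟨M, hM, hMx⟩
      · refine Finset.mem_union_left _ (Finset.mem_biUnion.2 ⟨i, hi, ?_⟩)
        simp only [mem_filter, mem_univ, true_and]
        have : i.2 = evalP p i.1 := by simpa using hx
        exact this.symm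
      · refine Finset.mem_union_right _ (Finset.mem_biUnion.2 ⟨M, hM, ?_⟩)
        simp only [mem_filter, mem_univ, true_and]
        intro i hi
        have := hMx i hi
        simpa using this
    have h1 := Finset.card_le_card hcov
    rw [Finset.card_univ, Fintype.card_fun, Fintype.card_fin, hq] at h1
    refine h1.trans ((Finset.card_union_le _ _).trans ?_)
    rw [add_comm]
    refine Nat.add_le_add ?_ ?_
    · refine Finset.card_biUnion_le.trans ?_
      calc ∑ M ∈ D, (univ.filter fun p : Fin (b + 1) → F => ∀ i ∈ M, i.2 = evalP p i.1).card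
          ≤ ∑ M ∈ D, 1 := Finset.sum_le_sum (fun M hM => card_agree_many M (hD1 M hM))
        _ = D.card := by simp
        _ ≤ _ := hD2
    · refine Finset.card_biUnion_le.trans ?_
      calc ∑ i ∈ I, (univ.filter fun p : Fin (b + 1) → F => evalP p i.1 = i.2).card
          ≤ ∑ i ∈ I, q ^ b := Finset.sum_le_sum (fun i _ => by
            rw [← hq]; exact card_agree_one i.1 i.2)
        _ = I.card * q ^ b := by simp
        _ ≤ a * q ^ b := Nat.mul_le_mul_right _ hI

lemma two_mul_pow_le (N : ℕ) (hN : 1 ≤ N) : 2 * (N - 1) ^ N ≤ N ^ N := by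
  obtain ⟨m, rfl⟩ : ∃ m, N = m + 1 := ⟨N - 1, by omega⟩
  simp only [Nat.add_sub_cancel]
  -- (m+1)^(m+1) ≥ m^(m+1) + (m+1) m^m ≥ 2 m^(m+1)
  have h1 : ∀ k : ℕ, m ^ (k + 1) + (k + 1) * m ^ k ≤ (m + 1) ^ (k + 1) := by
    intro k
    induction k with
    | zero => simp
    | succ k ih =>
      calc m ^ (k + 1 + 1) + (k + 1 + 1) * m ^ (k + 1)
          = (m ^ (k + 1) + (k + 1) * m ^ k) * m + m ^ (k + 1) := by ring
        _ ≤ (m ^ (k + 1) + (k + 1) * m ^ k) * m + (m ^ (k + 1) + (k + 1) * m ^ k) := by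
            apply Nat.add_le_add_left
            exact Nat.le_add_right _ _
        _ = (m ^ (k + 1) + (k + 1) * m ^ k) * (m + 1) := by ring
        _ ≤ (m + 1) ^ (k + 1) * (m + 1) := Nat.mul_le_mul_right _ ih
        _ = (m + 1) ^ (k + 1 + 1) := by ring
  have h2 := h1 m
  calc 2 * m ^ (m + 1) = m ^ (m + 1) + m * m ^ m := by ring
    _ ≤ m ^ (m + 1) + (m + 1) * m ^ m := by
        apply Nat.add_le_add_left
        exact Nat.mul_le_mul_right _ (Nat.le_succ m)
    _ ≤ _ := h2

lemma neg_bound {N q m : ℕ} (hN : 1 ≤ N) (hm : m * N ≤ q) :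
    2 ^ m * (N - 1) ^ q ≤ N ^ q := by
  obtain ⟨r, rfl⟩ : ∃ r, q = m * N + r := ⟨q - m * N, by omega⟩
  calc 2 ^ m * (N - 1) ^ (m * N + r) = (2 * (N - 1) ^ N) ^ m * (N - 1) ^ r := by
        rw [pow_add, mul_pow, ← pow_mul, Nat.mul_comm N m]; ring
    _ ≤ (N ^ N) ^ m * N ^ r := by
        apply Nat.mul_le_mul
        · exact Nat.pow_le_pow_left (two_mul_pow_le N hN) m
        · exact Nat.pow_le_pow_left (Nat.sub_le N 1) r
    _ = N ^ (m * N + r) := by rw [← pow_mul, pow_add, Nat.mul_comm N m]

/-- Monotone lower bound: over a field with `4 ^ e` elements, with degree bound `2 ^ e / e`. -/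
theorem poly_lower_exp {e : ℕ} (he : 5 ≤ e) (hF : Fintype.card F = 4 ^ e)
    {L : List ((F × F → Bool) → Bool)} (hL : MonoChain L) {f : (F × F → Bool) → Bool}
    (hf : f ∈ L) (hff : ∀ y, f y = true ↔ PolyFn F (2 ^ e / e) y) :
    2 ^ (2 ^ (e - 1)) ≤ L.length := by
  have hepos : 0 < e := by omega
  set d := 2 ^ e / e with hd
  have hed : e * d ≤ 2 ^ e := Nat.mul_div_le _ _
  have hed2 : 2 ^ e < e * (d + 1) := by
    have := Nat.lt_mul_div_succ (2 ^ e) hepos
    exact this
  have he2 : e ≤ 2 ^ (e - 1) := by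
    have h1 : e - 1 < 2 ^ (e - 1) := Nat.lt_two_pow_self
    omega
  have he3 : 2 ^ e = 2 * 2 ^ (e - 1) := by
    rw [← pow_succ']; congr 1; omega
  have hd2 : 2 ≤ d := by
    rw [hd, Nat.le_div_iff_mul_le hepos]
    omega
  obtain ⟨b, hb⟩ : ∃ b, d = b + 1 := ⟨d - 1, by omega⟩
  have hb1 : 1 ≤ b := by omega
  have h4 : (4 : ℕ) ^ e = 2 ^ e * 2 ^ e := by
    rw [← mul_pow]; norm_num
  have ha1 : 1 ≤ 2 ^ e := Nat.one_le_two_pow
  have ha32 : 32 ≤ 2 ^ e := by
    calc 32 = 2 ^ 5 := by norm_num
      _ ≤ 2 ^ e := Nat.pow_le_pow_right (by norm_num) he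
  -- the negative condition
  have hneg : 2 * ((4 ^ e) ^ (b + 1) * (2 * d - 1) ^ (4 ^ e)) ≤ (2 * d) ^ (4 ^ e) := by
    have hm : (1 + 2 * e * d) * (2 * d) ≤ 4 ^ e := by
      have h1 : e * ((1 + 2 * e * d) * (2 * d)) ≤ e * 4 ^ e := by
        calc e * ((1 + 2 * e * d) * (2 * d)) = 2 * (e * d) + 4 * ((e * d) * (e * d)) := by ring
          _ ≤ 2 * 2 ^ e + 4 * (2 ^ e * 2 ^ e) := by
              apply Nat.add_le_add
              · exact Nat.mul_le_mul_left _ hed
              · exact Nat.mul_le_mul_left _ (Nat.mul_le_mul hed hed)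
          _ ≤ 2 ^ e * 2 ^ e + 4 * (2 ^ e * 2 ^ e) := by
              apply Nat.add_le_add_right
              exact Nat.mul_le_mul_right _ (by omega)
          _ = 5 * 4 ^ e := by rw [h4]; ring
          _ ≤ e * 4 ^ e := Nat.mul_le_mul_right _ he
      exact Nat.le_of_mul_le_mul_left h1 hepos
    have h2 := neg_bound (N := 2 * d) (q := 4 ^ e) (m := 1 + 2 * e * d) (by omega) hm
    calc 2 * ((4 ^ e) ^ (b + 1) * (2 * d - 1) ^ (4 ^ e))
        = 2 ^ (1 + 2 * e * d) * (2 * d - 1) ^ (4 ^ e) := by
          rw [← hb, show (4 : ℕ) = 2 ^ 2 by norm_num, ← pow_mul, ← pow_mul, pow_add]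
          ring_nf
      _ ≤ _ := h2
  have hmain := poly_lower (F := F) (a := 2 ^ e) (b := b) (N := 2 * d) (q := 4 ^ e) ha1 hb1 hF
    (by omega) hneg hL hf (by rw [← hb]; exact hff)
  have hle : 2 ^ (e - 1) ≤ 2 ^ e := Nat.pow_le_pow_right (by norm_num) (by omega)
  rcases hmain with h | h
  · have h1 : (2 ^ (2 ^ e)) * (2 * b ^ (2 ^ e + 1)) ≤ L.length * (2 * b ^ (2 ^ e + 1)) := by
      calc (2 ^ (2 ^ e)) * (2 * b ^ (2 ^ e + 1)) = (2 * b) ^ (2 ^ e + 1) := by
            rw [mul_pow, pow_succ 2 (2 ^ e)]; ring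
        _ ≤ (2 * d) ^ (2 ^ e + 1) := Nat.pow_le_pow_left (by omega) _
        _ ≤ _ := h
        _ = _ := by ring
    have h2 := Nat.le_of_mul_le_mul_right h1 (Nat.mul_pos (by norm_num)
      (Nat.pow_pos (by omega)))
    exact (Nat.pow_le_pow_right (by norm_num) hle).trans h2
  · set A := 2 ^ e with hA
    -- A^(2d) ≤ t A^d + A * A^(2b)
    have h1 : (4 ^ e) ^ (b + 1) = A ^ (b + 1) * A ^ (b + 1) := by rw [h4, mul_pow]
    have h2 : 2 * (A * (4 ^ e) ^ b) ≤ (4 ^ e) ^ (b + 1) := by
      rw [pow_succ, h4]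
      calc 2 * (A * (A * A) ^ b) = (2 * A) * (A * A) ^ b := by ring
        _ ≤ (A * A) * (A * A) ^ b := Nat.mul_le_mul_right _ (Nat.mul_le_mul_right _ (by omega))
        _ = _ := by ring
    have h3 : A ^ (b + 1) * A ^ (b + 1) ≤ (2 * L.length) * A ^ (b + 1) := by
      rw [← h1]
      have : (2 * L.length) * A ^ (b + 1) = 2 * (L.length * A ^ (b + 1)) := by ring
      rw [this]
      omega
    have h5 : A ^ (b + 1) ≤ 2 * L.length :=
      Nat.le_of_mul_le_mul_right h3 (Nat.pow_pos (by omega))
    have h6 : 2 * 2 ^ (2 ^ (e - 1)) ≤ A ^ (b + 1) := by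
      rw [hA, ← hb, ← pow_mul, ← pow_succ']
      apply Nat.pow_le_pow_right (by norm_num)
      have : e * (d + 1) = e * d + e := by ring
      omega
    omega

end Pool.Agent.helper38.Neg
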