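import Pool.Agent.helper38.Neg.Defs

/-!
Walking up through negative blocks: a circuit with few NOT-vectors that computes an OR of many
disjoint copies of a monotone function gives a monotone computation of one copy.
-/

namespace Pool.Agent.helper38.Neg

/-- Functions available after the list `L` has been computed: members, constants, variables. -/
def Avail {ι : Type*} (L : List ((ι → Bool) → Bool)) (f : (ι → Bool) → Bool) : Prop :=
  f ∈ L ∨ (∃ b, f = fun _ => b) ∨ (∃ i, f = fun y => y i)

/-- Monotone straight line computations. -/
inductive MonoChain {ι : Type*} : List ((ι → Bool) → Bool) → Prop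
  | nil : MonoChain []
  | and {L u v} : MonoChain L → Avail L u → Avail L v →
      MonoChain ((fun y => u y && v y) :: L)
  | or {L u v} : MonoChain L → Avail L u → Avail L v →
      MonoChain ((fun y => u y || v y) :: L)

lemma Avail.mono {ι : Type*} {L L' : List ((ι → Bool) → Bool)} (h : ∀ f ∈ L, f ∈ L')
    {f : (ι → Bool) → Bool} (hf : Avail L f) : Avail L' f := by
  rcases hf with hf | hf | hf
  · exact Or.inl (h f hf)
  · exact Or.inr (Or.inl hf)
  · exact Or.inr (Or.inr hf)

variable {n s : ℕ}

lemma conv {n s : ℕ} (C : Circuit n s) {x y w : Fin n → Bool} (hxy : x ≤ y) (hyw : y ≤ w)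
    (h : C.notVals x = C.notVals w) :
    C.notVals y = C.notVals x ∧ C.val x ≤ C.val y ∧ C.val y ≤ C.val w := by
  induction C with
  | nil => exact ⟨rfl, hxy, hyw⟩
  | @snoc s C g ih =>
    have hsn : ∀ (u v : Fin (n + s) → Bool) (a b : Bool), u ≤ v → a ≤ b →
        (Fin.snoc (α := fun _ => Bool) u a : Fin (n + s + 1) → Bool) ≤
          Fin.snoc (α := fun _ => Bool) v b := by
      intro u v a b huv hab i
      refine Fin.lastCases ?_ (fun j => ?_) i
      · simpa using hab
      · simpa using huv j
    cases g with
    | const b =>
      obtain ⟨h1, h2, h3⟩ := ih h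
      exact ⟨h1, hsn _ _ _ _ h2 le_rfl, hsn _ _ _ _ h3 le_rfl⟩
    | and i j =>
      obtain ⟨h1, h2, h3⟩ := ih h
      refine ⟨h1, hsn _ _ _ _ h2 ?_, hsn _ _ _ _ h3 ?_⟩
      · exact inf_le_inf (h2 i) (h2 j)
      · exact inf_le_inf (h3 i) (h3 j)
    | or i j =>
      obtain ⟨h1, h2, h3⟩ := ih h
      refine ⟨h1, hsn _ _ _ _ h2 ?_, hsn _ _ _ _ h3 ?_⟩
      · exact sup_le_sup (h2 i) (h2 j)
      · exact sup_le_sup (h3 i) (h3 j)
    | not i =>
      have h' : C.notVals x ++ [!(C.val x i)] = C.notVals w ++ [!(C.val w i)] := h
      obtain ⟨e1, e2⟩ := List.append_inj' h' rfl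
      obtain ⟨h1, h2, h3⟩ := ih e1
      have e3 : C.val x i = C.val w i := by
        have := List.head_eq_of_cons_eq e2
        exact Bool.not_inj this
      have e4 : C.val y i = C.val x i := by
        apply le_antisymm
        · rw [e3]; exact h3 i
        · exact h2 i
      refine ⟨?_, hsn _ _ _ _ h2 ?_, hsn _ _ _ _ h3 ?_⟩
      · change C.notVals y ++ [!(C.val y i)] = C.notVals x ++ [!(C.val x i)]
        rw [h1, e4]
      · change (!(C.val x i)) ≤ !(C.val y i)
        rw [e4]
      · change (!(C.val y i)) ≤ !(C.val w i)
        rw [e4, e3]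

/-- Values of the wires when NOT gates are frozen at their values on the input `b`. -/
def starVal {n : ℕ} : {s : ℕ} → Circuit n s → (Fin n → Bool) → (Fin n → Bool) →
    (Fin (n + s) → Bool)
  | _, Circuit.nil, _, x => x
  | _, Circuit.snoc C (Gate.not i), b, x =>
      Fin.snoc (α := fun _ => Bool) (starVal C b x) (!(C.val b i))
  | _, Circuit.snoc C (Gate.const a), b, x =>
      Fin.snoc (α := fun _ => Bool) (starVal C b x) a
  | _, Circuit.snoc C (Gate.and i j), b, x =>
      Fin.snoc (α := fun _ => Bool) (starVal C b x) (starVal C b x i && starVal C b x j)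
  | _, Circuit.snoc C (Gate.or i j), b, x =>
      Fin.snoc (α := fun _ => Bool) (starVal C b x) (starVal C b x i || starVal C b x j)

/-- Some NOT gate with value true on `b` has input true in the frozen circuit. -/
def bad {n : ℕ} : {s : ℕ} → Circuit n s → (Fin n → Bool) → (Fin n → Bool) → Bool
  | _, Circuit.nil, _, _ => false
  | _, Circuit.snoc C (Gate.not i), b, x => bad C b x || (!(C.val b i) && starVal C b x i)
  | _, Circuit.snoc C (Gate.const _), b, x => bad C b x
  | _, Circuit.snoc C (Gate.and _ _), b, x => bad C b x
  | _, Circuit.snoc C (Gate.or _ _), b, x => bad C b x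

lemma star_mono {n s : ℕ} (C : Circuit n s) (b : Fin n → Bool) {x y : Fin n → Bool}
    (hxy : x ≤ y) : starVal C b x ≤ starVal C b y := by
  induction C with
  | nil => exact hxy
  | @snoc s C g ih =>
    have hsn : ∀ (u v : Fin (n + s) → Bool) (a b : Bool), u ≤ v → a ≤ b →
        (Fin.snoc (α := fun _ => Bool) u a : Fin (n + s + 1) → Bool) ≤
          Fin.snoc (α := fun _ => Bool) v b := by
      intro u v a b huv hab i
      refine Fin.lastCases ?_ (fun j => ?_) i
      · simpa using hab
      · simpa using huv j
    cases g with
    | const a => exact hsn _ _ _ _ ih le_rfl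
    | and i j => exact hsn _ _ _ _ ih (inf_le_inf (ih i) (ih j))
    | or i j => exact hsn _ _ _ _ ih (sup_le_sup (ih i) (ih j))
    | not i => exact hsn _ _ _ _ ih le_rfl

lemma star_self {n s : ℕ} (C : Circuit n s) (b : Fin n → Bool) : starVal C b b = C.val b := by
  induction C with
  | nil => rfl
  | @snoc s C g ih =>
    cases g <;> simp [starVal, Circuit.val, Gate.eval, ih]

lemma star_of_eq {n s : ℕ} (C : Circuit n s) {b x : Fin n → Bool}
    (h : C.notVals x = C.notVals b) : starVal C b x = C.val x ∧ bad C b x = false := by
  induction C with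
  | nil => exact ⟨rfl, rfl⟩
  | @snoc s C g ih =>
    cases g with
    | const a =>
      obtain ⟨h1, h2⟩ := ih h
      exact ⟨by simp [starVal, Circuit.val, Gate.eval, h1], h2⟩
    | and i j =>
      obtain ⟨h1, h2⟩ := ih h
      exact ⟨by simp [starVal, Circuit.val, Gate.eval, h1], h2⟩
    | or i j =>
      obtain ⟨h1, h2⟩ := ih h
      exact ⟨by simp [starVal, Circuit.val, Gate.eval, h1], h2⟩
    | not i =>
      have h' : C.notVals x ++ [!(C.val x i)] = C.notVals b ++ [!(C.val b i)] := h
      obtain ⟨e1, e2⟩ := List.append_inj' h' rfl
      obtain ⟨h1, h2⟩ := ih e1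
      have e3 : C.val x i = C.val b i := by
        have := List.head_eq_of_cons_eq e2
        exact Bool.not_inj this
      refine ⟨by simp [starVal, Circuit.val, Gate.eval, h1, e3], ?_⟩
      simp [bad, h2, h1, e3]

lemma eq_of_not_bad {n s : ℕ} (C : Circuit n s) {b x : Fin n → Bool} (hbx : b ≤ x)
    (h : bad C b x = false) : C.notVals x = C.notVals b := by
  induction C with
  | nil => rfl
  | @snoc s C g ih =>
    cases g with
    | const a => exact ih h
    | and i j => exact ih h
    | or i j => exact ih h
    | not i =>
      have h' : (bad C b x || (!(C.val b i) && starVal C b x i)) = false := h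
      rw [Bool.or_eq_false_iff] at h'
      obtain ⟨h1, h2⟩ := h'
      have e1 := ih h1
      have e2 := (star_of_eq C e1).1
      have e3 : C.val b i ≤ C.val x i := by
        rw [← e2, ← star_self C b]
        exact star_mono C b hbx i
      have e4 : C.val x i = C.val b i := by
        rw [e2] at h2
        cases hb : C.val b i
        · rw [hb] at h2
          simpa using h2
        · rw [hb] at e3
          exact le_antisymm (by cases C.val x i <;> simp) e3
      change C.notVals x ++ [!(C.val x i)] = C.notVals b ++ [!(C.val b i)]
      rw [e1, e4]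

lemma chain_build {n s : ℕ} {ι : Type*} (C : Circuit n s) (b : Fin n → Bool)
    (X : (ι → Bool) → (Fin n → Bool)) (hX : ∀ i, Avail [] (fun y => X y i)) :
    ∃ L, MonoChain L ∧ L.length ≤ s ∧ (∀ k, Avail L (fun y => starVal C b (X y) k)) ∧
      Avail L (fun y => bad C b (X y)) := by
  induction C with
  | nil => exact ⟨[], MonoChain.nil, le_rfl, hX, Or.inr (Or.inl ⟨false, rfl⟩)⟩
  | @snoc s C g ih =>
    obtain ⟨L, hL, hlen, hk, hb⟩ := ih
    cases g with
    | const a =>
      refine ⟨L, hL, by omega, ?_, hb⟩
      intro k
      refine Fin.lastCases ?_ (fun j => ?_) k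
      · have : (fun y => starVal (Circuit.snoc C (Gate.const a)) b (X y) (Fin.last (n + s))) =
            fun _ => a := by
          funext y
          simp [starVal]
        exact Or.inr (Or.inl ⟨a, this⟩)
      · have : (fun y => starVal (Circuit.snoc C (Gate.const a)) b (X y) (Fin.castSucc j)) =
            fun y => starVal C b (X y) j := by
          funext y
          simp [starVal]
        rw [show (fun y => starVal (Circuit.snoc C (Gate.const a)) b (X y) (Fin.castSucc j)) =
            fun y => starVal C b (X y) j from this]
        exact hk j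
    | and i j =>
      refine ⟨_, MonoChain.and hL (hk i) (hk j), by simp; omega, ?_, hb.mono (by
        intro f hf; exact List.mem_cons_of_mem _ hf)⟩
      intro k
      refine Fin.lastCases ?_ (fun l => ?_) k
      · have : (fun y => starVal (Circuit.snoc C (Gate.and i j)) b (X y) (Fin.last (n + s))) =
            fun y => starVal C b (X y) i && starVal C b (X y) j := by
          funext y
          simp [starVal]
        exact Or.inl (List.mem_cons.2 (Or.inl this))
      · have : (fun y => starVal (Circuit.snoc C (Gate.and i j)) b (X y) (Fin.castSucc l)) =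
            fun y => starVal C b (X y) l := by
          funext y
          simp [starVal]
        rw [show (fun y => starVal (Circuit.snoc C (Gate.and i j)) b (X y)
          (Fin.castSucc l)) = _ from this]
        exact (hk l).mono (by intro f hf; exact List.mem_cons_of_mem _ hf)
    | or i j =>
      refine ⟨_, MonoChain.or hL (hk i) (hk j), by simp; omega, ?_, hb.mono (by
        intro f hf; exact List.mem_cons_of_mem _ hf)⟩
      intro k
      refine Fin.lastCases ?_ (fun l => ?_) k
      · have : (fun y => starVal (Circuit.snoc C (Gate.or i j)) b (X y) (Fin.last (n + s))) =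
            fun y => starVal C b (X y) i || starVal C b (X y) j := by
          funext y
          simp [starVal]
        exact Or.inl (List.mem_cons.2 (Or.inl this))
      · have : (fun y => starVal (Circuit.snoc C (Gate.or i j)) b (X y) (Fin.castSucc l)) =
            fun y => starVal C b (X y) l := by
          funext y
          simp [starVal]
        rw [show (fun y => starVal (Circuit.snoc C (Gate.or i j)) b (X y)
          (Fin.castSucc l)) = _ from this]
        exact (hk l).mono (by intro f hf; exact List.mem_cons_of_mem _ hf)
    | not i =>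
      have hstar : ∀ L', (∀ f ∈ L, f ∈ L') → ∀ k, Avail L'
          (fun y => starVal (Circuit.snoc C (Gate.not i)) b (X y) k) := by
        intro L' hL' k
        refine Fin.lastCases ?_ (fun l => ?_) k
        · have : (fun y => starVal (Circuit.snoc C (Gate.not i)) b (X y)
              (Fin.last (n + s))) = fun _ => !(C.val b i) := by
            funext y
            simp [starVal]
          exact Or.inr (Or.inl ⟨_, this⟩)
        · have : (fun y => starVal (Circuit.snoc C (Gate.not i)) b (X y)
              (Fin.castSucc l)) = fun y => starVal C b (X y) l := by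
            funext y
            simp [starVal]
          rw [show (fun y => starVal (Circuit.snoc C (Gate.not i)) b (X y)
            (Fin.castSucc l)) = _ from this]
          exact (hk l).mono hL'
      by_cases hbi : C.val b i = true
      · refine ⟨L, hL, by omega, hstar L (fun f hf => hf), ?_⟩
        have : (fun y => bad (Circuit.snoc C (Gate.not i)) b (X y)) =
            fun y => bad C b (X y) := by
          funext y
          simp [bad, hbi]
        rw [show (fun y => bad (Circuit.snoc C (Gate.not i)) b (X y)) = _ from this]
        exact hb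
      · have hbi' : C.val b i = false := by simpa using hbi
        refine ⟨_, MonoChain.or hL hb (hk i), by simp; omega, hstar _ (by
          intro f hf; exact List.mem_cons_of_mem _ hf), ?_⟩
        left
        have : (fun y => bad (Circuit.snoc C (Gate.not i)) b (X y)) =
            fun y => bad C b (X y) || starVal C b (X y) i := by
          funext y
          simp [bad, hbi']
        rw [show (fun y => bad (Circuit.snoc C (Gate.not i)) b (X y)) = _ from this]
        exact List.mem_cons_self

/-- The walk. `G` places blocks `c 0, c 1, ...` into an input; `f` is the OR of `h` over the first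
`K` blocks. A circuit for `f` with at most `K` NOT-vectors along chains gives a monotone
computation of `h`. -/
theorem walk {n s K : ℕ} {κ : Type*} (C : Circuit n s) (o : Fin (n + s))
    (f : (Fin n → Bool) → Prop) (h : (κ → Bool) → Prop)
    (G : (ℕ → κ → Bool) → (Fin n → Bool))
    (hG : ∀ i, (∀ c, G c i = false) ∨ ∃ l k, ∀ c, G c i = c l k)
    (hf : ∀ c, f (G c) ↔ ∃ l < K, h (c l)) (h0 : ¬ h (fun _ => false))
    (hcomp : C.Computes o f) (hpat : C.PatternsLE K) :
    ∃ L : List ((κ → Bool) → Bool), MonoChain L ∧ L.length ≤ s + 1 ∧
      ∃ D ∈ L, ∀ y, D y = true ↔ h y := by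
  classical
  have hGmono : Monotone G := by
    intro c c' hcc i
    rcases hG i with h1 | ⟨l, k, h1⟩
    · rw [h1, h1]
    · rw [h1, h1]; exact hcc l k
  -- valid configurations at level j
  let Valid : (ℕ → κ → Bool) → ℕ → Prop := fun c j =>
    (∀ l < j, ¬ h (c l)) ∧ ∀ l, j ≤ l → c l = fun _ => false
  -- a stuck configuration
  have hstuck : ∃ c j, j < K ∧ Valid c j ∧
      ∀ y, ¬ h y → C.notVals (G (Function.update c j y)) = C.notVals (G c) := by
    by_contra hcon
    push Not at hcon
    have hch : ∀ c j, ∃ y, (j < K → Valid c j →
        ¬ h y ∧ C.notVals (G (Function.update c j y)) ≠ C.notVals (G c)) ∧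
        (¬ (j < K ∧ Valid c j) → ¬ h y) := by
      intro c j
      by_cases hj : j < K ∧ Valid c j
      · obtain ⟨y, hy1, hy2⟩ := hcon c j hj.1 hj.2
        exact ⟨y, fun _ _ => ⟨hy1, hy2⟩, fun hh => absurd hj hh⟩
      · exact ⟨fun _ => false, fun h1 h2 => absurd ⟨h1, h2⟩ hj, fun _ => h0⟩
    choose Y hY1 hY2 using hch
    let c : ℕ → (ℕ → κ → Bool) := fun j => Nat.rec (fun _ _ => false)
      (fun j cj => Function.update cj j (Y cj j)) j
    have hcs : ∀ j, c (j + 1) = Function.update (c j) j (Y (c j) j) := fun j => rfl
    have hYn : ∀ c j, ¬ h (Y c j) := by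
      intro c j
      by_cases hj : j < K ∧ Valid c j
      · exact (hY1 c j hj.1 hj.2).1
      · exact hY2 c j hj
    have hval : ∀ j, Valid (c j) j := by
      intro j
      induction j with
      | zero => exact ⟨fun l hl => absurd hl (Nat.not_lt_zero _), fun l _ => rfl⟩
      | succ j ih =>
        rw [hcs]
        refine ⟨fun l hl => ?_, fun l hl => ?_⟩
        · by_cases hlj : l = j
          · subst hlj
            rw [Function.update_self]
            exact hYn _ _
          · rw [Function.update_of_ne hlj]
            exact ih.1 l (by omega)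
        · rw [Function.update_of_ne (by omega)]
          exact ih.2 l (by omega)
    have hcmono : Monotone c := by
      apply monotone_nat_of_le_succ
      intro j
      rw [hcs]
      intro l
      by_cases hlj : l = j
      · subst hlj
        rw [(hval l).2 l le_rfl, Function.update_self]
        intro k; simp
      · rw [Function.update_of_ne hlj]
    have hx := hpat (fun j => G (c j)) (hGmono.comp hcmono)
    have hinj : Set.InjOn (fun j => C.notVals (G (c j))) (Set.Iic K) := by
      have key : ∀ i j, i < j → j ≤ K → C.notVals (G (c i)) ≠ C.notVals (G (c j)) := by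
        intro i j hij hjK heq
        have h1 := (conv C (hGmono (hcmono (Nat.le_succ i)))
          (hGmono (hcmono (show i + 1 ≤ j by omega))) heq).1
        have h2 := (hY1 (c i) i (by omega) (hval i)).2
        rw [← hcs] at h2
        exact h2 h1
      intro i hi j hj hij
      rcases lt_trichotomy i j with hlt | heq | hlt
      · exact absurd hij (key i j hlt hj)
      · exact heq
      · exact absurd hij.symm (key j i hlt hi)
    have h3 : ((fun j => C.notVals (G (c j))) '' Set.Iic K).encard = (K : ℕ∞) + 1 := by
      rw [hinj.encard_image]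
      have : (Set.Iic K : Set ℕ) = ((Finset.range (K + 1) : Finset ℕ) : Set ℕ) := by
        ext; simp
      rw [this, Set.encard_coe_eq_coe_finsetCard, Finset.card_range]
      rfl
    have h4 : ((fun j => C.notVals (G (c j))) '' Set.Iic K).encard ≤ K :=
      (Set.encard_le_encard (Set.image_subset_range _ _)).trans hx
    rw [h3] at h4
    have h5 : ((K + 1 : ℕ) : ℕ∞) ≤ (K : ℕ∞) := by exact_mod_cast h4
    have h6 : K + 1 ≤ K := by exact_mod_cast h5
    omega
  obtain ⟨c, j, hjK, hv, hst⟩ := hstuck
  let X : (κ → Bool) → (Fin n → Bool) := fun y => G (Function.update c j y)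
  have hX0 : X (fun _ => false) = G c := by
    have : Function.update c j (fun _ => false) = c := by
      rw [← hv.2 j le_rfl]
      exact Function.update_eq_self j c
    simp only [X, this]
  have hXf : ∀ y, f (X y) ↔ h y := by
    intro y
    simp only [X]
    rw [hf]
    constructor
    · rintro ⟨l, hl, hh⟩
      by_cases hlj : l = j
      · subst hlj
        rwa [Function.update_self] at hh
      · rw [Function.update_of_ne hlj] at hh
        rcases lt_or_ge l j with h1 | h1
        · exact absurd hh (hv.1 l h1)
        · rw [hv.2 l h1] at hh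
          exact absurd hh h0
    · intro hh
      exact ⟨j, hjK, by rwa [Function.update_self]⟩
  have hXav : ∀ i, Avail [] (fun y => X y i) := by
    intro i
    rcases hG i with h1 | ⟨l, k, h1⟩
    · exact Or.inr (Or.inl ⟨false, by funext y; exact h1 _⟩)
    · by_cases hlj : l = j
      · subst hlj
        refine Or.inr (Or.inr ⟨k, ?_⟩)
        funext y
        simp only [X]
        rw [h1, Function.update_self]
      · refine Or.inr (Or.inl ⟨c l k, ?_⟩)
        funext y
        simp only [X]
        rw [h1, Function.update_of_ne hlj]
  obtain ⟨L, hL, hlen, hk, hb⟩ := chain_build C (G c) X hXav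
  refine ⟨_, MonoChain.or hL (hk o) hb, by simp; omega, _, List.mem_cons_self, ?_⟩
  intro y
  have hle : G c ≤ X y := by
    rw [← hX0]
    apply hGmono
    intro l
    by_cases hlj : l = j
    · subst hlj
      rw [Function.update_self, Function.update_self]
      intro k; simp
    · rw [Function.update_of_ne hlj, Function.update_of_ne hlj]
  rw [Bool.or_eq_true]
  constructor
  · intro hD
    by_contra hy
    have h1 := hst y hy
    obtain ⟨h2, h3⟩ := star_of_eq C h1
    rcases hD with hD | hD
    · have h4 : C.val (X y) o = true := by
        rw [← hD]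
        exact congrFun h2.symm o
      exact hy ((hXf y).1 ((hcomp _).1 h4))
    · have h4 : bad C (G c) (X y) = false := h3
      rw [h4] at hD
      exact absurd hD (by simp)
  · intro hy
    by_cases hbad : bad C (G c) (X y) = true
    · exact Or.inr hbad
    · have hbad' : bad C (G c) (X y) = false := by simpa using hbad
      left
      have h1 := eq_of_not_bad C hle hbad'
      rw [(star_of_eq C h1).1]
      exact (hcomp _).2 ((hXf y).2 hy)

lemma notVals_length {n s : ℕ} (C : Circuit n s) (x : Fin n → Bool) :
    (C.notVals x).length = C.notCount := by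
  induction C with
  | nil => rfl
  | snoc C g ih => cases g <;> simp [Circuit.notVals, Circuit.notCount, ih]

/-- A circuit with `r` NOT gates has at most `2 ^ r` NOT-vectors. -/
theorem patterns_of_notCount {n s : ℕ} (C : Circuit n s) {K : ℕ} (h : 2 ^ C.notCount ≤ K) :
    C.PatternsLE K := by
  intro x _
  have h1 : (Set.range fun i => C.notVals (x i)) ⊆
      Set.range (fun v : List.Vector Bool C.notCount => v.toList) := by
    rintro _ ⟨i, rfl⟩
    exact ⟨⟨C.notVals (x i), notVals_length C _⟩, rfl⟩
  have h2 : (Set.range (fun v : List.Vector Bool C.notCount => v.toList)).encard ≤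
      ((2 ^ C.notCount : ℕ) : ℕ∞) := by
    rw [← Set.image_univ]
    refine (Set.encard_image_le _ _).trans ?_
    rw [Set.encard_univ, ENat.card_eq_coe_fintype_card]
    rw [card_vector, Fintype.card_bool]
  refine (Set.encard_le_encard h1).trans (h2.trans ?_)
  exact_mod_cast h

end Pool.Agent.helper38.Neg
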